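import Pool.Agent.Helper86.Bend.Pins

/-!
# The base graph

An instance consists of `m` clauses with three places each and a conflict relation `cf` on the places
`0, ..., 3 m - 1`. The vertices of the base graph are triples `(kind, o, t)`:
`0` the frames `I(o,t)`, `1` the frames `B(o,t)`, `2` the frames `C(o,t)`, `3` the frames `P(o)`, `4` the
frames `R(c)`, `5` the frames `D(o,o')`, `6`, `8` the tails of `I(o,t)`, `7`, `9` the tails of `C(o,t)`,
`10`, `11` the splitters `S1(o,t)`, `S2(o,t)`, `12` the selectors `K(o)`, `13` the conflict vertices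
`F(o,o')`.
-/

open Finset

namespace Pool.Agent.Helper86.Bend

/-- names of vertices -/
abbrev T3 : Type := ℕ × ℕ × ℕ

/-- the pairs of kinds of adjacent vertices with the same indices -/
def kinds : List (ℕ × ℕ) :=
  [(10, 0), (10, 1), (10, 2), (11, 0), (11, 1), (10, 11), (6, 0), (8, 6), (7, 2), (9, 7), (13, 5),
    (13, 2), (12, 3), (12, 0)]

/-- adjacency, one direction -/
def adjE (x y : T3) : Bool :=
  (decide (x.2 = y.2) && kinds.any fun p => decide (p = (x.1, y.1))) ||
  ((decide (x.1 = 11) && (decide (y.1 = 0) && decide (y.2 = (x.2.1, x.2.2 + 1)))) ||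
  ((decide (x.1 = 13) && (decide (y.1 = 2) && decide (y.2 = (x.2.2, x.2.1)))) ||
  (decide (x.1 = 12) && (decide (y.1 = 4) && decide (y.2 = (x.2.1 / 3, 0))))))

/-- adjacency in the base graph -/
def adjH (x y : T3) : Bool := adjE x y || adjE y x

/-- the existing vertices -/
def okB (n : ℕ) (cf : ℕ → ℕ → Bool) (x : T3) : Bool :=
  (!(kinds1.any fun p => decide (p = x.1)) || decide (x.2.2 = 0)) &&
  (!(kinds2.any fun p => decide (p = x.1)) ||
    (decide (x.2.1 < x.2.2) && (decide (x.2.2 < n) && cf x.2.1 x.2.2)))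
where
  /-- kinds with one index -/
  kinds1 : List ℕ := [3, 4, 12]
  /-- kinds which depend on the conflict relation -/
  kinds2 : List ℕ := [5, 13]

/-- the list of all vertices -/
def listH (n : ℕ) (cf : ℕ → ℕ → Bool) : List T3 :=
  ((List.range 14).flatMap fun k => (List.range n).flatMap fun a =>
    (List.range (n + 1)).map fun b => (k, a, b)).filter (okB n cf)

/-- the number of visible segments -/
def TH (x : T3) : ℕ := if 10 ≤ x.1 then 2 else 1

/-- The instance is solvable: one can choose a place in every clause such that there are no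
conflicts. -/
def Feas (m : ℕ) (cf : ℕ → ℕ → Bool) : Prop :=
  ∃ κ : ℕ → ℕ, (∀ c, κ c < 3) ∧ ∀ c < m, ∀ c' < m, 3 * c + κ c < 3 * c' + κ c' →
    cf (3 * c + κ c) (3 * c' + κ c') = false

lemma adjH_comm (x y : T3) : adjH x y = adjH y x := by
  unfold adjH
  rw [Bool.or_comm]

lemma mem_listH {n : ℕ} {cf : ℕ → ℕ → Bool} {x : T3} :
    x ∈ listH n cf ↔ (x.1 < 14 ∧ x.2.1 < n ∧ x.2.2 < n + 1) ∧ okB n cf x = true := by
  obtain ⟨k, a, b⟩ := x
  simp only [listH, List.mem_filter, List.mem_flatMap, List.mem_range, List.mem_map, Prod.mk.injEq]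
  constructor
  · rintro ⟨⟨k', hk, a', ha, b', hb, rfl, rfl, rfl⟩, h⟩
    exact ⟨⟨hk, ha, hb⟩, h⟩
  · rintro ⟨⟨hk, ha, hb⟩, h⟩
    exact ⟨⟨k, hk, a, ha, b, hb, rfl, rfl, rfl⟩, h⟩

lemma nodup_listH (n : ℕ) (cf : ℕ → ℕ → Bool) : (listH n cf).Nodup := by
  unfold listH
  refine List.Nodup.filter _ ?_
  rw [List.nodup_flatMap]
  refine ⟨fun k _ => ?_, ?_⟩
  · rw [List.nodup_flatMap]
    refine ⟨fun a _ => ?_, ?_⟩
    · refine List.Nodup.map ?_ List.nodup_range
      intro b b' h
      simpa using h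
    · refine List.Pairwise.imp ?_ (List.nodup_range (n := n))
      intro a a' hne
      show List.Disjoint _ _
      intro x hx hx'
      simp only [List.mem_map] at hx hx'
      obtain ⟨b, -, rfl⟩ := hx
      obtain ⟨b', -, h⟩ := hx'
      simp only [Prod.mk.injEq] at h
      exact hne h.2.1.symm
  · refine List.Pairwise.imp ?_ (List.nodup_range (n := 14))
    intro a a' hne
    show List.Disjoint _ _
    intro x hx hx'
    simp only [List.mem_flatMap, List.mem_map] at hx hx'
    obtain ⟨c, -, b, -, rfl⟩ := hx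
    obtain ⟨c', -, b', -, h⟩ := hx'
    simp only [Prod.mk.injEq] at h
    exact hne h.1.symm

section no

variable {V : Finset T3} {vis : T3 → Finset (Pt × Pt)}

/-- the vertex `v` meets the frame `f` and is not contained in it -/
def Uses (vis : T3 → Finset (Pt × Pt)) (v f : T3) : Prop :=
  ∃ s ∈ vis v, ∃ a ∈ vis f, ov s a ∧ ¬ sb s a

/-- the properties of the visible segments -/
structure VisOk (V : Finset T3) (vis : T3 → Finset (Pt × Pt)) : Prop where
  card : ∀ w ∈ V, (vis w).card ≤ TH w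
  ok : ∀ w ∈ V, ∀ s ∈ vis w, s.1 ≠ s.2
  adj : ∀ w ∈ V, ∀ u ∈ V, w ≠ u → (adjH w u = true ↔ ∃ s ∈ vis w, ∃ t ∈ vis u, ov s t)

lemma two_frames (h : VisOk V vis) {v f g : T3} (hf : f ∈ V) (hg : g ∈ V) (hfg : f ≠ g)
    (hfg' : adjH f g = false) {s a b : Pt × Pt} (hs : s ∈ vis v) (ha : a ∈ vis f) (hb : b ∈ vis g)
    (h1 : ov s a) (h2 : ov s b) : Uses vis v f ∧ Uses vis v g := by
  constructor
  · refine ⟨s, hs, a, ha, h1, fun hsb => ?_⟩
    have := (h.adj f hf g hg hfg).2 ⟨a, ha, b, hb, sb_ov hsb h2⟩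
    rw [hfg'] at this
    exact absurd this (by simp)
  · refine ⟨s, hs, b, hb, h2, fun hsb => ?_⟩
    have := (h.adj f hf g hg hfg).2 ⟨a, ha, b, hb, ov_symm (sb_ov hsb h1)⟩
    rw [hfg'] at this
    exact absurd this (by simp)

/-- A vertex with two visible segments uses two of three frames. -/
lemma three_frames (h : VisOk V vis) {v f g r : T3} (hv : v ∈ V) (hf : f ∈ V) (hg : g ∈ V)
    (hr : r ∈ V) (hne : v ≠ f ∧ v ≠ g ∧ v ≠ r) (hfg : f ≠ g) (hfr : f ≠ r) (hgr : g ≠ r)
    (hvf : adjH v f = true) (hvg : adjH v g = true) (hvr : adjH v r = true)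
    (hfg' : adjH f g = false) (hfr' : adjH f r = false) (hgr' : adjH g r = false) :
    (Uses vis v f ∧ Uses vis v g) ∨ (Uses vis v f ∧ Uses vis v r) ∨
      (Uses vis v g ∧ Uses vis v r) := by
  classical
  obtain ⟨s1, hs1, a1, ha1, h1⟩ := (h.adj v hv f hf hne.1).1 hvf
  obtain ⟨s2, hs2, a2, ha2, h2⟩ := (h.adj v hv g hg hne.2.1).1 hvg
  obtain ⟨s3, hs3, a3, ha3, h3⟩ := (h.adj v hv r hr hne.2.2).1 hvr
  have hc : (vis v).card ≤ 2 := by
    refine (h.card v hv).trans ?_
    unfold TH
    split_ifs <;> omega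
  have hcase : s1 = s2 ∨ s1 = s3 ∨ s2 = s3 := by
    by_contra hcon
    push Not at hcon
    have h4 : ({s1, s2, s3} : Finset (Pt × Pt)).card = 3 :=
      card_eq_three.2 ⟨s1, s2, s3, hcon.1, hcon.2.1, hcon.2.2, rfl⟩
    have h5 : ({s1, s2, s3} : Finset (Pt × Pt)) ⊆ vis v := by
      intro s hs
      simp only [mem_insert, mem_singleton] at hs
      rcases hs with rfl | rfl | rfl <;> assumption
    have := card_le_card h5
    omega
  rcases hcase with e | e | e
  · left
    rw [← e] at h2
    exact two_frames h hf hg hfg hfg' hs1 ha1 ha2 h1 h2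
  · right; left
    rw [← e] at h3
    exact two_frames h hf hr hfr hfr' hs1 ha1 ha3 h1 h3
  · right; right
    rw [← e] at h3
    exact two_frames h hg hr hgr hgr' hs2 ha2 ha3 h2 h3

lemma eq_of_card_le_one {α : Type*} {S : Finset α} (h : S.card ≤ 1) {a b : α} (ha : a ∈ S)
    (hb : b ∈ S) : a = b := card_le_one.1 h a ha b hb

/-- A frame with a tail is used by at most one of two vertices which are not adjacent. -/
lemma cap_one (h : VisOk V vis) {f x y v v' : T3} (hf : f ∈ V) (hx : x ∈ V) (hy : y ∈ V)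
    (hv : v ∈ V) (hv' : v' ∈ V) (hTf : TH f = 1) (hTx : TH x = 1) (h1 : f ≠ x) (h2 : x ≠ y)
    (h3 : f ≠ y) (h4 : adjH f x = true) (h5 : adjH x y = true) (h6 : adjH f y = false)
    (h7 : v ≠ x) (h8 : v' ≠ x) (h9 : v ≠ v') (h10 : adjH v x = false) (h11 : adjH v' x = false)
    (h12 : adjH v v' = false) (hu : Uses vis v f) (hu' : Uses vis v' f) : False := by
  obtain ⟨a, ha, b, hb, hab⟩ := (h.adj f hf x hx h1).1 h4
  obtain ⟨b', hb', c, hc, hbc⟩ := (h.adj x hx y hy h2).1 h5
  have hbb : b' = b := eq_of_card_le_one ((h.card x hx).trans hTx.le) hb' hb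
  subst hbb
  have hfc : (vis f).card ≤ 1 := (h.card f hf).trans hTf.le
  obtain ⟨e, he⟩ : ∃ e, gm a e b' := by
    rcases ov_cases (ov_symm hab) with h13 | h13
    · have := (h.adj f hf y hy h3).2 ⟨a, ha, c, hc, sb_ov h13 hbc⟩
      rw [h6] at this
      exact absurd this (by simp)
    · exact h13
  have key : ∀ z ∈ V, z ≠ x → adjH z x = false → Uses vis z f → ∃ s ∈ vis z, gm a (!e) s := by
    rintro z hz hzx hzx' ⟨s, hs, a', ha', hov, hsb⟩
    have haa : a' = a := eq_of_card_le_one hfc ha' ha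
    subst haa
    rcases ov_cases hov with h13 | ⟨e', he'⟩
    · exact absurd h13 hsb
    · refine ⟨s, hs, ?_⟩
      have hee : e' = !e := by
        by_contra hne
        have : e' = e := by
          cases e <;> cases e' <;> simp_all
        subst this
        have := (h.adj z hz x hx hzx).2 ⟨s, hs, b', hb, gm_ov (h.ok f hf _ ha) he' he⟩
        rw [hzx'] at this
        exact absurd this (by simp)
      rw [← hee]
      exact he'
  obtain ⟨s, hs, hg⟩ := key v hv h7 h10 hu
  obtain ⟨s', hs', hg'⟩ := key v' hv' h8 h11 hu'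
  have := (h.adj v hv v' hv' h9).2 ⟨s, hs, s', hs', gm_ov (h.ok f hf _ ha) hg hg'⟩
  rw [h12] at this
  exact absurd this (by simp)

/-- A frame is used by at most two pairwise non-adjacent vertices. -/
lemma cap_two (h : VisOk V vis) {f v1 v2 v3 : T3} (hf : f ∈ V) (h1 : v1 ∈ V) (h2 : v2 ∈ V)
    (h3 : v3 ∈ V) (hTf : TH f = 1) (h12 : v1 ≠ v2) (h13 : v1 ≠ v3) (h23 : v2 ≠ v3)
    (h12' : adjH v1 v2 = false) (h13' : adjH v1 v3 = false) (h23' : adjH v2 v3 = false)
    (u1 : Uses vis v1 f) (u2 : Uses vis v2 f) (u3 : Uses vis v3 f) : False := by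
  have hfc : (vis f).card ≤ 1 := (h.card f hf).trans hTf.le
  obtain ⟨s1, hs1, a, ha, hov1, hsb1⟩ := u1
  obtain ⟨s2, hs2, a2, ha2, hov2, hsb2⟩ := u2
  obtain ⟨s3, hs3, a3, ha3, hov3, hsb3⟩ := u3
  have e2 : a2 = a := eq_of_card_le_one hfc ha2 ha
  have e3 : a3 = a := eq_of_card_le_one hfc ha3 ha
  subst e2
  subst e3
  obtain ⟨b1, hb1⟩ := (ov_cases hov1).resolve_left hsb1
  obtain ⟨b2, hb2⟩ := (ov_cases hov2).resolve_left hsb2
  obtain ⟨b3, hb3⟩ := (ov_cases hov3).resolve_left hsb3
  have hok := h.ok f hf _ ha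
  have hcase : b1 = b2 ∨ b1 = b3 ∨ b2 = b3 := by
    cases b1 <;> cases b2 <;> cases b3 <;> simp
  rcases hcase with e | e | e
  · subst e
    have := (h.adj v1 h1 v2 h2 h12).2 ⟨s1, hs1, s2, hs2, gm_ov hok hb1 hb2⟩
    rw [h12'] at this
    exact absurd this (by simp)
  · subst e
    have := (h.adj v1 h1 v3 h3 h13).2 ⟨s1, hs1, s3, hs3, gm_ov hok hb1 hb3⟩
    rw [h13'] at this
    exact absurd this (by simp)
  · subst e
    have := (h.adj v2 h2 v3 h3 h23).2 ⟨s2, hs2, s3, hs3, gm_ov hok hb2 hb3⟩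
    rw [h23'] at this
    exact absurd this (by simp)

/-- **Soundness of the base graph.** -/
theorem feas_of_vis {m : ℕ} {cf : ℕ → ℕ → Bool}
    (h : VisOk (listH (3 * m) cf).toFinset vis) : Feas m cf := by
  set n := 3 * m with hn
  have hmem : ∀ x : T3, x ∈ (listH n cf).toFinset ↔
      (x.1 < 14 ∧ x.2.1 < n ∧ x.2.2 < n + 1) ∧ okB n cf x = true := by
    intro x
    rw [List.mem_toFinset, mem_listH]
  -- the selectors
  have hK : ∀ o < n, ((12, o, 0) : T3) ∈ (listH n cf).toFinset := by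
    intro o ho
    rw [hmem]
    refine ⟨⟨by simp, ho, by simp⟩, by simp [okB, okB.kinds1, okB.kinds2]⟩
  have hR : ∀ c < m, ((4, c, 0) : T3) ∈ (listH n cf).toFinset := by
    intro c hc
    rw [hmem]
    refine ⟨⟨by simp, by simp only; omega, by simp⟩, by simp [okB, okB.kinds1, okB.kinds2]⟩
  have hP : ∀ o < n, ((3, o, 0) : T3) ∈ (listH n cf).toFinset := by
    intro o ho
    rw [hmem]
    refine ⟨⟨by simp, ho, by simp⟩, by simp [okB, okB.kinds1, okB.kinds2]⟩
  have hgen : ∀ k, (k = 0 ∨ k = 1 ∨ k = 2 ∨ k = 6 ∨ k = 7 ∨ k = 8 ∨ k = 9 ∨ k = 10 ∨ k = 11) →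
      ∀ o < n, ∀ t ≤ n, ((k, o, t) : T3) ∈ (listH n cf).toFinset := by
    intro k hk o ho t ht
    rw [hmem]
    refine ⟨⟨by simp only; omega, ho, by simp only; omega⟩, ?_⟩
    rcases hk with rfl | rfl | rfl | rfl | rfl | rfl | rfl | rfl | rfl <;>
      simp [okB, okB.kinds1, okB.kinds2]
  -- in every clause there is a selector which does not use `R`
  have hsel : ∀ c < m, ∃ j < 3, Uses vis (12, 3 * c + j, 0) (0, 3 * c + j, 0) := by
    intro c hc
    have key : ∀ j < 3, ¬ Uses vis (12, 3 * c + j, 0) (4, c, 0) →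
        Uses vis (12, 3 * c + j, 0) (0, 3 * c + j, 0) := by
      intro j hj hno
      have ho : 3 * c + j < n := by omega
      have hdiv : (3 * c + j) / 3 = c := by omega
      have h3 := three_frames h (hK _ ho) (hP _ ho) (hgen 0 (by simp) _ ho 0 (by omega)) (hR c hc)
        (by simp) (by simp) (by simp) (by simp) (by simp [adjH, adjE, kinds])
        (by simp [adjH, adjE, kinds]) (by simp [adjH, adjE, kinds, hdiv])
        (by simp [adjH, adjE, kinds]) (by simp [adjH, adjE, kinds]) (by simp [adjH, adjE, kinds])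
      rcases h3 with ⟨-, h4⟩ | ⟨-, h4⟩ | ⟨h4, -⟩
      · exact h4
      · exact absurd h4 hno
      · exact h4
    by_contra hcon
    push Not at hcon
    have hall : ∀ j < 3, Uses vis (12, 3 * c + j, 0) (4, c, 0) := by
      intro j hj
      by_contra hno
      exact hcon j hj (key j hj hno)
    refine cap_two h (hR c hc) (hK (3 * c + 0) (by omega)) (hK (3 * c + 1) (by omega))
      (hK (3 * c + 2) (by omega)) (by simp [TH]) (by simp) (by simp) (by simp)
      (by simp [adjH, adjE, kinds]) (by simp [adjH, adjE, kinds]) (by simp [adjH, adjE, kinds])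
      (hall 0 (by omega)) (hall 1 (by omega)) (hall 2 (by omega))
  choose! κ hκ1 hκ2 using hsel
  -- a place is chosen
  have chain : ∀ o < n, Uses vis (12, o, 0) (0, o, 0) → ∀ t ≤ n,
      ∃ v ∈ (listH n cf).toFinset, Uses vis v (0, o, t) ∧ v ≠ (10, o, t) ∧ v ≠ (11, o, t) ∧
        v ≠ (6, o, t) ∧ adjH v (10, o, t) = false ∧ adjH v (11, o, t) = false ∧
        adjH v (6, o, t) = false := by
    intro o ho hu t
    induction t with
    | zero =>
      intro _
      refine ⟨(12, o, 0), hK o ho, hu, by simp, by simp, by simp, ?_, ?_, ?_⟩ <;>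
        simp [adjH, adjE, kinds]
    | succ t ih =>
      intro ht
      obtain ⟨v, hv, hvu, h1, h2, h3, h4, h5, h6⟩ := ih (by omega)
      refine ⟨(11, o, t), hgen 11 (by simp) o ho t (by omega), ?_, by simp, by simp, by simp,
        by simp [adjH, adjE, kinds], by simp [adjH, adjE, kinds], by simp [adjH, adjE, kinds]⟩
      have hno : ¬ Uses vis (11, o, t) (0, o, t) := by
        intro hu'
        refine cap_one h (f := (0, o, t)) (x := (6, o, t)) (y := (8, o, t)) (v := v)
          (v' := (11, o, t)) (hgen 0 (by simp) o ho t (by omega))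
          (hgen 6 (by simp) o ho t (by omega)) (hgen 8 (by simp) o ho t (by omega)) hv
          (hgen 11 (by simp) o ho t (by omega)) (by simp [TH]) (by simp [TH]) (by simp) (by simp)
          (by simp) (by simp [adjH, adjE, kinds]) (by simp [adjH, adjE, kinds])
          (by simp [adjH, adjE, kinds]) h3 (by simp) h2 h6 (by simp [adjH, adjE, kinds]) h5 hvu hu'
      have h7 := three_frames h (v := (11, o, t)) (f := (0, o, t)) (g := (1, o, t))
        (r := (0, o, t + 1)) (hgen 11 (by simp) o ho t (by omega))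
        (hgen 0 (by simp) o ho t (by omega)) (hgen 1 (by simp) o ho t (by omega))
        (hgen 0 (by simp) o ho (t + 1) ht) (by simp) (by simp) (by simp) (by simp)
        (by simp [adjH, adjE, kinds]) (by simp [adjH, adjE, kinds]) (by simp [adjH, adjE, kinds])
        (by simp [adjH, adjE, kinds]) (by simp [adjH, adjE, kinds]) (by simp [adjH, adjE, kinds])
      rcases h7 with ⟨h8, -⟩ | ⟨h8, -⟩ | ⟨-, h8⟩
      · exact absurd h8 hno
      · exact absurd h8 hno
      · exact h8
  have useC : ∀ o < n, Uses vis (12, o, 0) (0, o, 0) → ∀ t < n,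
      Uses vis (10, o, t) (2, o, t) := by
    intro o ho hu t ht
    obtain ⟨v, hv, hvu, h1, h2, h3, h4, h5, h6⟩ := chain o ho hu t ht.le
    have hno : ¬ Uses vis (10, o, t) (0, o, t) := by
      intro hu'
      refine cap_one h (f := (0, o, t)) (x := (6, o, t)) (y := (8, o, t)) (v := v)
        (v' := (10, o, t)) (hgen 0 (by simp) o ho t (by omega))
        (hgen 6 (by simp) o ho t (by omega)) (hgen 8 (by simp) o ho t (by omega)) hv
        (hgen 10 (by simp) o ho t (by omega)) (by simp [TH]) (by simp [TH]) (by simp) (by simp)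
        (by simp) (by simp [adjH, adjE, kinds]) (by simp [adjH, adjE, kinds])
        (by simp [adjH, adjE, kinds]) h3 (by simp) h1 h6 (by simp [adjH, adjE, kinds]) h4 hvu hu'
    have h7 := three_frames h (v := (10, o, t)) (f := (0, o, t)) (g := (1, o, t))
      (r := (2, o, t)) (hgen 10 (by simp) o ho t (by omega))
      (hgen 0 (by simp) o ho t (by omega)) (hgen 1 (by simp) o ho t (by omega))
      (hgen 2 (by simp) o ho t (by omega)) (by simp) (by simp) (by simp) (by simp)
      (by simp [adjH, adjE, kinds]) (by simp [adjH, adjE, kinds]) (by simp [adjH, adjE, kinds])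
      (by simp [adjH, adjE, kinds]) (by simp [adjH, adjE, kinds]) (by simp [adjH, adjE, kinds])
    rcases h7 with ⟨h8, -⟩ | ⟨h8, -⟩ | ⟨-, h8⟩
    · exact absurd h8 hno
    · exact absurd h8 hno
    · exact h8
  refine ⟨fun c => if c < m then κ c else 0, fun c => ?_, ?_⟩
  · show (if c < m then κ c else 0) < 3
    split_ifs with hc
    · exact hκ1 c hc
    · omega
  intro c hc c' hc' hlt
  simp only [if_pos hc, if_pos hc'] at hlt ⊢
  have h1 := hκ1 c hc
  have h1' := hκ1 c' hc'
  have hu := hκ2 c hc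
  have hu' := hκ2 c' hc'
  have ho : 3 * c + κ c < n := by omega
  have ho' : 3 * c' + κ c' < n := by omega
  generalize 3 * c + κ c = o at *
  generalize 3 * c' + κ c' = o' at *
  by_contra hcf
  rw [Bool.not_eq_false] at hcf
  have hF : ((13, o, o') : T3) ∈ (listH n cf).toFinset := by
    rw [hmem]
    exact ⟨⟨by simp, ho, by simp only; omega⟩, by simp [okB, okB.kinds1, okB.kinds2, hcf, hlt, ho']⟩
  have hD : ((5, o, o') : T3) ∈ (listH n cf).toFinset := by
    rw [hmem]
    exact ⟨⟨by simp, ho, by simp only; omega⟩, by simp [okB, okB.kinds1, okB.kinds2, hcf, hlt, ho']⟩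
  have hne : o ≠ o' := hlt.ne
  have hC := hgen 2 (by simp) o ho o' ho'.le
  have hC' := hgen 2 (by simp) o' ho' o ho.le
  have h7 := three_frames h (v := (13, o, o')) (f := (5, o, o')) (g := (2, o, o'))
    (r := (2, o', o)) hF hD hC hC' (by simp) (by simp) (by simp) (by simp [hne])
    (by simp [adjH, adjE, kinds]) (by simp [adjH, adjE, kinds]) (by simp [adjH, adjE, kinds])
    (by simp [adjH, adjE, kinds]) (by simp [adjH, adjE, kinds]) (by simp [adjH, adjE, kinds])
  have h8 : Uses vis (13, o, o') (2, o, o') ∨ Uses vis (13, o, o') (2, o', o) := by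
    rcases h7 with ⟨-, h8⟩ | ⟨-, h8⟩ | ⟨h8, -⟩
    · exact Or.inl h8
    · exact Or.inr h8
    · exact Or.inl h8
  rcases h8 with h8 | h8
  · exact cap_one h (f := (2, o, o')) (x := (7, o, o')) (y := (9, o, o')) (v := (13, o, o'))
      (v' := (10, o, o')) hC (hgen 7 (by simp) o ho o' ho'.le) (hgen 9 (by simp) o ho o' ho'.le)
      hF (hgen 10 (by simp) o ho o' ho'.le) (by simp [TH]) (by simp [TH]) (by simp) (by simp)
      (by simp) (by simp [adjH, adjE, kinds]) (by simp [adjH, adjE, kinds])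
      (by simp [adjH, adjE, kinds]) (by simp) (by simp) (by simp) (by simp [adjH, adjE, kinds])
      (by simp [adjH, adjE, kinds]) (by simp [adjH, adjE, kinds]) h8 (useC o ho hu o' ho')
  · exact cap_one h (f := (2, o', o)) (x := (7, o', o)) (y := (9, o', o)) (v := (13, o, o'))
      (v' := (10, o', o)) hC' (hgen 7 (by simp) o' ho' o ho.le) (hgen 9 (by simp) o' ho' o ho.le)
      hF (hgen 10 (by simp) o' ho' o ho.le) (by simp [TH]) (by simp [TH]) (by simp) (by simp)
      (by simp) (by simp [adjH, adjE, kinds]) (by simp [adjH, adjE, kinds])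
      (by simp [adjH, adjE, kinds]) (by simp) (by simp) (by simp) (by simp [adjH, adjE, kinds])
      (by simp [adjH, adjE, kinds]) (by simp [adjH, adjE, kinds]) h8 (useC o' ho' hu' o ho)

end no

end Pool.Agent.Helper86.Bend
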