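import Mathlib

/-!
# Polylines in the plane, graphs given by overlapping polylines
-/

open Set Filter Topology

namespace Pool.Agent.Helper86.Bend

/-- The plane. -/
abbrev Pt : Type := ℝ × ℝ

/-- The segments of the polyline with the list of vertices `l`. -/
def pieces (l : List Pt) : List (Pt × Pt) := l.zip l.tail

/-- A polyline is given by the list of its vertices: it has at least one segment, and every segment
has two different end points. -/
def IsPolyline (l : List Pt) : Prop := 2 ≤ l.length ∧ ∀ s ∈ pieces l, s.1 ≠ s.2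

/-- The number of bends of a polyline: the number of its segments minus one. -/
def bends (l : List Pt) : ℕ := (pieces l).length - 1

/-- The set of points of a polyline. -/
def trace (l : List Pt) : Set Pt := {x | ∃ s ∈ pieces l, x ∈ segment ℝ s.1 s.2}

/-- closed segment of a pair of points -/
def sg (s : Pt × Pt) : Set Pt := segment ℝ s.1 s.2

/-- the two segments have infinitely many common points -/
def ov (s t : Pt × Pt) : Prop := (sg s ∩ sg t).Infinite

/-- one segment is contained in the other one -/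
def sb (s t : Pt × Pt) : Prop := sg s ⊆ sg t

/-- `s` contains a beginning piece of `t` (for `e = false`) or an end piece of `t` (for `e = true`) -/
def gm (t : Pt × Pt) (e : Bool) (s : Pt × Pt) : Prop :=
  ∀ᶠ c : ℝ in 𝓝[>] 0, (if e then t.2 + c • (t.1 - t.2) else t.1 + c • (t.2 - t.1)) ∈ sg s

lemma ov_symm {s t : Pt × Pt} (h : ov s t) : ov t s := by
  unfold ov at *
  rwa [inter_comm]

lemma sb_ov {s t u : Pt × Pt} (h : sb s t) (h' : ov s u) : ov t u :=
  h'.mono (inter_subset_inter_left _ h)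

lemma mem_sg_iff {s : Pt × Pt} {x : Pt} :
    x ∈ sg s ↔ ∃ c : ℝ, 0 ≤ c ∧ c ≤ 1 ∧ x = s.1 + c • (s.2 - s.1) := by
  unfold sg
  rw [segment_eq_image']
  constructor
  · rintro ⟨c, ⟨h1, h2⟩, rfl⟩
    exact ⟨c, h1, h2, rfl⟩
  · rintro ⟨c, h1, h2, rfl⟩
    exact ⟨c, ⟨h1, h2⟩, rfl⟩

lemma inj_param {a b : Pt} (h : b ≠ 0) : Function.Injective (fun c : ℝ => a + c • b) := by
  intro c d hcd
  have h1 : c • b = d • b := add_left_cancel hcd
  exact smul_left_injective ℝ h h1

lemma gm_ov {t s s' : Pt × Pt} {e : Bool} (ht : t.1 ≠ t.2) (h : gm t e s) (h' : gm t e s') :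
    ov s s' := by
  have h1 := h.and h'
  set b : Pt := if e then t.1 - t.2 else t.2 - t.1 with hb
  set a : Pt := if e then t.2 else t.1 with ha
  have hb0 : b ≠ 0 := by
    rw [hb]
    cases e
    · simpa using sub_ne_zero.2 (Ne.symm ht)
    · simpa using sub_ne_zero.2 ht
  have h2 : {c : ℝ | (if e then t.2 + c • (t.1 - t.2) else t.1 + c • (t.2 - t.1)) ∈ sg s ∧
      (if e then t.2 + c • (t.1 - t.2) else t.1 + c • (t.2 - t.1)) ∈ sg s'}.Infinite := by
    have h3 := mem_nhdsGT_iff_exists_Ioo_subset.1 h1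
    obtain ⟨u, hu, h4⟩ := h3
    exact (Ioo_infinite hu).mono h4
  have h5 := h2.image ((inj_param (a := a) hb0).injOn)
  refine h5.mono ?_
  rintro _ ⟨c, ⟨h6, h7⟩, rfl⟩
  have h8 : a + c • b = if e then t.2 + c • (t.1 - t.2) else t.1 + c • (t.2 - t.1) := by
    rw [ha, hb]
    cases e <;> simp
  show a + c • b ∈ sg s ∩ sg s'
  rw [h8]
  exact ⟨h6, h7⟩

lemma ov_self {s : Pt × Pt} (hs : s.1 ≠ s.2) : ov s s := by
  have h1 : gm s false s := by
    have h2 : ∀ᶠ c : ℝ in 𝓝[>] 0, c ∈ Ioo (0 : ℝ) 1 := Ioo_mem_nhdsGT one_pos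
    filter_upwards [h2] with c hc
    simp only [Bool.false_eq_true, if_false]
    rw [mem_sg_iff]
    exact ⟨c, hc.1.le, hc.2.le, rfl⟩
  exact gm_ov hs h1 h1

/-- If two segments have infinitely many common points then `s` is contained in `t` or it contains
a beginning piece or an end piece of `t`. -/
lemma ov_cases {s t : Pt × Pt} (h : ov s t) : sb s t ∨ ∃ e, gm t e s := by
  obtain ⟨x, hx, y, hy, hxy⟩ := (h.nontrivial : (sg s ∩ sg t).Nontrivial)
  obtain ⟨c1, hc1, hc1', ex⟩ := mem_sg_iff.1 hx.2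
  obtain ⟨c2, hc2, hc2', ey⟩ := mem_sg_iff.1 hy.2
  obtain ⟨d1, hd1, hd1', ex'⟩ := mem_sg_iff.1 hx.1
  obtain ⟨d2, hd2, hd2', ey'⟩ := mem_sg_iff.1 hy.1
  set a := t.1
  set v := t.2 - t.1 with hv
  set a' := s.1
  set v' := s.2 - s.1 with hv'
  have hd : d2 ≠ d1 := by
    rintro rfl
    exact hxy (by rw [ex', ey'])
  have hd0 : d2 - d1 ≠ 0 := sub_ne_zero.2 hd
  -- `v' = ρ v`, `a' = a + γ v`
  set ρ : ℝ := (c2 - c1) / (d2 - d1) with hρ
  have e1 : (d2 - d1) • v' = (c2 - c1) • v := by
    have e2 : y - x = (c2 - c1) • v := by rw [ex, ey, sub_smul]; abel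
    have e3 : y - x = (d2 - d1) • v' := by rw [ex', ey', sub_smul]; abel
    rw [← e2, ← e3]
  have e4 : v' = ρ • v := by
    rw [hρ, div_eq_inv_mul, mul_smul, ← e1, smul_smul, inv_mul_cancel₀ hd0, one_smul]
  set γ : ℝ := c1 - d1 * ρ with hγ
  have e5 : a' = a + γ • v := by
    have e6 : a' = x - d1 • v' := by rw [ex']; abel
    rw [e6, ex, e4, smul_smul, hγ, sub_smul]; abel
  have hdρ : (d2 - d1) * ρ = c2 - c1 := by rw [hρ]; field_simp
  have hc12 : c1 ≠ c2 := by
    rintro rfl
    exact hxy (by rw [ex, ey])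
  have hmem : ∀ τ : ℝ, min γ (γ + ρ) ≤ τ → τ ≤ max γ (γ + ρ) → a + τ • v ∈ sg s := by
    intro τ h1 h2
    have hρ0 : ρ ≠ 0 := by
      intro h0
      rw [h0, mul_zero] at hdρ
      exact hc12 (by linarith)
    rw [mem_sg_iff]
    refine ⟨(τ - γ) / ρ, ?_, ?_, ?_⟩
    · rcases lt_or_gt_of_ne hρ0 with h | h
      · rw [min_eq_right (by linarith), max_eq_left (by linarith)] at *
        exact div_nonneg_of_nonpos (by linarith) h.le
      · rw [min_eq_left (by linarith), max_eq_right (by linarith)] at *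
        exact div_nonneg (by linarith) h.le
    · rcases lt_or_gt_of_ne hρ0 with h | h
      · rw [min_eq_right (by linarith), max_eq_left (by linarith)] at *
        rw [div_le_one_of_neg h]; linarith
      · rw [min_eq_left (by linarith), max_eq_right (by linarith)] at *
        rw [div_le_one h]; linarith
    · show a + τ • v = a' + ((τ - γ) / ρ) • v'
      rw [e5, e4, smul_smul, div_mul_cancel₀ _ hρ0, add_assoc, ← add_smul]
      congr 2
      ring
  have hc1m : min γ (γ + ρ) ≤ c1 ∧ c1 ≤ max γ (γ + ρ) := by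
    have : c1 = γ + d1 * ρ := by rw [hγ]; ring
    rcases le_total 0 ρ with h | h
    · rw [min_eq_left (by linarith), max_eq_right (by linarith)]
      constructor <;> nlinarith
    · rw [min_eq_right (by linarith), max_eq_left (by linarith)]
      constructor <;> nlinarith
  have hc2m : min γ (γ + ρ) ≤ c2 ∧ c2 ≤ max γ (γ + ρ) := by
    have : c2 = γ + d2 * ρ := by rw [hγ]; linarith
    rcases le_total 0 ρ with h | h
    · rw [min_eq_left (by linarith), max_eq_right (by linarith)]
      constructor <;> nlinarith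
    · rw [min_eq_right (by linarith), max_eq_left (by linarith)]
      constructor <;> nlinarith
  by_cases hA : 0 ≤ min γ (γ + ρ)
  · by_cases hB : max γ (γ + ρ) ≤ 1
    · left
      intro z hz
      obtain ⟨d, h1, h2, h3⟩ := mem_sg_iff.1 hz
      rw [mem_sg_iff]
      have h4 : min γ (γ + ρ) ≤ γ + d * ρ ∧ γ + d * ρ ≤ max γ (γ + ρ) := by
        rcases le_total 0 ρ with h | h
        · rw [min_eq_left (by linarith), max_eq_right (by linarith)]
          constructor <;> nlinarith
        · rw [min_eq_right (by linarith), max_eq_left (by linarith)]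
          constructor <;> nlinarith
      refine ⟨γ + d * ρ, by linarith, by linarith, ?_⟩
      rw [h3]
      show a' + d • v' = a + (γ + d * ρ) • v
      rw [e5, e4, add_smul, smul_smul, add_assoc]
    · right
      refine ⟨true, ?_⟩
      push Not at hB
      have hlt : 0 < 1 - min c1 c2 := by
        rcases lt_or_gt_of_ne hc12 with h | h
        · rw [min_eq_left h.le]; linarith
        · rw [min_eq_right h.le]; linarith
      have h2 : ∀ᶠ c : ℝ in 𝓝[>] 0, c ∈ Ioo (0 : ℝ) (1 - min c1 c2) := Ioo_mem_nhdsGT hlt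
      show ∀ᶠ c : ℝ in 𝓝[>] 0, _
      filter_upwards [h2] with c hc
      simp only [if_true]
      have e7 : t.2 + c • (t.1 - t.2) = a + (1 - c) • v := by
        show t.2 + c • (t.1 - t.2) = t.1 + (1 - c) • (t.2 - t.1)
        rw [sub_smul, one_smul, smul_sub, smul_sub]; abel
      rw [e7]
      apply hmem
      · have : min γ (γ + ρ) ≤ min c1 c2 := le_min hc1m.1 hc2m.1
        linarith [hc.2]
      · linarith [hc.1]
  · right
    refine ⟨false, ?_⟩
    push Not at hA
    have hlt : 0 < max c1 c2 := by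
      rcases lt_or_gt_of_ne hc12 with h | h
      · rw [max_eq_right h.le]; linarith
      · rw [max_eq_left h.le]; linarith
    have h2 : ∀ᶠ c : ℝ in 𝓝[>] 0, c ∈ Ioo (0 : ℝ) (max c1 c2) := Ioo_mem_nhdsGT hlt
    show ∀ᶠ c : ℝ in 𝓝[>] 0, _
    filter_upwards [h2] with c hc
    simp only [Bool.false_eq_true, if_false]
    show a + c • v ∈ sg s
    apply hmem
    · linarith [hc.1]
    · have : max c1 c2 ≤ max γ (γ + ρ) := max_le hc1m.2 hc2m.2
      linarith [hc.2]

lemma trace_inter_infinite {l m : List Pt} :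
    (trace l ∩ trace m).Infinite ↔ ∃ s ∈ pieces l, ∃ t ∈ pieces m, ov s t := by
  have h1 : trace l ∩ trace m =
      ⋃ p ∈ {p : (Pt × Pt) × (Pt × Pt) | p.1 ∈ pieces l ∧ p.2 ∈ pieces m}, (sg p.1 ∩ sg p.2) := by
    ext x
    rw [mem_iUnion₂]
    constructor
    · rintro ⟨⟨s, hs, h⟩, ⟨t, ht, h'⟩⟩
      exact ⟨(s, t), ⟨hs, ht⟩, h, h'⟩
    · rintro ⟨p, ⟨hs, ht⟩, h, h'⟩
      exact ⟨⟨p.1, hs, h⟩, ⟨p.2, ht, h'⟩⟩
  have hfin : {p : (Pt × Pt) × (Pt × Pt) | p.1 ∈ pieces l ∧ p.2 ∈ pieces m}.Finite := by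
    have h2 : {p : (Pt × Pt) × (Pt × Pt) | p.1 ∈ pieces l ∧ p.2 ∈ pieces m} =
        {s | s ∈ pieces l} ×ˢ {t | t ∈ pieces m} := rfl
    rw [h2]
    exact (List.finite_toSet _).prod (List.finite_toSet _)
  constructor
  · intro h
    by_contra hcon
    push Not at hcon
    apply h
    rw [h1]
    refine hfin.biUnion fun p hp => ?_
    have := hcon p.1 hp.1 p.2 hp.2
    unfold ov at this
    rwa [not_infinite] at this
  · rintro ⟨s, hs, t, ht, h⟩
    refine h.mono ?_
    rintro x ⟨h2, h3⟩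
    exact ⟨⟨s, hs, h2⟩, ⟨t, ht, h3⟩⟩

end Pool.Agent.Helper86.Bend
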