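import Pool.Agent.Helper86.Bend.Pict

/-!
# The picture of the base graph in coordinates
-/

namespace Pool.Agent.Helper86.Bend

/-- the object with a given name -/
def ob (x : T3) : Ob :=
  if x.1 = 0 then .fr (.I x.2.1 x.2.2)
  else if x.1 = 1 then .fr (.B x.2.1 x.2.2)
  else if x.1 = 2 then .fr (.C x.2.1 x.2.2)
  else if x.1 = 3 then .fr (.P x.2.1)
  else if x.1 = 4 then .fr (.R x.2.1)
  else if x.1 = 5 then .fr (.D x.2.1 x.2.2)
  else if x.1 = 6 then .ti (.I x.2.1 x.2.2)
  else if x.1 = 7 then .ti (.C x.2.1 x.2.2)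
  else if x.1 = 8 then .tu (.I x.2.1 x.2.2)
  else if x.1 = 9 then .tu (.C x.2.1 x.2.2)
  else if x.1 = 10 then .sp (.S1 x.2.1 x.2.2)
  else if x.1 = 11 then .sp (.S2 x.2.1 x.2.2)
  else if x.1 = 12 then .sp (.K x.2.1)
  else .sp (.F x.2.1 x.2.2)

/-- the name of an object -/
def nm : Ob → T3
  | .fr (.I o t) => (0, o, t)
  | .fr (.B o t) => (1, o, t)
  | .fr (.C o t) => (2, o, t)
  | .fr (.P o) => (3, o, 0)
  | .fr (.R c) => (4, c, 0)
  | .fr (.D o t) => (5, o, t)
  | .ti (.I o t) => (6, o, t)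
  | .ti (.C o t) => (7, o, t)
  | .tu (.I o t) => (8, o, t)
  | .tu (.C o t) => (9, o, t)
  | .sp (.S1 o t) => (10, o, t)
  | .sp (.S2 o t) => (11, o, t)
  | .sp (.K o) => (12, o, 0)
  | .sp (.F o t) => (13, o, t)
  | _ => (14, 0, 0)

/-- the number of intervals -/
def tO : Ob → ℕ
  | .sp _ => 2
  | _ => 1

lemma nm_ob {n : ℕ} {cf : ℕ → ℕ → Bool} {x : T3} (hx : x ∈ listH n cf) : nm (ob x) = x := by
  rw [mem_listH] at hx
  obtain ⟨k, a, b⟩ := x
  obtain ⟨⟨hk, -, -⟩, hok⟩ := hx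
  simp only at hk
  interval_cases k <;> simp_all [ob, nm, okB, okB.kinds1, okB.kinds2]

lemma tO_ob {n : ℕ} {cf : ℕ → ℕ → Bool} {x : T3} (hx : x ∈ listH n cf) : tO (ob x) = TH x := by
  rw [mem_listH] at hx
  obtain ⟨k, a, b⟩ := x
  obtain ⟨⟨hk, -, -⟩, hok⟩ := hx
  simp only at hk
  interval_cases k <;> simp [ob, tO, TH]

lemma adjO_of_adjE {x y : T3} (hx : x.1 = 12 → x.2.2 = 0) (h : adjE x y = true) :
    AdjO (ob x) (ob y) := by
  obtain ⟨k, a, b⟩ := x
  obtain ⟨k', a', b'⟩ := y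
  simp only [adjE, kinds, List.any_cons, List.any_nil, Bool.or_false, Bool.or_eq_true,
    Bool.and_eq_true, decide_eq_true_eq, Prod.mk.injEq] at h
  simp only at hx
  rcases h with ⟨⟨rfl, rfl⟩, h⟩ | ⟨rfl, rfl, rfl, rfl⟩ | ⟨rfl, rfl, rfl, rfl⟩ | ⟨rfl, rfl, rfl, rfl⟩
  · rcases h with ⟨rfl, rfl⟩ | ⟨rfl, rfl⟩ | ⟨rfl, rfl⟩ | ⟨rfl, rfl⟩ | ⟨rfl, rfl⟩ | ⟨rfl, rfl⟩ |
      ⟨rfl, rfl⟩ | ⟨rfl, rfl⟩ | ⟨rfl, rfl⟩ | ⟨rfl, rfl⟩ | ⟨rfl, rfl⟩ | ⟨rfl, rfl⟩ | ⟨rfl, rfl⟩ |
      ⟨rfl, rfl⟩
    · exact AdjO.sf (.S1 a b) (.I a b) (Or.inl rfl)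
    · exact AdjO.sf (.S1 a b) (.B a b) (Or.inr (Or.inl rfl))
    · exact AdjO.sf (.S1 a b) (.C a b) (Or.inr (Or.inr rfl))
    · exact AdjO.sf (.S2 a b) (.I a b) (Or.inl rfl)
    · exact AdjO.sf (.S2 a b) (.B a b) (Or.inr (Or.inl rfl))
    · exact AdjO.mates a b
    · exact AdjO.tf (.I a b)
    · exact AdjO.tt (.I a b)
    · exact AdjO.tf (.C a b)
    · exact AdjO.tt (.C a b)
    · exact AdjO.sf (.F a b) (.D a b) (Or.inl rfl)
    · exact AdjO.sf (.F a b) (.C a b) (Or.inr (Or.inl rfl))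
    · exact AdjO.sf (.K a) (.P a) (Or.inl rfl)
    · have hb := hx rfl
      subst hb
      exact AdjO.sf (.K a) (.I a 0) (Or.inr (Or.inl rfl))
  · exact AdjO.sf (.S2 _ _) (.I _ (_ + 1)) (Or.inr (Or.inr rfl))
  · exact AdjO.sf (.F _ _) (.C _ _) (Or.inr (Or.inr rfl))
  · exact AdjO.sf (.K _) (.R (_ / 3)) (Or.inr (Or.inr rfl))

lemma adjE_of_adjO {x y : Ob} (hx : nm x ≠ (14, 0, 0)) (h : AdjO x y) :
    adjE (nm x) (nm y) = true := by
  cases h with
  | sf v f hf =>
    cases v <;> rcases hf with rfl | rfl | rfl <;> simp [nm, adjE, kinds]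
  | mates o t => simp [nm, adjE, kinds]
  | tf f => cases f <;> simp_all [nm, adjE, kinds]
  | tt f => cases f <;> simp_all [nm, adjE, kinds]

/-- the height of a line -/
def hgt (l : T3) : ℕ := Nat.pair l.1 (Nat.pair l.2.1 l.2.2)

lemma hgt_inj {l l' : T3} (h : hgt l = hgt l') : l = l' := by
  unfold hgt at h
  rw [Nat.pair_eq_pair, Nat.pair_eq_pair] at h
  exact Prod.ext h.1 (Prod.ext h.2.1 h.2.2)

section

variable (κ : ℕ → ℕ)

/-- the coordinates of the ends -/
def oX : Ob → ℕ → ℤ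
  | .sp v, m =>
    if hgt (FL κ (vf κ v)) < hgt (FL κ (vh κ v)) then
      (if m = 0 then al κ v + 3 else if m = 1 then al κ v else al κ v - 1)
    else (if m = 0 then al κ v - 1 else if m = 1 then al κ v else al κ v + 3)
  | x, m => if m = 0 then (iv1 κ x).2.1 else (iv1 κ x).2.2

/-- the heights -/
def oY : Ob → ℕ → ℕ
  | .sp v, m =>
    if m = 0 then min (hgt (FL κ (vf κ v))) (hgt (FL κ (vh κ v)))
    else max (hgt (FL κ (vf κ v))) (hgt (FL κ (vh κ v)))
  | x, _ => hgt (iv1 κ x).1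

lemma iv_lt (x : Ob) : (iv1 κ x).2.1 < (iv1 κ x).2.2 ∧ (iv2 κ x).2.1 < (iv2 κ x).2.2 := by
  cases x with
  | fr f => have := fa_lt_fb κ f; simp only [iv1, iv2]; omega
  | ti f => simp only [iv1, iv2]; split_ifs <;> simp only <;> omega
  | tu f => simp only [iv1, iv2]; split_ifs <;> simp only <;> omega
  | sp v => simp only [iv1, iv2]; omega

lemma slot (x : Ob) {m : ℕ} (hm : m < tO x) : ∃ i : T3 × ℤ × ℤ, (i = iv1 κ x ∨ i = iv2 κ x) ∧
    oY κ x m = hgt i.1 ∧ min (oX κ x m) (oX κ x (m + 1)) = i.2.1 ∧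
    max (oX κ x m) (oX κ x (m + 1)) = i.2.2 := by
  cases x with
  | fr f =>
    have h0 : m = 0 := by simp only [tO] at hm; omega
    subst h0
    refine ⟨_, Or.inl rfl, rfl, ?_, ?_⟩
    · exact min_eq_left (iv_lt κ (.fr f)).1.le
    · exact max_eq_right (iv_lt κ (.fr f)).1.le
  | ti f =>
    have h0 : m = 0 := by simp only [tO] at hm; omega
    subst h0
    refine ⟨_, Or.inl rfl, rfl, ?_, ?_⟩
    · exact min_eq_left (iv_lt κ (.ti f)).1.le
    · exact max_eq_right (iv_lt κ (.ti f)).1.le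
  | tu f =>
    have h0 : m = 0 := by simp only [tO] at hm; omega
    subst h0
    refine ⟨_, Or.inl rfl, rfl, ?_, ?_⟩
    · exact min_eq_left (iv_lt κ (.tu f)).1.le
    · exact max_eq_right (iv_lt κ (.tu f)).1.le
  | sp v =>
    have h0 : m = 0 ∨ m = 1 := by simp only [tO] at hm; omega
    by_cases hlt : hgt (FL κ (vf κ v)) < hgt (FL κ (vh κ v))
    · rcases h0 with rfl | rfl
      · refine ⟨_, Or.inl rfl, ?_, ?_, ?_⟩
        · simp only [oY, iv1, if_true]; omega
        · simp only [oX, if_pos hlt, iv1]; simp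
        · simp only [oX, if_pos hlt, iv1]; simp
      · refine ⟨_, Or.inr rfl, ?_, ?_, ?_⟩
        · simp only [oY, iv2]; rw [if_neg (by omega)]; omega
        · simp only [oX, if_pos hlt, iv2]; simp
        · simp only [oX, if_pos hlt, iv2]; simp
    · rcases h0 with rfl | rfl
      · refine ⟨_, Or.inr rfl, ?_, ?_, ?_⟩
        · simp only [oY, iv2, if_true]; omega
        · simp only [oX, if_neg hlt, iv2]; simp
        · simp only [oX, if_neg hlt, iv2]; simp
      · refine ⟨_, Or.inl rfl, ?_, ?_, ?_⟩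
        · simp only [oY, iv1]; rw [if_neg (by omega)]; omega
        · simp only [oX, if_neg hlt, iv1]; simp
        · simp only [oX, if_neg hlt, iv1]; simp

lemma slot' (x : Ob) {i : T3 × ℤ × ℤ} (hi : i = iv1 κ x ∨ i = iv2 κ x) :
    ∃ m < tO x, oY κ x m = hgt i.1 ∧ min (oX κ x m) (oX κ x (m + 1)) = i.2.1 ∧
    max (oX κ x m) (oX κ x (m + 1)) = i.2.2 := by
  cases x with
  | fr f =>
    have h : i = iv1 κ (.fr f) := by rcases hi with h | h <;> exact h
    subst h
    refine ⟨0, by simp [tO], rfl, ?_, ?_⟩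
    · exact min_eq_left (iv_lt κ (.fr f)).1.le
    · exact max_eq_right (iv_lt κ (.fr f)).1.le
  | ti f =>
    have h : i = iv1 κ (.ti f) := by rcases hi with h | h <;> exact h
    subst h
    refine ⟨0, by simp [tO], rfl, ?_, ?_⟩
    · exact min_eq_left (iv_lt κ (.ti f)).1.le
    · exact max_eq_right (iv_lt κ (.ti f)).1.le
  | tu f =>
    have h : i = iv1 κ (.tu f) := by rcases hi with h | h <;> exact h
    subst h
    refine ⟨0, by simp [tO], rfl, ?_, ?_⟩
    · exact min_eq_left (iv_lt κ (.tu f)).1.le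
    · exact max_eq_right (iv_lt κ (.tu f)).1.le
  | sp v =>
    by_cases hlt : hgt (FL κ (vf κ v)) < hgt (FL κ (vh κ v))
    · rcases hi with rfl | rfl
      · refine ⟨0, by simp [tO], ?_, ?_, ?_⟩
        · simp only [oY, iv1, if_true]; omega
        · simp only [oX, if_pos hlt, iv1]; simp
        · simp only [oX, if_pos hlt, iv1]; simp
      · refine ⟨1, by simp [tO], ?_, ?_, ?_⟩
        · simp only [oY, iv2]; rw [if_neg (by omega)]; omega
        · simp only [oX, if_pos hlt, iv2]; simp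
        · simp only [oX, if_pos hlt, iv2]; simp
    · rcases hi with rfl | rfl
      · refine ⟨1, by simp [tO], ?_, ?_, ?_⟩
        · simp only [oY, iv1]; rw [if_neg (by omega)]; omega
        · simp only [oX, if_neg hlt, iv1]; simp
        · simp only [oX, if_neg hlt, iv1]; simp
      · refine ⟨0, by simp [tO], ?_, ?_, ?_⟩
        · simp only [oY, iv2, if_true]; omega
        · simp only [oX, if_neg hlt, iv2]; simp
        · simp only [oX, if_neg hlt, iv2]; simp

end

/-- **Completeness of the base graph**: the picture in coordinates. -/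
theorem exists_pic {m : ℕ} {cf : ℕ → ℕ → Bool} (h : Feas m cf) :
    ∃ (px : T3 → ℕ → ℤ) (py : T3 → ℕ → ℕ),
      (∀ w ∈ listH (3 * m) cf, (∀ i < TH w, px w i ≠ px w (i + 1)) ∧
        (TH w = 2 → py w 0 < py w 1)) ∧
      ∀ w ∈ listH (3 * m) cf, ∀ u ∈ listH (3 * m) cf, w ≠ u →
        (adjH w u = true → ∃ i < TH w, ∃ j < TH u, py w i = py u j ∧ ∃ z : ℤ,
          min (px w i) (px w (i + 1)) ≤ z ∧ z + 1 ≤ max (px w i) (px w (i + 1)) ∧
          min (px u j) (px u (j + 1)) ≤ z ∧ z + 1 ≤ max (px u j) (px u (j + 1))) ∧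
        (adjH w u = false → ∀ i < TH w, ∀ j < TH u, py w i = py u j → ∀ z : ℤ,
          min (px w i) (px w (i + 1)) ≤ z → z ≤ max (px w i) (px w (i + 1)) →
          min (px u j) (px u (j + 1)) ≤ z → z ≤ max (px u j) (px u (j + 1)) → False) := by
  obtain ⟨κ, hκ, hcf⟩ := h
  set n := 3 * m with hn
  have hok : ∀ w ∈ listH n cf, (ob w).ok κ := by
    intro w hw
    rw [mem_listH] at hw
    obtain ⟨k, a, b⟩ := w
    obtain ⟨⟨hk, ha, hb⟩, hok⟩ := hw
    simp only at hk ha hb
    interval_cases k <;>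
      simp_all [ob, Ob.ok, Fr.ok, Sp.ok, Fr.hasTail, okB, okB.kinds1, okB.kinds2]
    intro h1 h2
    unfold dd at h1 h2
    have k1 := hκ (a / 3)
    have k2 := hκ (b / 3)
    have e1 : 3 * (a / 3) + κ (a / 3) = a := by omega
    have e2 : 3 * (b / 3) + κ (b / 3) = b := by omega
    have h3 := hcf (a / 3) (by omega) (b / 3) (by omega) (by omega)
    rw [e1, e2, hok.2.2] at h3
    exact absurd h3 (by simp)
  refine ⟨fun w => oX κ (ob w), fun w => oY κ (ob w), ?_, ?_⟩ <;> beta_reduce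
  · intro w hw
    constructor
    · intro i hi
      rw [← tO_ob hw] at hi
      obtain ⟨j, hj, -, h1, h2⟩ := slot κ (ob w) hi
      have h3 := iv_lt κ (ob w)
      intro heq
      rw [heq, min_self] at h1
      rw [heq, max_self] at h2
      rcases hj with rfl | rfl
      · have := h3.1; omega
      · have := h3.2; omega
    · intro hT
      rw [← tO_ob hw] at hT
      have hw' := hok w hw
      generalize ob w = x at hT hw' ⊢
      cases x with
      | sp v =>
        have h1 := (bridge κ hw').1.2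
        have h2 : hgt (FL κ (vf κ v)) ≠ hgt (FL κ (vh κ v)) := fun h => h1 (hgt_inj h).symm
        simp only [oY, if_true]
        rw [if_neg (by omega)]
        omega
      | _ => simp [tO] at hT
  · intro w hw u hu hwu
    have hne : ob w ≠ ob u := by
      intro h
      apply hwu
      rw [← nm_ob hw, ← nm_ob hu, h]
    have h12 : ∀ w ∈ listH n cf, w.1 = 12 → w.2.2 = 0 := by
      intro w hw hk
      rw [mem_listH] at hw
      obtain ⟨k, a, b⟩ := w
      simp only at hk
      subst hk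
      have := hw.2
      simpa [okB, okB.kinds1, okB.kinds2] using this
    have hnm : ∀ w ∈ listH n cf, nm (ob w) ≠ (14, 0, 0) := by
      intro w hw
      rw [nm_ob hw]
      rw [mem_listH] at hw
      intro h
      rw [h] at hw
      have := hw.1.1
      simp at this
    constructor
    · intro hadj
      have hA : AdjO (ob w) (ob u) ∨ AdjO (ob u) (ob w) := by
        unfold adjH at hadj
        rw [Bool.or_eq_true] at hadj
        rcases hadj with h | h
        · exact Or.inl (adjO_of_adjE (h12 w hw) h)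
        · exact Or.inr (adjO_of_adjE (h12 u hu) h)
      rcases hA with hA | hA
      · obtain ⟨i, j, hi, hj, hl, z, h1, h2, h3, h4⟩ := pic_meet κ (hok w hw) (hok u hu) hA
        obtain ⟨a, ha, a1, a2, a3⟩ := slot' κ (ob w) hi
        obtain ⟨b, hb, b1, b2, b3⟩ := slot' κ (ob u) hj
        rw [tO_ob hw] at ha
        rw [tO_ob hu] at hb
        refine ⟨a, ha, b, hb, by rw [a1, b1, hl], z, ?_, ?_, ?_, ?_⟩
        · rw [a2]; exact h1
        · rw [a3]; exact h2
        · rw [b2]; exact h3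
        · rw [b3]; exact h4
      · obtain ⟨j, i, hj, hi, hl, z, h3, h4, h1, h2⟩ := pic_meet κ (hok u hu) (hok w hw) hA
        obtain ⟨a, ha, a1, a2, a3⟩ := slot' κ (ob w) hi
        obtain ⟨b, hb, b1, b2, b3⟩ := slot' κ (ob u) hj
        rw [tO_ob hw] at ha
        rw [tO_ob hu] at hb
        refine ⟨a, ha, b, hb, by rw [a1, b1, hl], z, ?_, ?_, ?_, ?_⟩
        · rw [a2]; exact h1
        · rw [a3]; exact h2
        · rw [b2]; exact h3
        · rw [b3]; exact h4
    · intro hadj a ha b hb hab z h1 h2 h3 h4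
      rw [← tO_ob hw] at ha
      rw [← tO_ob hu] at hb
      obtain ⟨i, hi, a1, a2, a3⟩ := slot κ (ob w) ha
      obtain ⟨j, hj, b1, b2, b3⟩ := slot κ (ob u) hb
      have hl : i.1 = j.1 := hgt_inj (by rw [← a1, ← b1]; exact hab)
      rw [a2] at h1
      rw [a3] at h2
      rw [b2] at h3
      rw [b3] at h4
      have hA := pic_disj κ hκ (hok w hw) (hok u hu) hi hj hl h1 h2 h3 h4
      have hadj' : adjH w u = true := by
        unfold adjH
        rw [Bool.or_eq_true]
        rcases hA with h | h | h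
        · exact absurd h hne
        · have := adjE_of_adjO (hnm w hw) h
          rw [nm_ob hw, nm_ob hu] at this
          exact Or.inl this
        · have := adjE_of_adjO (hnm u hu) h
          rw [nm_ob hw, nm_ob hu] at this
          exact Or.inr this
      rw [hadj] at hadj'
      exact absurd hadj' (by simp)

end Pool.Agent.Helper86.Bend
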