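import Pool.Agent.Helper86.Bend.Real2

/-!
# Drawing the graph with pins: properties of the polylines, existence of the drawing
-/

open Set

namespace Pool.Agent.Helper86.Bend

variable {W : Type} [DecidableEq W]
  {VH : Finset W} {T : W → ℕ} {k N : ℕ} {adj : W → W → Bool} {XX YY : W → ℕ → ℤ} {A SY : ℤ}

omit [DecidableEq W] in
lemma InP.lt {x : ℕ × W × ℕ × ℕ} (h : InP VH T k N x) : x.1 < 3 := by
  rcases h with h | h | h <;> omega

omit [DecidableEq W] in
lemma InP.mem {x : ℕ × W × ℕ × ℕ} (h : InP VH T k N x) : x.2.1 ∈ VH := by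
  rcases h with h | h | h
  · exact h.2.1
  · exact h.2.1
  · exact h.2.1

omit [DecidableEq W] in
lemma length_pieces (l : List Pt) : (pieces l).length = l.length - 1 := by
  unfold pieces
  rw [List.length_zip, List.length_tail]
  omega

omit [DecidableEq W] in
lemma length_PL {x : ℕ × W × ℕ × ℕ} : (PL k N XX YY A SY x).length = k + 2 ∨
    (PL k N XX YY A SY x).length = 2 := by
  unfold PL
  split_ifs
  · left; simp
  · right; simp
  · right; simp

omit [DecidableEq W] in
lemma polyline_PL (h : Draw VH T k adj XX YY A SY) {x : ℕ × W × ℕ × ℕ} (hx : InP VH T k N x) :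
    IsPolyline (PL k N XX YY A SY x) := by
  have hk := h.hk
  constructor
  · rcases length_PL (k := k) (N := N) (XX := XX) (YY := YY) (A := A) (SY := SY) (x := x) with e | e
    · omega
    · omega
  · intro s hs
    rw [mem_pieces_PL k N XX YY A SY hx.lt] at hs
    have hw := hx.mem
    have hA := h.A_pos hw
    have hSY := h.SY_pos hw
    rcases hs with ⟨a, b, y, h1, rfl⟩ | ⟨c, a, b, h1, rfl⟩
    · have hab : a ≠ b := by
        rcases h1 with ⟨-, m, hm, rfl, rfl, -⟩ | ⟨-, rfl, rfl, -⟩
        · intro heq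
          have h2 : XX x.2.1 m = XX x.2.1 (m + 1) := by linarith
          have := h.x1 _ hw _ hw m (by omega) (m + 1) (by omega) h2
          omega
        · intro heq
          have h2 : 0 ≤ (N : ℤ) * (2 * A) := mul_nonneg (by omega) (by omega)
          have h3 : ((N : ℤ) + 1) * (2 * A) = N * (2 * A) + 2 * A := by ring
          omega
      intro heq
      apply hab
      have := (Prod.ext_iff.1 heq).1
      simp only [hs] at this
      exact_mod_cast this
    · have hab : a ≠ b := by
        rcases h1 with ⟨-, m, hm, -, rfl, rfl⟩ | ⟨-, -, rfl, rfl⟩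
        · intro heq
          have := h.y1 _ hw m (by omega)
          omega
        · intro heq
          have h2 : 0 ≤ (N : ℤ) * SY := mul_nonneg (by omega) (by omega)
          omega
      intro heq
      apply hab
      have := (Prod.ext_iff.1 heq).2
      simp only [vs] at this
      exact_mod_cast this

omit [DecidableEq W] in
lemma bends_PL {x : ℕ × W × ℕ × ℕ} : bends (PL k N XX YY A SY x) ≤ k := by
  unfold bends
  rw [length_pieces]
  rcases length_PL (k := k) (N := N) (XX := XX) (YY := YY) (A := A) (SY := SY) (x := x) with e | e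
  · omega
  · omega

omit [DecidableEq W] in
lemma axis_PL {x : ℕ × W × ℕ × ℕ} (hx : x.1 < 3) : ∀ s ∈ pieces (PL k N XX YY A SY x),
    s.1.2 = s.2.2 ∨ s.1.1 = s.2.1 := by
  intro s hs
  rw [mem_pieces_PL k N XX YY A SY hx] at hs
  rcases hs with ⟨a, b, y, -, rfl⟩ | ⟨c, a, b, -, rfl⟩
  · exact Or.inl rfl
  · exact Or.inr rfl

omit [DecidableEq W] in
lemma simple_of_length {l : List Pt} (hl : l.length = 2) : IsSimple l := by
  intro i j hi hj hij
  rw [length_pieces] at hi hj
  omega

lemma mem_sg_hs {a b y : ℤ} {x : Pt} (h : x ∈ sg (hs a b y)) : x.2 = y := by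
  rw [sg_hs] at h
  obtain ⟨z, -, rfl⟩ := h
  rfl

lemma mem_sg_vs {c a b : ℤ} {x : Pt} (h : x ∈ sg (vs c a b)) :
    x.1 = c ∧ min (a : ℝ) b ≤ x.2 ∧ x.2 ≤ max (a : ℝ) b := by
  rw [sg_vs] at h
  obtain ⟨z, hz, rfl⟩ := h
  exact ⟨rfl, hz.1, hz.2⟩

omit [DecidableEq W] in
lemma simple_cp (h : Draw VH T k adj XX YY A SY) {w : W} (hw : w ∈ VH) (i j : ℕ) :
    IsSimple ((List.range (k + 2)).map (cpt XX YY A SY w i j)) := by
  have hk := h.hk
  intro a b ha hb hab x
  have hp := pieces_range (n := k + 1) (cpt XX YY A SY w i j)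
  have hlen : (pieces ((List.range (k + 2)).map (cpt XX YY A SY w i j))).length = k + 1 := by
    rw [hp]; simp
  rw [hlen] at ha hb
  have hga : ∀ (n : ℕ) (hn : n < (pieces ((List.range (k + 2)).map (cpt XX YY A SY w i j))).length),
      (pieces ((List.range (k + 2)).map (cpt XX YY A SY w i j)))[n] =
        (cpt XX YY A SY w i j n, cpt XX YY A SY w i j (n + 1)) := by
    intro n hn
    simp only [hp]
    simp
  rw [hga, hga]
  intro hxa hxb
  have hxa' : x ∈ sg (cpt XX YY A SY w i j a, cpt XX YY A SY w i j (a + 1)) := hxa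
  have hxb' : x ∈ sg (cpt XX YY A SY w i j b, cpt XX YY A SY w i j (b + 1)) := hxb
  -- monotonicity of the ordinates
  have hmono : ∀ m m' : ℕ, m < m' → m' ≤ k + 2 → YY w m < YY w m' := by
    intro m m' hlt
    induction m' with
    | zero => omega
    | succ m' ih =>
      intro hle
      rcases Nat.lt_or_ge m m' with h1 | h1
      · exact (ih h1 (by omega)).trans (h.y1 w hw m' (by omega))
      · have : m = m' := by omega
        subst this
        exact h.y1 w hw m (by omega)
  have hrange : ∀ n ≤ k, x ∈ sg (cpt XX YY A SY w i j n, cpt XX YY A SY w i j (n + 1)) →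
      ((YY w (n / 2) + i * SY : ℤ) : ℝ) ≤ x.2 ∧
        x.2 ≤ ((YY w ((n + 1) / 2) + i * SY : ℤ) : ℝ) ∧
        (n % 2 = 1 → x.1 = ((XX w ((n + 1) / 2) + j * (2 * A) : ℤ) : ℝ)) := by
    intro n hn hx
    rcases Nat.even_or_odd' n with ⟨m, rfl | rfl⟩
    · rw [cpt_even] at hx
      have h1 := mem_sg_hs hx
      have e1 : 2 * m / 2 = m := by omega
      have e2 : (2 * m + 1) / 2 = m := by omega
      rw [e1, e2, h1]
      exact ⟨le_rfl, le_rfl, fun h => by omega⟩
    · rw [cpt_odd] at hx
      obtain ⟨h1, h2, h3⟩ := mem_sg_vs hx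
      have e1 : (2 * m + 1) / 2 = m := by omega
      have e2 : (2 * m + 1 + 1) / 2 = m + 1 := by omega
      rw [e1, e2]
      have h4 := h.y1 w hw m (by omega)
      have h5 : ((YY w m + i * SY : ℤ) : ℝ) ≤ ((YY w (m + 1) + i * SY : ℤ) : ℝ) := by
        exact_mod_cast by omega
      rw [min_eq_left h5] at h2
      rw [max_eq_right h5] at h3
      exact ⟨h2, h3, fun _ => h1⟩
  obtain ⟨r1, r2, r3⟩ := hrange a (by omega) hxa'
  obtain ⟨s1, s2, s3⟩ := hrange b (by omega) hxb'
  have h6 : YY w (b / 2) ≤ YY w ((a + 1) / 2) := by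
    have h7 := s1.trans r2
    have h8 : YY w (b / 2) + i * SY ≤ YY w ((a + 1) / 2) + i * SY := by exact_mod_cast h7
    linarith
  have h9 : b / 2 ≤ (a + 1) / 2 := by
    by_contra hcon
    push Not at hcon
    have := hmono _ _ hcon (by omega)
    omega
  have h10 : b / 2 = (a + 1) / 2 := by omega
  have hy : x.2 = ((YY w ((a + 1) / 2) + i * SY : ℤ) : ℝ) := by
    rw [h10] at s1
    exact le_antisymm r2 s1
  have hb1 : b = a + 1 := by
    by_contra hne
    have h11 : b = a + 2 := by omega
    have h12 : a % 2 = 1 := by omega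
    have h13 := r3 h12
    have h14 := s3 (by omega)
    rw [h13] at h14
    have h15 : XX w ((a + 1) / 2) + j * (2 * A) = XX w ((b + 1) / 2) + j * (2 * A) := by
      exact_mod_cast h14
    have h16 := h.x1 w hw w hw ((a + 1) / 2) (by omega) ((b + 1) / 2) (by omega) (by linarith)
    omega
  refine ⟨hb1, ?_⟩
  subst hb1
  -- the common point
  have hx1 : x.1 = ((XX w ((a + 1 + 1) / 2) + j * (2 * A) : ℤ) : ℝ) := by
    rcases Nat.mod_two_eq_zero_or_one a with h0 | h0
    · exact s3 (by omega)
    · rw [r3 h0]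
      have : (a + 1) / 2 = (a + 1 + 1) / 2 := by omega
      rw [this]
  exact Prod.ext hx1 hy

omit [DecidableEq W] in
lemma simple_PL (h : Draw VH T k adj XX YY A SY) {x : ℕ × W × ℕ × ℕ} (hx : InP VH T k N x) :
    IsSimple (PL k N XX YY A SY x) := by
  by_cases h0 : x.1 = 0
  · have h1 : PL k N XX YY A SY x =
        (List.range (k + 2)).map (cpt XX YY A SY x.2.1 x.2.2.1 x.2.2.2) := by
      unfold PL; rw [if_pos h0]
    rw [h1]
    exact simple_cp h hx.mem _ _
  · apply simple_of_length
    unfold PL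
    rw [if_neg h0]
    split_ifs <;> simp

omit [DecidableEq W] in
lemma ovl_scale {M p p' q q' e1 e2 e3 e4 : ℤ} (hM : 0 < M) (h1 : 0 ≤ e1 ∧ e1 < M)
    (h2 : 0 ≤ e2 ∧ e2 < M) (h3 : 0 ≤ e3 ∧ e3 < M) (h4 : 0 ≤ e4 ∧ e4 < M) {z : ℤ}
    (a1 : min p p' ≤ z) (a2 : z + 1 ≤ max p p') (a3 : min q q' ≤ z) (a4 : z + 1 ≤ max q q') :
    ovl (M * p + e1) (M * p' + e2) (M * q + e3) (M * q' + e4) := by
  have key : ∀ v : ℤ, (v ≤ z → M * v ≤ M * z) ∧ (z + 1 ≤ v → M * z + M ≤ M * v) := by
    intro v
    constructor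
    · intro h; exact mul_le_mul_of_nonneg_left h hM.le
    · intro h
      have := mul_le_mul_of_nonneg_left h hM.le
      linarith
  have k1 := key p
  have k2 := key p'
  have k3 := key q
  have k4 := key q'
  unfold ovl
  generalize M * p = P at *
  generalize M * p' = P' at *
  generalize M * q = Q at *
  generalize M * q' = Q' at *
  generalize M * z = Z at *
  omega

omit [DecidableEq W] in
lemma ovl_scale' {M p p' q q' e1 e2 e3 e4 : ℤ} (hM : 0 < M) (h1 : 0 ≤ e1 ∧ e1 < M)
    (h2 : 0 ≤ e2 ∧ e2 < M) (h3 : 0 ≤ e3 ∧ e3 < M) (h4 : 0 ≤ e4 ∧ e4 < M)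
    (h : ovl (M * p + e1) (M * p' + e2) (M * q + e3) (M * q' + e4)) :
    ∃ z : ℤ, min p p' ≤ z ∧ z ≤ max p p' ∧ min q q' ≤ z ∧ z ≤ max q q' := by
  by_contra hcon
  push Not at hcon
  have h5 := hcon (max (min p p') (min q q'))
  set z := min (max p p') (max q q') with hz
  have key : ∀ v : ℤ, (v ≤ z → M * v ≤ M * z) ∧ (z + 1 ≤ v → M * z + M ≤ M * v) := by
    intro v
    constructor
    · intro h; exact mul_le_mul_of_nonneg_left h hM.le
    · intro h
      have := mul_le_mul_of_nonneg_left h hM.le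
      linarith
  have k1 := key p
  have k2 := key p'
  have k3 := key q
  have k4 := key q'
  unfold ovl at h
  generalize M * p = P at *
  generalize M * p' = P' at *
  generalize M * q = Q at *
  generalize M * q' = Q' at *
  generalize M * z = Z at *
  omega

/-- A picture gives a drawing. -/
theorem exists_draw (hk : 2 ≤ k) (hT : ∀ w ∈ VH, 1 ≤ T w ∧ T w ≤ 2)
    (symm : ∀ w u, adj w u = adj u w) (irr : ∀ w, adj w w = false)
    {px : W → ℕ → ℤ} {py : W → ℕ → ℕ}
    (hp : ∀ w ∈ VH, T w = 2 → py w 0 < py w 1)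
    (hpic : ∀ w ∈ VH, ∀ u ∈ VH, w ≠ u →
        (adj w u = true → ∃ i < T w, ∃ j < T u, py w i = py u j ∧ ∃ z : ℤ,
          min (px w i) (px w (i + 1)) ≤ z ∧ z + 1 ≤ max (px w i) (px w (i + 1)) ∧
          min (px u j) (px u (j + 1)) ≤ z ∧ z + 1 ≤ max (px u j) (px u (j + 1))) ∧
        (adj w u = false → ∀ i < T w, ∀ j < T u, py w i = py u j → ∀ z : ℤ,
          min (px w i) (px w (i + 1)) ≤ z → z ≤ max (px w i) (px w (i + 1)) →
          min (px u j) (px u (j + 1)) ≤ z → z ≤ max (px u j) (px u (j + 1)) → False)) :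
    ∃ (XX YY : W → ℕ → ℤ) (A SY : ℤ), Draw VH T k adj XX YY A SY := by
  classical
  let idx : W → ℕ := fun w => VH.toList.idxOf w
  have hidx : ∀ w ∈ VH, idx w < VH.card := by
    intro w hw
    rw [← Finset.length_toList]
    exact List.idxOf_lt_length_iff.2 (Finset.mem_toList.2 hw)
  have hinj : ∀ w ∈ VH, ∀ u ∈ VH, idx w = idx u → w = u := by
    intro w hw u hu h
    exact (List.idxOf_inj (Finset.mem_toList.2 hw)).1 h
  set c : ℕ := VH.card with hc
  set M : ℤ := ((c * (k + 3) + 1 : ℕ) : ℤ) with hM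
  have hM0 : 0 < M := by rw [hM]; exact_mod_cast Nat.succ_pos _
  let ep : W → ℕ → ℤ := fun w m => ((idx w * (k + 3) + m : ℕ) : ℤ)
  have hep : ∀ w ∈ VH, ∀ m ≤ k + 2, 0 ≤ ep w m ∧ ep w m < M := by
    intro w hw m hm
    have h1 := hidx w hw
    have h2 : idx w * (k + 3) + (k + 3) ≤ c * (k + 3) := by
      calc idx w * (k + 3) + (k + 3) = (idx w + 1) * (k + 3) := by ring
        _ ≤ c * (k + 3) := Nat.mul_le_mul_right _ h1
    constructor
    · exact Int.natCast_nonneg _
    · show ((idx w * (k + 3) + m : ℕ) : ℤ) < ((c * (k + 3) + 1 : ℕ) : ℤ)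
      exact_mod_cast by omega
  let pp : W → ℕ → ℤ := fun w m => if m ≤ T w then px w m else 0
  let XX : W → ℕ → ℤ := fun w m => M * pp w m + ep w m
  obtain ⟨B, hB⟩ : ∃ B : ℤ, ∀ w ∈ VH, ∀ m ≤ k + 2, |pp w m| ≤ B := by
    refine ⟨∑ w ∈ VH, ∑ m ∈ Finset.range (k + 3), |pp w m|, fun w hw m hm => ?_⟩
    have h1 : |pp w m| ≤ ∑ m ∈ Finset.range (k + 3), |pp w m| :=
      Finset.single_le_sum (f := fun m => |pp w m|) (fun _ _ => abs_nonneg _)
        (Finset.mem_range.2 (by omega))
    exact h1.trans (Finset.single_le_sum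
      (f := fun w => ∑ m ∈ Finset.range (k + 3), |pp w m|)
      (fun _ _ => Finset.sum_nonneg fun _ _ => abs_nonneg _) hw)
  obtain ⟨Ym, hYm⟩ : ∃ Ym : ℕ, ∀ w ∈ VH, ∀ m ≤ 2, py w m < Ym := by
    refine ⟨∑ w ∈ VH, ∑ m ∈ Finset.range 3, py w m + 1, fun w hw m hm => ?_⟩
    have h1 : py w m ≤ ∑ m ∈ Finset.range 3, py w m :=
      Finset.single_le_sum (f := fun m => py w m) (fun _ _ => Nat.zero_le _)
        (Finset.mem_range.2 (by omega))
    have h2 : ∑ m ∈ Finset.range 3, py w m ≤ ∑ w ∈ VH, ∑ m ∈ Finset.range 3, py w m :=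
      Finset.single_le_sum (f := fun w => ∑ m ∈ Finset.range 3, py w m)
        (fun _ _ => Nat.zero_le _) hw
    omega
  let YY : W → ℕ → ℤ := fun w m =>
    if m < T w then ((py w m : ℕ) : ℤ) else ((Ym + m * c + idx w : ℕ) : ℤ)
  refine ⟨XX, YY, M * (B + 1) + 1, ((Ym + (k + 3) * c : ℕ) : ℤ), ?_⟩
  have hYlo : ∀ w m, m < T w → YY w m = ((py w m : ℕ) : ℤ) := fun w m h => if_pos h
  have hYhi : ∀ w m, ¬ m < T w → YY w m = ((Ym + m * c + idx w : ℕ) : ℤ) := fun w m h => if_neg h
  constructor
  · exact hk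
  · exact hT
  · exact symm
  · exact irr
  · -- x1
    intro w hw u hu m hm m' hm' heq
    have e1 := hep w hw m hm
    have e2 := hep u hu m' hm'
    have h1 : ep w m = ep u m' := by
      have h2 : (M * pp w m + ep w m) % M = (M * pp u m' + ep u m') % M := by
        show XX w m % M = XX u m' % M
        rw [heq]
      rw [Int.mul_add_emod_self_left, Int.mul_add_emod_self_left,
        Int.emod_eq_of_lt e1.1 e1.2, Int.emod_eq_of_lt e2.1 e2.2] at h2
      exact h2
    have h3 : idx w * (k + 3) + m = idx u * (k + 3) + m' := by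
      have h1' : ((idx w * (k + 3) + m : ℕ) : ℤ) = ((idx u * (k + 3) + m' : ℕ) : ℤ) := h1
      exact_mod_cast h1'
    have h4 : (m + idx w * (k + 3)) / (k + 3) = (m' + idx u * (k + 3)) / (k + 3) := by
      rw [add_comm m, add_comm m', h3]
    rw [Nat.add_mul_div_right _ _ (by omega), Nat.add_mul_div_right _ _ (by omega),
      Nat.div_eq_of_lt (by omega), Nat.div_eq_of_lt (by omega), zero_add, zero_add] at h4
    have h5 := hinj w hw u hu h4
    rw [h4] at h3
    exact ⟨h5, by omega⟩
  · -- x2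
    intro w hw m hm
    have e1 := hep w hw m hm
    have e2 := abs_le.1 (hB w hw m hm)
    have e3 : M * pp w m ≤ M * B := mul_le_mul_of_nonneg_left e2.2 hM0.le
    have e4 : M * (-B) ≤ M * pp w m := mul_le_mul_of_nonneg_left e2.1 hM0.le
    have e5 : M * (B + 1) = M * B + M := by ring
    have e6 : M * (-B) = -(M * B) := by ring
    show -(M * (B + 1) + 1) < M * pp w m + ep w m ∧ M * pp w m + ep w m < M * (B + 1) + 1
    constructor
    · linarith
    · linarith
  · -- y0
    intro w hw m hm
    by_cases hmT : m < T w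
    · rw [hYlo w m hmT]
      have h1 := hYm w hw m (by have := hT w hw; omega)
      constructor
      · exact_mod_cast Nat.zero_le _
      · exact_mod_cast by
          have : 0 ≤ (k + 3) * c := Nat.zero_le _
          omega
    · rw [hYhi w m hmT]
      have h1 := hidx w hw
      have h2 : m * c + c ≤ (k + 3) * c := by
        calc m * c + c = (m + 1) * c := by ring
          _ ≤ (k + 3) * c := Nat.mul_le_mul_right _ (by omega)
      constructor
      · exact_mod_cast Nat.zero_le _
      · exact_mod_cast by omega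
  · -- y1
    intro w hw m hm
    have hTw := hT w hw
    by_cases hmT : m + 1 < T w
    · have hm0 : m = 0 := by omega
      subst hm0
      rw [hYlo w 0 (by omega), hYlo w (0 + 1) hmT]
      exact_mod_cast hp w hw (by omega)
    · rw [hYhi w (m + 1) hmT]
      by_cases hmT' : m < T w
      · rw [hYlo w m hmT']
        have h1 := hYm w hw m (by omega)
        exact_mod_cast by
          have : 0 ≤ (m + 1) * c := Nat.zero_le _
          omega
      · rw [hYhi w m hmT']
        have h1 := hidx w hw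
        have h2 : (m + 1) * c = m * c + c := by ring
        exact_mod_cast by
          rw [h2]
          omega
  · -- y2
    intro w hw u hu m hm m' hm' hTm heq
    rw [hYhi w m (by omega)] at heq
    by_cases hmT : m' < T u
    · rw [hYlo u m' hmT] at heq
      have h1 := hYm u hu m' (by have := hT u hu; omega)
      have h2 : Ym + m * c + idx w = py u m' := by exact_mod_cast heq
      have : 0 ≤ m * c := Nat.zero_le _
      omega
    · rw [hYhi u m' hmT] at heq
      have h2 : Ym + m * c + idx w = Ym + m' * c + idx u := by exact_mod_cast heq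
      have h3 : (idx w + m * c) / c = (idx u + m' * c) / c := by
        congr 1
        omega
      have hc0 : 0 < c := by have := hidx w hw; omega
      rw [Nat.add_mul_div_right _ _ hc0, Nat.add_mul_div_right _ _ hc0,
        Nat.div_eq_of_lt (hidx w hw), Nat.div_eq_of_lt (hidx u hu), zero_add, zero_add] at h3
      subst h3
      exact ⟨hinj w hw u hu (by omega), rfl⟩
  · -- xy
    intro w hw u hu hwu
    have hTw := hT w hw
    have hTu := hT u hu
    have hXX : ∀ w ∈ VH, ∀ m ≤ T w, XX w m = M * px w m + ep w m := by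
      intro w hw m hm
      show M * pp w m + ep w m = _
      have : pp w m = px w m := if_pos hm
      rw [this]
    constructor
    · intro hadj
      obtain ⟨i, hi, j, hj, hy, z, z1, z2, z3, z4⟩ := (hpic w hw u hu hwu).1 hadj
      refine ⟨i, hi, j, hj, ?_, ?_⟩
      · rw [hYlo w i hi, hYlo u j hj, hy]
      · rw [hXX w hw i (by omega), hXX w hw (i + 1) (by omega), hXX u hu j (by omega),
          hXX u hu (j + 1) (by omega)]
        exact ovl_scale hM0 (hep w hw i (by omega)) (hep w hw (i + 1) (by omega))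
          (hep u hu j (by omega)) (hep u hu (j + 1) (by omega)) z1 z2 z3 z4
    · rintro ⟨i, hi, j, hj, hy, hov⟩
      by_contra hadj
      rw [Bool.not_eq_true] at hadj
      rw [hYlo w i hi, hYlo u j hj] at hy
      rw [hXX w hw i (by omega), hXX w hw (i + 1) (by omega), hXX u hu j (by omega),
          hXX u hu (j + 1) (by omega)] at hov
      obtain ⟨z, z1, z2, z3, z4⟩ := ovl_scale' hM0 (hep w hw i (by omega))
        (hep w hw (i + 1) (by omega)) (hep u hu j (by omega)) (hep u hu (j + 1) (by omega)) hov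
      exact (hpic w hw u hu hwu).2 hadj i hi j hj (by exact_mod_cast hy) z z1 z2 z3 z4

end Pool.Agent.Helper86.Bend
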