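import Pool.Agent.Helper86.Bend.Trip
import Pool.Agent.Helper86.Bend.Pict2
import Pool.Agent.Helper86.Bend.Real3

/-!
# The reduction
-/

open Pool.Agent.Helper91.PolyTime Pool.Agent.Helper87.NP

namespace Pool.Agent.Helper86.Bend

/-- names of the vertices of the graph with pins -/
abbrev T4 : Type := ℕ × T3 × ℕ × ℕ

/-- the existing vertices -/
def inPB (k : ℕ) (x : T4) : Bool :=
  decide (x.1 = 0) || ((decide (x.1 = 1) && decide (x.2.2.2 < (k + 1) / 2)) ||
    (decide (x.1 = 2) && (decide (TH x.2.1 ≤ x.2.2.2) && decide (x.2.2.2 < (k + 2) / 2))))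

/-- the list of vertices of the graph with pins -/
def listP (k N : ℕ) (VH : List T3) : List T4 :=
  ((List.range 3).flatMap fun t => VH.flatMap fun w => (List.range N).flatMap fun a =>
    (List.range N).map fun b => (t, w, a, b)).filter (inPB k)

lemma mem_listP {k N : ℕ} {VH : List T3} {x : T4} : x ∈ listP k N VH ↔
    (x.1 < 3 ∧ x.2.1 ∈ VH ∧ x.2.2.1 < N ∧ x.2.2.2 < N) ∧ inPB k x = true := by
  obtain ⟨t, w, a, b⟩ := x
  simp only [listP, List.mem_filter, List.mem_flatMap, List.mem_range, List.mem_map,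
    Prod.mk.injEq]
  constructor
  · rintro ⟨⟨t', ht, w', hw, a', ha, b', hb, rfl, rfl, rfl, rfl⟩, h⟩
    exact ⟨⟨ht, hw, ha, hb⟩, h⟩
  · rintro ⟨⟨ht, hw, ha, hb⟩, h⟩
    exact ⟨⟨t, ht, w, hw, a, ha, b, hb, rfl, rfl, rfl, rfl⟩, h⟩

lemma mem_listP_iff {k N : ℕ} {VH : List T3} (hN : k + 2 ≤ N) {x : T4} :
    x ∈ listP k N VH ↔ InP VH.toFinset TH k N x := by
  rw [mem_listP]
  obtain ⟨t, w, a, b⟩ := x
  simp only [InP, inPB, Bool.or_eq_true, Bool.and_eq_true, decide_eq_true_eq, List.mem_toFinset]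
  constructor
  · rintro ⟨⟨h1, h2, h3, h4⟩, h5 | ⟨h5, h6⟩ | ⟨h5, h6, h7⟩⟩
    · exact Or.inl ⟨h5, h2, h3, h4⟩
    · exact Or.inr (Or.inl ⟨h5, h2, h3, h6⟩)
    · exact Or.inr (Or.inr ⟨h5, h2, h3, h6, h7⟩)
  · rintro (⟨h5, h2, h3, h4⟩ | ⟨h5, h2, h3, h6⟩ | ⟨h5, h2, h3, h6, h7⟩)
    · exact ⟨⟨by omega, h2, h3, h4⟩, Or.inl h5⟩
    · exact ⟨⟨by omega, h2, h3, by omega⟩, Or.inr (Or.inl ⟨h5, h6⟩)⟩
    · exact ⟨⟨by omega, h2, h3, by omega⟩, Or.inr (Or.inr ⟨h5, h6, h7⟩)⟩

lemma nodup_prod {α β : Type*} {l : List α} {f : α → List β} (hl : l.Nodup)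
    (hf : ∀ a ∈ l, (f a).Nodup) (hd : ∀ a a' : α, ∀ b, b ∈ f a → b ∈ f a' → a = a') :
    (l.flatMap f).Nodup := by
  rw [List.nodup_flatMap]
  refine ⟨hf, ?_⟩
  refine List.Pairwise.imp ?_ hl
  intro a a' hne
  show List.Disjoint _ _
  intro x hx hx'
  exact hne (hd a a' x hx hx')

lemma nodup_listP {k N : ℕ} {VH : List T3} (hV : VH.Nodup) : (listP k N VH).Nodup := by
  unfold listP
  refine List.Nodup.filter _ ?_
  refine nodup_prod List.nodup_range (fun t _ => ?_) ?_
  · refine nodup_prod hV (fun w _ => ?_) ?_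
    · refine nodup_prod List.nodup_range (fun a _ => ?_) ?_
      · refine List.Nodup.map ?_ List.nodup_range
        intro b b' h
        simpa using h
      · intro a a' x hx hx'
        simp only [List.mem_map] at hx hx'
        obtain ⟨b, -, rfl⟩ := hx
        obtain ⟨b', -, h⟩ := hx'
        simp only [Prod.mk.injEq] at h
        exact h.2.2.1.symm
    · intro a a' x hx hx'
      simp only [List.mem_map, List.mem_flatMap] at hx hx'
      obtain ⟨c, -, b, -, rfl⟩ := hx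
      obtain ⟨c', -, b', -, h⟩ := hx'
      simp only [Prod.mk.injEq] at h
      exact h.2.1.symm
  · intro a a' x hx hx'
    simp only [List.mem_map, List.mem_flatMap] at hx hx'
    obtain ⟨d, -, c, -, b, -, rfl⟩ := hx
    obtain ⟨d', -, c', -, b', -, h⟩ := hx'
    simp only [Prod.mk.injEq] at h
    exact h.1.symm

lemma adjE_self (w : T3) : adjE w w = false := by
  obtain ⟨k, a, b⟩ := w
  rw [Bool.eq_false_iff]
  intro h
  simp only [adjE, kinds, List.any_cons, List.any_nil, Bool.or_false, Bool.or_eq_true,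
    Bool.and_eq_true, decide_eq_true_eq, Prod.mk.injEq] at h
  omega

lemma adjH_self (w : T3) : adjH w w = false := by
  unfold adjH
  rw [adjE_self]
  rfl

lemma adjP_self (x : T4) : adjP adjH x x = false := by
  obtain ⟨t, w, a, b⟩ := x
  rw [Bool.eq_false_iff]
  intro h
  simp only [adjP, adjP0, Bool.or_eq_true, Bool.and_eq_true, decide_eq_true_eq, adjH_self,
    Bool.false_eq_true, false_and, and_false, false_or] at h
  rcases h with (⟨h1, h2, -⟩ | ⟨h1, h2, -⟩) | (⟨h1, h2, -⟩ | ⟨h1, h2, -⟩) <;> omega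

/-- the graph on a list of names -/
def GP (l : List T4) : SimpleGraph (Fin l.length) where
  Adj i j := adjP adjH l[i] l[j] = true
  symm := ⟨fun i j h => by rw [adjP_comm]; exact h⟩
  loopless := ⟨fun i h => by rw [adjP_self] at h; exact absurd h (by simp)⟩

/-- `P` represents the graph `G` -/
def Rep {V : Type} (G : SimpleGraph V) (P : V → List Pt) : Prop :=
  (∀ v, IsPolyline (P v)) ∧ ∀ u v, u ≠ v → (G.Adj u v ↔ (trace (P u) ∩ trace (P v)).Infinite)

/-- the parameter of the reduction -/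
def bigN (k : ℕ) (VH : List T3) : ℕ := 2 * (k + 1) ^ 2 * VH.length + (k + 2)

/-- the vertices of the graph of an instance -/
def inst (k m : ℕ) (cf : ℕ → ℕ → Bool) : List T4 :=
  listP k (bigN k (listH (3 * m) cf)) (listH (3 * m) cf)

lemma card_listH (n : ℕ) (cf : ℕ → ℕ → Bool) :
    (listH n cf).toFinset.card = (listH n cf).length :=
  List.toFinset_card_of_nodup (nodup_listH n cf)

/-- of two consecutive segments, one is horizontal and one is vertical -/
def Alt (l : List Pt) : Prop :=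
  ∀ (i : ℕ) (hi : i + 1 < (pieces l).length),
    ((pieces l)[i].1.2 = (pieces l)[i].2.2 ∧ (pieces l)[i + 1].1.1 = (pieces l)[i + 1].2.1) ∨
    ((pieces l)[i].1.1 = (pieces l)[i].2.1 ∧ (pieces l)[i + 1].1.2 = (pieces l)[i + 1].2.2)

lemma alt_cp {k : ℕ} (XX YY : T3 → ℕ → ℤ) (A SY : ℤ) (w : T3) (i j : ℕ) :
    Alt ((List.range (k + 2)).map (cpt XX YY A SY w i j)) := by
  intro n hn
  have hp := pieces_range (n := k + 1) (cpt XX YY A SY w i j)
  have hga : ∀ (n : ℕ) (hn : n < (pieces ((List.range (k + 2)).map (cpt XX YY A SY w i j))).length),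
      (pieces ((List.range (k + 2)).map (cpt XX YY A SY w i j)))[n] =
        (cpt XX YY A SY w i j n, cpt XX YY A SY w i j (n + 1)) := by
    intro n hn
    simp only [hp]
    simp
  rw [hga n (by omega), hga (n + 1) hn]
  rcases Nat.even_or_odd' n with ⟨m, rfl | rfl⟩
  · left
    rw [cpt_even, cpt_odd]
    exact ⟨rfl, rfl⟩
  · right
    have h1 : 2 * m + 1 + 1 = 2 * (m + 1) := by ring
    rw [cpt_odd, h1, cpt_even]
    exact ⟨rfl, rfl⟩

lemma alt_PL {k N : ℕ} {XX YY : T3 → ℕ → ℤ} {A SY : ℤ} (x : T4) : Alt (PL k N XX YY A SY x) := by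
  unfold PL
  split_ifs
  · exact alt_cp XX YY A SY _ _ _
  · intro i hi
    rw [length_pieces] at hi
    simp at hi
  · intro i hi
    rw [length_pieces] at hi
    simp at hi

/-- solvable instances give graphs with nice representations -/
theorem yes {k m : ℕ} {cf : ℕ → ℕ → Bool} (hk : 2 ≤ k) (h : Feas m cf) :
    ∃ P : Fin (inst k m cf).length → List Pt, Rep (GP (inst k m cf)) P ∧
      ∀ v, bends (P v) ≤ k ∧ IsSimple (P v) ∧ Alt (P v) ∧
        ∀ s ∈ pieces (P v), s.1.2 = s.2.2 ∨ s.1.1 = s.2.1 := by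
  obtain ⟨px, py, hp, hpic⟩ := exists_pic h
  set VH := listH (3 * m) cf with hVH
  obtain ⟨XX, YY, A, SY, hD⟩ := exists_draw (VH := VH.toFinset) (T := TH) (k := k) (adj := adjH)
    (px := px) (py := py) hk (by intro w _; unfold TH; split_ifs <;> simp)
    adjH_comm adjH_self (fun w hw => (hp w (List.mem_toFinset.1 hw)).2)
    (fun w hw u hu hwu => hpic w (List.mem_toFinset.1 hw) u (List.mem_toFinset.1 hu) hwu)
  set N := bigN k VH with hN
  set l := listP k N VH with hl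
  have hmem : ∀ x ∈ l, InP VH.toFinset TH k N x := fun x hx =>
    (mem_listP_iff (by rw [hN]; unfold bigN; omega)).1 hx
  have hlr : inst k m cf = l := rfl
  rw [hlr]
  refine ⟨fun v => PL k N XX YY A SY l[v], ⟨fun v => ?_, fun u v huv => ?_⟩, fun v => ?_⟩
  · exact polyline_PL hD (hmem _ (List.getElem_mem _))
  · have hne : l[u] ≠ l[v] := by
      intro heq
      apply huv
      have hnd : l.Nodup := nodup_listP (nodup_listH _ _)
      exact Fin.ext ((List.Nodup.getElem_inj_iff hnd).1 heq)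
    have h1 := hmem l[u] (List.getElem_mem _)
    have h2 := hmem l[v] (List.getElem_mem _)
    rw [trace_inter_infinite, meet_iff k N XX YY A SY h1.lt h2.lt, ← meet_iff_adjP hD h1 h2 hne]
    rfl
  · have h1 := hmem l[v] (List.getElem_mem _)
    exact ⟨bends_PL, simple_PL hD h1, alt_PL _, axis_PL h1.lt⟩

/-- graphs with representations come from solvable instances -/
theorem no {k m : ℕ} {cf : ℕ → ℕ → Bool} (hk : 2 ≤ k)
    (h : ∃ P : Fin (inst k m cf).length → List Pt, Rep (GP (inst k m cf)) P ∧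
      ∀ v, bends (P v) ≤ k) : Feas m cf := by
  classical
  have key : ∀ (VH : List T3) (hnd : VH.Nodup) (l : List T4), l = listP k (bigN k VH) VH →
      (∃ P : Fin l.length → List Pt, Rep (GP l) P ∧ ∀ v, bends (P v) ≤ k) →
      ∃ vis : T3 → Finset (Pt × Pt),
        (∀ w ∈ VH.toFinset, (vis w).card ≤ TH w ∧ ∀ s ∈ vis w, s.1 ≠ s.2) ∧
        ∀ w ∈ VH.toFinset, ∀ u ∈ VH.toFinset, w ≠ u →
          (adjH w u = true ↔ ∃ s ∈ vis w, ∃ t ∈ vis u, ov s t) := ?_
  · obtain ⟨vis, hvis1, hvis2⟩ := key (listH (3 * m) cf) (nodup_listH _ _) (inst k m cf) rfl h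
    exact feas_of_vis (vis := vis)
      ⟨fun w hw => (hvis1 w hw).1, fun w hw => (hvis1 w hw).2, hvis2⟩
  intro VH hnd l hlr h
  obtain ⟨P, ⟨hpoly, hadj⟩, hb⟩ := h
  set N := bigN k VH with hN
  have hmem : ∀ x, InP VH.toFinset TH k N x → x ∈ l := fun x hx => by
    rw [hlr]
    exact (mem_listP_iff (by rw [hN]; unfold bigN; omega)).2 hx
  let ix : ∀ x, InP VH.toFinset TH k N x → Fin l.length := fun x hx =>
    ⟨l.idxOf x, List.idxOf_lt_length_iff.2 (hmem x hx)⟩
  have hix : ∀ x hx, l[ix x hx] = x := fun x hx => by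
    simp only [ix, Fin.getElem_fin]
    exact List.getElem_idxOf _
  let R : T4 → Finset (Pt × Pt) := fun x =>
    if hx : InP VH.toFinset TH k N x then (pieces (P (ix x hx))).toFinset else ∅
  have hR : ∀ x hx, R x = (pieces (P (ix x hx))).toFinset := fun x hx => dif_pos hx
  have hcard : VH.toFinset.card = VH.length := List.toFinset_card_of_nodup hnd
  refine exists_vis (VH := VH.toFinset) (T := TH) (k := k) (N := N)
    (adj := adjH) (R := R) (by rw [hcard, hN]; unfold bigN; omega)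
    (by intro w _; unfold TH; split_ifs <;> omega)
    (by
      intro x hx
      rw [hR x hx]
      refine (List.toFinset_card_le _).trans ?_
      have h1 := hb (ix x hx)
      have h2 := (hpoly (ix x hx)).1
      unfold bends at h1
      rw [length_pieces] at h1 ⊢
      omega)
    (by
      intro x hx s hs
      rw [hR x hx, List.mem_toFinset] at hs
      exact (hpoly (ix x hx)).2 s hs)
    (by
      intro x y hx hy hxy
      have hne : ix x hx ≠ ix y hy := by
        intro h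
        apply hxy
        rw [← hix x hx, ← hix y hy, h]
      have h1 := hadj (ix x hx) (ix y hy) hne
      rw [trace_inter_infinite] at h1
      have h2 : (GP l).Adj (ix x hx) (ix y hy) ↔ adjP adjH x y = true := by
        show adjP adjH l[ix x hx] l[ix y hy] = true ↔ _
        rw [hix x hx, hix y hy]
      rw [← h2, h1, hR x hx, hR y hy]
      simp only [List.mem_toFinset])
    adjH_comm

section ptf

variable {α : Type*} [PEnc α]

lemma ptf_adjE {x y : α → T3} (hx : PTF x) (hy : PTF y) : PTF (fun a => adjE (x a) (y a)) := by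
  unfold adjE
  have hc : ∀ n : ℕ, PTF (fun _ : α => n) := fun n => PTF.const n
  refine PTF.or (PTF.and (PTF.eq hx.snd hy.snd) (PTF.any (PTF.const _) ?_))
    (PTF.or (PTF.and (PTF.eq hx.fst (hc 11)) (PTF.and (PTF.eq hy.fst (hc 0))
      (PTF.eq hy.snd (PTF.pair hx.snd.fst (PTF.succ hx.snd.snd)))))
    (PTF.or (PTF.and (PTF.eq hx.fst (hc 13)) (PTF.and (PTF.eq hy.fst (hc 2))
      (PTF.eq hy.snd (PTF.pair hx.snd.snd hx.snd.fst))))
    (PTF.and (PTF.eq hx.fst (hc 12)) (PTF.and (PTF.eq hy.fst (hc 4))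
      (PTF.eq hy.snd (PTF.pair (ptf_div hx.snd.fst 3 (by norm_num)) (hc 0)))))))
  exact PTF.eq PTF.id.snd (PTF.pair (hx.comp PTF.id.fst).fst (hy.comp PTF.id.fst).fst)

lemma ptf_adjH {x y : α → T3} (hx : PTF x) (hy : PTF y) : PTF (fun a => adjH (x a) (y a)) :=
  PTF.or (ptf_adjE hx hy) (ptf_adjE hy hx)

lemma ptf_adjP0 {x y : α → T4} (hx : PTF x) (hy : PTF y) :
    PTF (fun a => adjP0 adjH (x a) (y a)) := by
  unfold adjP0
  have hc : ∀ n : ℕ, PTF (fun _ : α => n) := fun n => PTF.const n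
  exact PTF.or (PTF.and (PTF.eq hx.fst (hc 0)) (PTF.and (PTF.eq hy.fst (hc 0))
      (PTF.and (ptf_adjH hx.snd.fst hy.snd.fst) (PTF.eq hx.snd.snd hy.snd.snd))))
    (PTF.or (PTF.and (PTF.eq hx.fst (hc 0)) (PTF.and (PTF.eq hy.fst (hc 1))
      (PTF.and (PTF.eq hx.snd.fst hy.snd.fst) (PTF.eq hx.snd.snd.snd hy.snd.snd.fst))))
    (PTF.and (PTF.eq hx.fst (hc 0)) (PTF.and (PTF.eq hy.fst (hc 2))
      (PTF.and (PTF.eq hx.snd.fst hy.snd.fst) (PTF.eq hx.snd.snd.fst hy.snd.snd.fst)))))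

lemma ptf_adjP {x y : α → T4} (hx : PTF x) (hy : PTF y) :
    PTF (fun a => adjP adjH (x a) (y a)) :=
  PTF.or (ptf_adjP0 hx hy) (ptf_adjP0 hy hx)

lemma ptf_TH {x : α → T3} (hx : PTF x) : PTF (fun a => TH (x a)) := by
  unfold TH
  exact PTF.ite (PTF.le (PTF.const 10) hx.fst) (PTF.const 2) (PTF.const 1)

lemma ptf_okB {n : α → ℕ} {cf : α → ℕ → ℕ → Bool} {x : α → T3} (hn : PTF n)
    (hcf : PTF (fun q : α × ℕ × ℕ => cf q.1 q.2.1 q.2.2)) (hx : PTF x) :
    PTF (fun a => okB (n a) (cf a) (x a)) := by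
  unfold okB
  have hc : ∀ n : ℕ, PTF (fun _ : α => n) := fun n => PTF.const n
  have h1 : PTF (fun a => cf a (x a).2.1 (x a).2.2) :=
    hcf.comp (PTF.pair PTF.id (PTF.pair hx.snd.fst hx.snd.snd))
  refine PTF.and (PTF.or (PTF.not (PTF.any (PTF.const _) ?_)) (PTF.eq hx.snd.snd (hc 0)))
    (PTF.or (PTF.not (PTF.any (PTF.const _) ?_)) (PTF.and (PTF.lt hx.snd.fst hx.snd.snd)
      (PTF.and (PTF.lt hx.snd.snd hn) h1)))
  · exact PTF.eq PTF.id.snd (hx.comp PTF.id.fst).fst
  · exact PTF.eq PTF.id.snd (hx.comp PTF.id.fst).fst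

lemma ptf_listH {n : α → ℕ} {cf : α → ℕ → ℕ → Bool} (hn : PTF n)
    (hcf : PTF (fun q : α × ℕ × ℕ => cf q.1 q.2.1 q.2.2)) :
    PTF (fun a => listH (n a) (cf a)) := by
  unfold listH
  refine PTF.filter ?_ ?_
  · refine PTF.flatMap (PTF.range (PTF.const 14)) (PTF.flatMap (PTF.range (hn.comp PTF.id.fst))
      (PTF.map (PTF.range (PTF.succ (hn.comp PTF.id.fst.fst))) ?_))
    exact PTF.pair PTF.id.fst.fst.snd (PTF.pair PTF.id.fst.snd PTF.id.snd)
  · have h1 : PTF (fun q : (α × T3) × ℕ × ℕ => cf q.1.1 q.2.1 q.2.2) :=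
      hcf.comp (PTF.pair PTF.id.fst.fst PTF.id.snd)
    exact ptf_okB (n := fun p : α × T3 => n p.1) (cf := fun p : α × T3 => cf p.1)
      (hn.comp PTF.id.fst) h1 PTF.id.snd

lemma ptf_inst (k : ℕ) {m : α → ℕ} {cf : α → ℕ → ℕ → Bool} (hm : PTF m)
    (hcf : PTF (fun q : α × ℕ × ℕ => cf q.1 q.2.1 q.2.2)) :
    PTF (fun a => inst k (m a) (cf a)) := by
  have hH : PTF (fun a => listH (3 * m a) (cf a)) :=
    ptf_listH (PTF.mul (PTF.const 3) hm) hcf
  have hN : PTF (fun a => bigN k (listH (3 * m a) (cf a))) := by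
    unfold bigN
    exact PTF.add (PTF.mul (PTF.const _) (PTF.length hH)) (PTF.const _)
  unfold inst listP
  refine PTF.filter ?_ ?_
  · refine PTF.flatMap (PTF.range (PTF.const 3)) (PTF.flatMap (hH.comp PTF.id.fst)
      (PTF.flatMap (PTF.range (hN.comp PTF.id.fst.fst))
        (PTF.map (PTF.range (hN.comp PTF.id.fst.fst.fst)) ?_)))
    exact PTF.pair PTF.id.fst.fst.fst.snd (PTF.pair PTF.id.fst.fst.snd
      (PTF.pair PTF.id.fst.snd PTF.id.snd))
  · unfold inPB
    have hc : ∀ n : ℕ, PTF (fun _ : α × T4 => n) := fun n => PTF.const n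
    have hx : PTF (fun p : α × T4 => p.2) := PTF.id.snd
    exact PTF.or (PTF.eq hx.fst (hc 0)) (PTF.or (PTF.and (PTF.eq hx.fst (hc 1))
      (PTF.lt hx.snd.snd.snd (hc _))) (PTF.and (PTF.eq hx.fst (hc 2))
        (PTF.and (PTF.le (ptf_TH hx.snd.fst) hx.snd.snd.snd) (PTF.lt hx.snd.snd.snd (hc _)))))

/-- the code of the graph on a list of names -/
def bits (l : List T4) : List Bool :=
  (List.replicate l.length true ++ [false]) ++ l.flatMap fun x => l.map fun y => adjP adjH x y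

lemma ptf_bits {l : α → List T4} (hl : PTF l) : PTF (fun a => bits (l a)) := by
  unfold bits
  refine PTF.append (PTF.append (ptf_replicate (PTF.length hl) (PTF.const true))
    (PTF.const [false])) (PTF.flatMap hl (PTF.map (hl.comp PTF.id.fst) ?_))
  exact ptf_adjP PTF.id.fst.snd PTF.id.snd

end ptf

/-- **The reduction.** -/
theorem main {L : Set (List Bool)} (hL : InNP L) {k : ℕ} (hk : 2 ≤ k) :
    ∃ l : List Bool → List T4, PTF (fun x => bits (l x)) ∧
      (∀ x ∈ L, ∃ P : Fin (l x).length → List Pt, Rep (GP (l x)) P ∧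
        ∀ v, bends (P v) ≤ k ∧ IsSimple (P v) ∧ Alt (P v) ∧
          ∀ s ∈ pieces (P v), s.1.2 = s.2.2 ∨ s.1.1 = s.2.1) ∧
      ∀ x, (∃ P : Fin (l x).length → List Pt, Rep (GP (l x)) P ∧ ∀ v, bends (P v) ≤ k) →
        x ∈ L := by
  obtain ⟨ν, _, _, f, hf, hfL⟩ := exists_cnf hL
  refine ⟨fun x => inst k (trip (f x)).length (cfl (trip (f x))), ?_, ?_, ?_⟩
  · have ht : PTF (fun x => trip (f x)) := ptf_trip hf
    exact ptf_bits (ptf_inst k (PTF.length ht)
      (ptf_cfl (ht.comp PTF.id.fst) PTF.id.snd.fst PTF.id.snd.snd))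
  · intro x hx
    apply yes hk
    rw [feas_iff, ← sat_iff_trip]
    exact (hfL x).1 hx
  · intro x hx
    rw [hfL x, sat_iff_trip, ← feas_iff]
    exact no hk hx

end Pool.Agent.Helper86.Bend
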