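import Pool.Agent.Helper86.Bend.Base

/-!
# The picture of the base graph of a solvable instance

All coordinates are integers. Intervals on the same line which should not meet are disjoint as closed
intervals, intervals which should meet have two common consecutive integer points.
-/

set_option linter.unusedTactic false
set_option linter.unreachableTactic false

namespace Pool.Agent.Helper86.Bend

/-- frames -/
inductive Fr
  | I (o t : ℕ)
  | B (o t : ℕ)
  | C (o t : ℕ)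
  | P (o : ℕ)
  | R (c : ℕ)
  | D (o t : ℕ)

/-- vertices with two intervals -/
inductive Sp
  | S1 (o t : ℕ)
  | S2 (o t : ℕ)
  | K (o : ℕ)
  | F (o t : ℕ)

/-- objects of the picture -/
inductive Ob
  | fr (f : Fr)
  | ti (f : Fr)
  | tu (f : Fr)
  | sp (v : Sp)

/-- the frames which are neighbours of a vertex with two intervals -/
def Nb : Sp → Fr → Prop
  | .S1 o t, f => f = .I o t ∨ f = .B o t ∨ f = .C o t
  | .S2 o t, f => f = .I o t ∨ f = .B o t ∨ f = .I o (t + 1)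
  | .K o, f => f = .P o ∨ f = .I o 0 ∨ f = .R (o / 3)
  | .F o t, f => f = .D o t ∨ f = .C o t ∨ f = .C t o

/-- adjacency of objects, one direction -/
inductive AdjO : Ob → Ob → Prop
  | sf (v : Sp) (f : Fr) : Nb v f → AdjO (.sp v) (.fr f)
  | mates (o t : ℕ) : AdjO (.sp (.S1 o t)) (.sp (.S2 o t))
  | tf (f : Fr) : AdjO (.ti f) (.fr f)
  | tt (f : Fr) : AdjO (.tu f) (.ti f)

/-- the frames with tails -/
def Fr.hasTail : Fr → Prop
  | .I _ _ => True
  | .C _ _ => True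
  | _ => False

section

variable (κ : ℕ → ℕ)

/-- `0` for the chosen places -/
def dd (o : ℕ) : ℕ := (o + 3 - κ (o / 3)) % 3

/-- the line of a frame -/
def FL : Fr → T3
  | .I o t => if dd κ o = 0 then (if t = 0 then (2, o, 0) else (0, o, t - 1)) else (0, o, t)
  | .B o t => (0, o, t)
  | .C o t => if dd κ o = 0 then (0, o, t) else (1, o, t)
  | .P o => if dd κ o = 0 then (2, o, 0) else (3, o / 3, 0)
  | .R c => (3, c, 0)
  | .D o t => if dd κ o = 0 then (1, t, o) else (1, o, t)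

/-- left end -/
def fa : Fr → ℤ
  | .I o t => if dd κ o = 0 then 20 * t + 2 else 20 * t - 15
  | .B o t => if dd κ o = 0 then 20 * t + 20 else 20 * t + 22
  | .C o t => if dd κ o = 0 then -26 else if o < t ∨ dd κ t = 0 then -18 else -26
  | .P o => if dd κ o = 0 then -5 else if dd κ o = 1 then -15 else 12
  | .R _ => -8
  | .D _ _ => -25

/-- right end -/
def fb : Fr → ℤ
  | .I o t => if dd κ o = 0 then 20 * t + 25 else 20 * t + 21
  | .B o t => if dd κ o = 0 then 20 * t + 21 else 20 * t + 26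
  | .C o t => if dd κ o = 0 then 20 * t + 19 else 20 * t + 25
  | .P o => if dd κ o = 0 then 1 else if dd κ o = 1 then -9 else 17
  | .R _ => 11
  | .D _ _ => -19

/-- length of the extension to the left by tails -/
def el : Fr → ℤ
  | .I o _ => if dd κ o = 0 then 0 else 4
  | .C o _ => if dd κ o = 0 then 4 else 0
  | _ => 0

/-- length of the extension to the right by tails -/
def er : Fr → ℤ
  | .I o _ => if dd κ o = 0 then 4 else 0
  | .C o _ => if dd κ o = 0 then 0 else 4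
  | _ => 0

/-- the joint -/
def al : Sp → ℤ
  | .S1 o t => if dd κ o = 0 then 20 * t + 18 else 20 * t + 20
  | .S2 _ t => 20 * t + 20
  | .K o => if dd κ o = 0 then 0 else if dd κ o = 1 then -10 else 10
  | .F _ _ => -20

/-- the left frame of the bridge -/
def vf : Sp → Fr
  | .S1 o t => if dd κ o = 0 then .C o t else .I o t
  | .S2 o t => if dd κ o = 0 then .B o t else .I o t
  | .K o => if dd κ o = 0 then .P o else if dd κ o = 1 then .P o else .R (o / 3)
  | .F o t => .D o t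

/-- the right frame of the bridge -/
def vg : Sp → Fr
  | .S1 o t => .B o t
  | .S2 o t => if dd κ o = 0 then .I o (t + 1) else .B o t
  | .K o => if dd κ o = 0 then .I o 0 else if dd κ o = 1 then .R (o / 3) else .P o
  | .F o t => if dd κ o = 0 then .C t o else .C o t

/-- the frame which contains the second interval -/
def vh : Sp → Fr
  | .S1 o t => if dd κ o = 0 then .I o t else .C o t
  | .S2 o t => if dd κ o = 0 then .I o t else .I o (t + 1)
  | .K o => if dd κ o = 0 then .R (o / 3) else .I o 0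
  | .F o t => if dd κ o = 0 then .C o t else .C t o

/-- valid frames -/
def Fr.ok : Fr → Prop
  | .D o t => o < t
  | _ => True

/-- valid vertices with two intervals -/
def Sp.ok : Sp → Prop
  | .F o t => o < t ∧ ¬ (dd κ o = 0 ∧ dd κ t = 0)
  | _ => True

lemma nb_iff {v : Sp} {f : Fr} : Nb v f ↔ f = vf κ v ∨ f = vg κ v ∨ f = vh κ v := by
  cases v with
  | S1 o t => simp only [Nb, vf, vg, vh]; split_ifs <;> tauto
  | S2 o t => simp only [Nb, vf, vg, vh]; split_ifs <;> tauto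
  | K o => simp only [Nb, vf, vg, vh]; split_ifs <;> tauto
  | F o t => simp only [Nb, vf, vg, vh]; split_ifs <;> tauto

lemma dd_lt (o : ℕ) : dd κ o < 3 := Nat.mod_lt _ (by norm_num)

lemma dd_inj (hκ : ∀ c, κ c < 3) {o o' : ℕ} (h : o / 3 = o' / 3) (h' : dd κ o = dd κ o') :
    o = o' := by
  unfold dd at h'
  rw [h] at h'
  have := hκ (o' / 3)
  omega

/-- frames on the same line are disjoint -/
lemma frames_disj (hκ : ∀ c, κ c < 3) {f g : Fr} (hf : f.ok) (hg : g.ok)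
    (hl : FL κ f = FL κ g) {z : ℤ} (h1 : fa κ f - el κ f ≤ z) (h2 : z ≤ fb κ f + er κ f)
    (h3 : fa κ g - el κ g ≤ z) (h4 : z ≤ fb κ g + er κ g) : f = g := by
  rcases f with ⟨o, t⟩ | ⟨o, t⟩ | ⟨o, t⟩ | o | c | ⟨o, t⟩ <;>
  rcases g with ⟨o', t'⟩ | ⟨o', t'⟩ | ⟨o', t'⟩ | o' | c' | ⟨o', t'⟩ <;>
  simp only [FL, fa, fb, el, er, Fr.ok] at hf hg hl h1 h2 h3 h4 <;>
  (try split_ifs at hl h1 h2 h3 h4) <;>
  simp only [Prod.mk.injEq] at hl <;>
  first
    | (exfalso; omega)
    | (obtain ⟨-, rfl, hl⟩ := hl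
       first
         | (exfalso; omega)
         | (subst hl; rfl)
         | rfl
         | (congr 1; omega)
         | (subst hl; exfalso; tauto))
    | exact congrArg Fr.P (dd_inj κ hκ hl.2.1 (by
        have h8 := dd_lt κ o
        have h9 := dd_lt κ o'
        omega))

/-- the bridge -/
lemma bridge {v : Sp} (hv : v.ok κ) :
    (FL κ (vg κ v) = FL κ (vf κ v) ∧ FL κ (vh κ v) ≠ FL κ (vf κ v)) ∧
    (fa κ (vf κ v) + el κ (vf κ v) / 2 ≤ al κ v ∧ fb κ (vf κ v) = al κ v + 1 ∧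
      er κ (vf κ v) = 0) ∧
    (fa κ (vg κ v) = al κ v + 2 ∧ al κ v + 3 ≤ fb κ (vg κ v) - er κ (vg κ v) / 2 ∧
      el κ (vg κ v) = 0) ∧
    (fa κ (vh κ v) + 2 ≤ al κ v - 1 ∧ al κ v ≤ fb κ (vh κ v) - 2) := by
  rcases v with ⟨o, t⟩ | ⟨o, t⟩ | o | ⟨o, t⟩
  · by_cases h : dd κ o = 0
    · by_cases h' : t = 0
      · simp only [vf, vg, vh, al, FL, fa, fb, el, er, if_pos h, if_pos h']
        refine ⟨⟨?_, ?_⟩, ⟨?_, ?_, ?_⟩, ⟨?_, ?_, ?_⟩, ?_, ?_⟩ <;>
        first
          | trivial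
          | omega
          | (push_cast; omega)
          | (simp; done)
          | (simp only [ne_eq, Prod.mk.injEq, true_and]; omega)
          | (split_ifs <;> omega)
      · simp only [vf, vg, vh, al, FL, fa, fb, el, er, if_pos h, if_neg h']
        refine ⟨⟨?_, ?_⟩, ⟨?_, ?_, ?_⟩, ⟨?_, ?_, ?_⟩, ?_, ?_⟩ <;>
        first
          | trivial
          | omega
          | (push_cast; omega)
          | (simp; done)
          | (simp only [ne_eq, Prod.mk.injEq, true_and]; omega)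
          | (split_ifs <;> omega)
    · simp only [vf, vg, vh, al, FL, fa, fb, el, er, if_neg h]
      refine ⟨⟨?_, ?_⟩, ⟨?_, ?_, ?_⟩, ⟨?_, ?_, ?_⟩, ?_, ?_⟩ <;>
        first
          | trivial
          | omega
          | (push_cast; omega)
          | (simp; done)
          | (simp only [ne_eq, Prod.mk.injEq, true_and]; omega)
          | (split_ifs <;> omega)
  · by_cases h : dd κ o = 0
    · have h'' : ¬ (t + 1 = 0) := by omega
      by_cases h' : t = 0
      · simp only [vf, vg, vh, al, FL, fa, fb, el, er, if_pos h, if_pos h', if_neg h'']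
        refine ⟨⟨?_, ?_⟩, ⟨?_, ?_, ?_⟩, ⟨?_, ?_, ?_⟩, ?_, ?_⟩ <;>
        first
          | trivial
          | omega
          | (push_cast; omega)
          | (simp; done)
          | (simp only [ne_eq, Prod.mk.injEq, true_and]; omega)
          | (split_ifs <;> omega)
      · simp only [vf, vg, vh, al, FL, fa, fb, el, er, if_pos h, if_neg h', if_neg h'']
        refine ⟨⟨?_, ?_⟩, ⟨?_, ?_, ?_⟩, ⟨?_, ?_, ?_⟩, ?_, ?_⟩ <;>
        first
          | trivial
          | omega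
          | (push_cast; omega)
          | (simp; done)
          | (simp only [ne_eq, Prod.mk.injEq, true_and]; omega)
          | (split_ifs <;> omega)
    · simp only [vf, vg, vh, al, FL, fa, fb, el, er, if_neg h]
      refine ⟨⟨?_, ?_⟩, ⟨?_, ?_, ?_⟩, ⟨?_, ?_, ?_⟩, ?_, ?_⟩ <;>
        first
          | trivial
          | omega
          | (push_cast; omega)
          | (simp; done)
          | (simp only [ne_eq, Prod.mk.injEq, true_and]; omega)
          | (split_ifs <;> omega)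
  · by_cases h : dd κ o = 0
    · simp only [vf, vg, vh, al, FL, fa, fb, el, er, if_pos h, if_true]
      refine ⟨⟨?_, ?_⟩, ⟨?_, ?_, ?_⟩, ⟨?_, ?_, ?_⟩, ?_, ?_⟩ <;>
        first
          | trivial
          | omega
          | (push_cast; omega)
          | (simp; done)
          | (simp only [ne_eq, Prod.mk.injEq, true_and]; omega)
          | (split_ifs <;> omega)
    · by_cases h' : dd κ o = 1
      · simp only [vf, vg, vh, al, FL, fa, fb, el, er, if_neg h, if_pos h']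
        refine ⟨⟨?_, ?_⟩, ⟨?_, ?_, ?_⟩, ⟨?_, ?_, ?_⟩, ?_, ?_⟩ <;>
        first
          | trivial
          | omega
          | (push_cast; omega)
          | (simp; done)
          | (simp only [ne_eq, Prod.mk.injEq, true_and]; omega)
          | (split_ifs <;> omega)
      · simp only [vf, vg, vh, al, FL, fa, fb, el, er, if_neg h, if_neg h']
        refine ⟨⟨?_, ?_⟩, ⟨?_, ?_, ?_⟩, ⟨?_, ?_, ?_⟩, ?_, ?_⟩ <;>
        first
          | trivial
          | omega
          | (push_cast; omega)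
          | (simp; done)
          | (simp only [ne_eq, Prod.mk.injEq, true_and]; omega)
          | (split_ifs <;> omega)
  · obtain ⟨hlt, hno⟩ := hv
    by_cases h : dd κ o = 0
    · have h' : ¬ dd κ t = 0 := fun h' => hno ⟨h, h'⟩
      have h'' : t < o ∨ dd κ o = 0 := Or.inr h
      simp only [vf, vg, vh, al, FL, fa, fb, el, er, if_pos h, if_neg h', if_pos h'']
      refine ⟨⟨?_, ?_⟩, ⟨?_, ?_, ?_⟩, ⟨?_, ?_, ?_⟩, ?_, ?_⟩ <;>
        first
          | trivial
          | omega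
          | (push_cast; omega)
          | (simp; done)
          | (simp only [ne_eq, Prod.mk.injEq, true_and]; omega)
          | (split_ifs <;> omega)
    · have h'' : o < t ∨ dd κ t = 0 := Or.inl hlt
      by_cases h' : dd κ t = 0
      · simp only [vf, vg, vh, al, FL, fa, fb, el, er, if_neg h, if_pos h', if_pos h'']
        refine ⟨⟨?_, ?_⟩, ⟨?_, ?_, ?_⟩, ⟨?_, ?_, ?_⟩, ?_, ?_⟩ <;>
        first
          | trivial
          | omega
          | (push_cast; omega)
          | (simp; done)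
          | (simp only [ne_eq, Prod.mk.injEq, true_and]; omega)
          | (split_ifs <;> omega)
      · have h3 : ¬ (t < o ∨ dd κ o = 0) := by omega
        simp only [vf, vg, vh, al, FL, fa, fb, el, er, if_neg h, if_neg h', if_pos h'', if_neg h3]
        refine ⟨⟨?_, ?_⟩, ⟨?_, ?_, ?_⟩, ⟨?_, ?_, ?_⟩, ?_, ?_⟩ <;>
        first
          | trivial
          | omega
          | (push_cast; omega)
          | (simp; done)
          | (simp only [ne_eq, Prod.mk.injEq, true_and]; omega)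
          | (split_ifs <;> omega)

/-- different vertices with a common frame -/
lemma share (hκ : ∀ c, κ c < 3) {v v' : Sp} (hv : v.ok κ) (hv' : v'.ok κ) {f : Fr}
    (h1 : Nb v f) (h2 : Nb v' f) {z : ℤ} (h3 : al κ v - 1 ≤ z) (h4 : z ≤ al κ v + 3)
    (h5 : al κ v' - 1 ≤ z) (h6 : z ≤ al κ v' + 3) :
    v = v' ∨ AdjO (.sp v) (.sp v') ∨ AdjO (.sp v') (.sp v) := by
  rcases v with ⟨o, t⟩ | ⟨o, t⟩ | o | ⟨o, t⟩ <;>
  rcases v' with ⟨o', t'⟩ | ⟨o', t'⟩ | o' | ⟨o', t'⟩ <;>
  simp only [al] at h3 h4 h5 h6 <;>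
  (try split_ifs at h3 h4 h5 h6) <;>
  rcases h1 with h1 | h1 | h1 <;> rcases h2 with h2 | h2 | h2 <;>
  rw [h1] at h2 <;>
  simp only [Fr.I.injEq, Fr.B.injEq, Fr.C.injEq, Fr.P.injEq, Fr.R.injEq, Fr.D.injEq, reduceCtorEq] at h2 <;>
  first
    | (exfalso; omega)
    | (obtain ⟨h2a, h2b⟩ := h2
       first
         | (exfalso; omega)
         | (exfalso
            have h7 : _ < _ := hv.1
            have h8 : _ < _ := hv'.1
            omega)
         | (subst h2a
            first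
              | (have h9 := Nat.succ_injective h2b
                 subst h9
                 exact Or.inl rfl)
              | (subst h2b
                 first
                   | exact Or.inl rfl
                   | exact Or.inr (Or.inl (AdjO.mates _ _))
                   | exact Or.inr (Or.inr (AdjO.mates _ _)))))
    | (subst h2; exact Or.inl rfl)
    | exact Or.inl (congrArg Sp.K h2.1)
    | exact Or.inl (congrArg Sp.K (dd_inj κ hκ h2 (by
        have h8 := dd_lt κ o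
        have h9 := dd_lt κ o'
        omega)))

/-- the first interval of an object: line, left end, right end -/
def iv1 : Ob → T3 × ℤ × ℤ
  | .fr f => (FL κ f, fa κ f, fb κ f)
  | .ti f => if el κ f = 0 then (FL κ f, fb κ f - 1, fb κ f + 2)
      else (FL κ f, fa κ f - 2, fa κ f + 1)
  | .tu f => if el κ f = 0 then (FL κ f, fb κ f + 1, fb κ f + 4)
      else (FL κ f, fa κ f - 4, fa κ f - 1)
  | .sp v => (FL κ (vf κ v), al κ v, al κ v + 3)

/-- the second interval of an object -/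
def iv2 : Ob → T3 × ℤ × ℤ
  | .fr f => iv1 κ (.fr f)
  | .ti f => iv1 κ (.ti f)
  | .tu f => iv1 κ (.tu f)
  | .sp v => (FL κ (vh κ v), al κ v - 1, al κ v)

/-- valid objects -/
def Ob.ok : Ob → Prop
  | .fr f => f.ok
  | .ti f => f.hasTail
  | .tu f => f.hasTail
  | .sp v => v.ok κ

/-- the point `z` of the object belongs to the region of the frame `f` -/
def Own : Ob → Fr → ℤ → Prop
  | .fr g, f, z => g = f ∧ fa κ f ≤ z ∧ z ≤ fb κ f
  | .ti g, f, z => g = f ∧ ((el κ f = 0 ∧ er κ f = 4 ∧ fb κ f - 1 ≤ z ∧ z ≤ fb κ f + 2) ∨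
      (el κ f = 4 ∧ er κ f = 0 ∧ fa κ f - 2 ≤ z ∧ z ≤ fa κ f + 1))
  | .tu g, f, z => g = f ∧ ((el κ f = 0 ∧ er κ f = 4 ∧ fb κ f + 1 ≤ z ∧ z ≤ fb κ f + 4) ∨
      (el κ f = 4 ∧ er κ f = 0 ∧ fa κ f - 4 ≤ z ∧ z ≤ fa κ f - 1))
  | .sp v, f, z => Nb v f ∧ fa κ f + el κ f / 2 ≤ z ∧ z ≤ fb κ f - er κ f / 2 ∧
      al κ v - 1 ≤ z ∧ z ≤ al κ v + 3

lemma el_er (f : Fr) : 0 ≤ el κ f ∧ el κ f ≤ 4 ∧ 0 ≤ er κ f ∧ er κ f ≤ 4 ∧
    (f.hasTail → (el κ f = 0 ∧ er κ f = 4) ∨ (el κ f = 4 ∧ er κ f = 0)) := by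
  cases f <;> simp only [el, er, Fr.hasTail] <;> (try split_ifs) <;> simp

lemma fa_lt_fb (f : Fr) : fa κ f + 1 ≤ fb κ f := by
  cases f <;> simp only [fa, fb] <;> (try split_ifs) <;> omega

lemma hasTail_ok {f : Fr} (h : f.hasTail) : f.ok := by
  cases f <;> simp_all [Fr.hasTail, Fr.ok]

lemma nb_ok {v : Sp} (hv : v.ok κ) {f : Fr} (h : Nb v f) : f.ok := by
  cases v <;> rcases h with h | h | h <;> subst h <;> simp_all [Sp.ok, Fr.ok]

lemma own_ok {x : Ob} (hx : x.ok κ) {f : Fr} {z : ℤ} (h : Own κ x f z) : f.ok := by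
  cases x with
  | fr g => obtain ⟨rfl, -⟩ := h; exact hx
  | ti g => obtain ⟨rfl, -⟩ := h; exact hasTail_ok hx
  | tu g => obtain ⟨rfl, -⟩ := h; exact hasTail_ok hx
  | sp v => exact nb_ok κ hx h.1

lemma own_ext {x : Ob} {f : Fr} {z : ℤ} (h : Own κ x f z) :
    fa κ f - el κ f ≤ z ∧ z ≤ fb κ f + er κ f := by
  obtain ⟨h1, h2, h3, h4, -⟩ := el_er κ f
  have h5 := fa_lt_fb κ f
  cases x with
  | fr g => obtain ⟨rfl, h6, h7⟩ := h; constructor <;> omega
  | ti g => obtain ⟨rfl, h6⟩ := h; constructor <;> omega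
  | tu g => obtain ⟨rfl, h6⟩ := h; constructor <;> omega
  | sp v => obtain ⟨-, h6, h7, -⟩ := h; constructor <;> omega

lemma exists_own {x : Ob} (hx : x.ok κ) {i : T3 × ℤ × ℤ} (hi : i = iv1 κ x ∨ i = iv2 κ x)
    {z : ℤ} (h1 : i.2.1 ≤ z) (h2 : z ≤ i.2.2) : ∃ f, FL κ f = i.1 ∧ Own κ x f z := by
  cases x with
  | fr f =>
    have : i = (FL κ f, fa κ f, fb κ f) := by rcases hi with h | h <;> exact h
    subst this
    exact ⟨f, rfl, rfl, h1, h2⟩
  | ti f =>
    have h : i = iv1 κ (.ti f) := by rcases hi with h | h <;> exact h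
    simp only [iv1] at h
    obtain ⟨-, -, -, -, h5⟩ := el_er κ f
    rcases h5 hx with ⟨h6, h7⟩ | ⟨h6, h7⟩
    · rw [if_pos h6] at h
      subst h
      exact ⟨f, rfl, rfl, Or.inl ⟨h6, h7, h1, h2⟩⟩
    · rw [if_neg (by omega)] at h
      subst h
      exact ⟨f, rfl, rfl, Or.inr ⟨h6, h7, h1, h2⟩⟩
  | tu f =>
    have h : i = iv1 κ (.tu f) := by rcases hi with h | h <;> exact h
    simp only [iv1] at h
    obtain ⟨-, -, -, -, h5⟩ := el_er κ f
    rcases h5 hx with ⟨h6, h7⟩ | ⟨h6, h7⟩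
    · rw [if_pos h6] at h
      subst h
      exact ⟨f, rfl, rfl, Or.inl ⟨h6, h7, h1, h2⟩⟩
    · rw [if_neg (by omega)] at h
      subst h
      exact ⟨f, rfl, rfl, Or.inr ⟨h6, h7, h1, h2⟩⟩
  | sp v =>
    obtain ⟨⟨b1, -⟩, ⟨b2, b3, b4⟩, ⟨b5, b6, b7⟩, b8, b9⟩ := bridge κ hx
    rcases hi with h | h
    · subst h
      simp only [iv1] at h1 h2 ⊢
      by_cases hz : z ≤ al κ v + 1
      · refine ⟨vf κ v, rfl, (nb_iff κ).2 (Or.inl rfl), ?_, ?_, ?_, ?_⟩ <;> omega
      · refine ⟨vg κ v, b1, (nb_iff κ).2 (Or.inr (Or.inl rfl)), ?_, ?_, ?_, ?_⟩ <;> omega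
    · subst h
      simp only [iv2] at h1 h2 ⊢
      obtain ⟨e1, e2, e3, e4, -⟩ := el_er κ (vh κ v)
      refine ⟨vh κ v, rfl, (nb_iff κ).2 (Or.inr (Or.inr rfl)), ?_, ?_, ?_, ?_⟩ <;> omega

/-- objects which are not adjacent do not meet -/
theorem pic_disj (hκ : ∀ c, κ c < 3) {x y : Ob} (hx : x.ok κ) (hy : y.ok κ)
    {i j : T3 × ℤ × ℤ} (hi : i = iv1 κ x ∨ i = iv2 κ x) (hj : j = iv1 κ y ∨ j = iv2 κ y)
    (hl : i.1 = j.1) {z : ℤ} (h1 : i.2.1 ≤ z) (h2 : z ≤ i.2.2) (h3 : j.2.1 ≤ z)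
    (h4 : z ≤ j.2.2) : x = y ∨ AdjO x y ∨ AdjO y x := by
  obtain ⟨f, hf, hof⟩ := exists_own κ hx hi h1 h2
  obtain ⟨g, hg, hog⟩ := exists_own κ hy hj h3 h4
  have hfg : f = g := by
    obtain ⟨e1, e2⟩ := own_ext κ hof
    obtain ⟨e3, e4⟩ := own_ext κ hog
    exact frames_disj κ hκ (own_ok κ hx hof) (own_ok κ hy hog) (by rw [hf, hg, hl]) e1 e2 e3 e4
  subst hfg
  obtain ⟨l1, l2, l3, l4, -⟩ := el_er κ f
  have l5 := fa_lt_fb κ f
  cases x with
  | fr a =>
    obtain ⟨rfl, a1, a2⟩ := hof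
    cases y with
    | fr b => obtain ⟨rfl, b1⟩ := hog; exact Or.inl rfl
    | ti b => obtain ⟨rfl, b1⟩ := hog; exact Or.inr (Or.inr (AdjO.tf _))
    | tu b => obtain ⟨rfl, b1⟩ := hog; exfalso; omega
    | sp w => exact Or.inr (Or.inr (AdjO.sf _ _ hog.1))
  | ti a =>
    obtain ⟨rfl, a1⟩ := hof
    cases y with
    | fr b => obtain ⟨rfl, b1⟩ := hog; exact Or.inr (Or.inl (AdjO.tf _))
    | ti b => obtain ⟨rfl, b1⟩ := hog; exact Or.inl rfl
    | tu b => obtain ⟨rfl, b1⟩ := hog; exact Or.inr (Or.inr (AdjO.tt _))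
    | sp w => obtain ⟨-, b1, b2, -⟩ := hog; exfalso; omega
  | tu a =>
    obtain ⟨rfl, a1⟩ := hof
    cases y with
    | fr b => obtain ⟨rfl, b1⟩ := hog; exfalso; omega
    | ti b => obtain ⟨rfl, b1⟩ := hog; exact Or.inr (Or.inl (AdjO.tt _))
    | tu b => obtain ⟨rfl, b1⟩ := hog; exact Or.inl rfl
    | sp w => obtain ⟨-, b1, b2, -⟩ := hog; exfalso; omega
  | sp v =>
    obtain ⟨a1, a2, a3, a4, a5⟩ := hof
    cases y with
    | fr b => obtain ⟨rfl, b1⟩ := hog; exact Or.inr (Or.inl (AdjO.sf _ _ a1))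
    | ti b => obtain ⟨rfl, b1⟩ := hog; exfalso; omega
    | tu b => obtain ⟨rfl, b1⟩ := hog; exfalso; omega
    | sp w =>
      obtain ⟨b1, -, -, b4, b5⟩ := hog
      rcases share κ hκ hx hy a1 b1 a4 a5 b4 b5 with h | h
      · exact Or.inl (by rw [h])
      · exact Or.inr h

/-- adjacent objects meet -/
theorem pic_meet {x y : Ob} (hx : x.ok κ) (hy : y.ok κ) (h : AdjO x y) :
    ∃ i j : T3 × ℤ × ℤ, (i = iv1 κ x ∨ i = iv2 κ x) ∧ (j = iv1 κ y ∨ j = iv2 κ y) ∧
      i.1 = j.1 ∧ ∃ z : ℤ, i.2.1 ≤ z ∧ z + 1 ≤ i.2.2 ∧ j.2.1 ≤ z ∧ z + 1 ≤ j.2.2 := by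
  cases h with
  | sf v f hf =>
    obtain ⟨⟨b1, -⟩, ⟨b2, b3, b4⟩, ⟨b5, b6, b7⟩, b8, b9⟩ := bridge κ hx
    rcases (nb_iff κ).1 hf with rfl | rfl | rfl
    · obtain ⟨e1, e2, e3, e4, -⟩ := el_er κ (vf κ v)
      refine ⟨_, _, Or.inl rfl, Or.inl rfl, rfl, al κ v, ?_, ?_, ?_, ?_⟩ <;>
        simp only [iv1] <;> omega
    · obtain ⟨e1, e2, e3, e4, -⟩ := el_er κ (vg κ v)
      refine ⟨_, _, Or.inl rfl, Or.inl rfl, b1.symm, al κ v + 2, ?_, ?_, ?_, ?_⟩ <;>
        simp only [iv1] <;> omega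
    · refine ⟨_, _, Or.inr rfl, Or.inl rfl, rfl, al κ v - 1, ?_, ?_, ?_, ?_⟩ <;>
        simp only [iv1, iv2] <;> omega
  | mates o t =>
    by_cases hd : dd κ o = 0
    · refine ⟨_, _, Or.inl rfl, Or.inl rfl, ?_, 20 * t + 20, ?_, ?_, ?_, ?_⟩
      · simp only [iv1, vf, if_pos hd, FL]
      all_goals
        simp only [iv1, al, if_pos hd]
        omega
    · refine ⟨_, _, Or.inl rfl, Or.inl rfl, ?_, 20 * t + 20, ?_, ?_, ?_, ?_⟩
      · simp only [iv1, vf, if_neg hd, FL]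
      all_goals
        simp only [iv1, al, if_neg hd]
        omega
  | tf f =>
    obtain ⟨-, -, -, -, h5⟩ := el_er κ f
    have l5 := fa_lt_fb κ f
    rcases h5 hx with ⟨h6, h7⟩ | ⟨h6, h7⟩
    · refine ⟨_, _, Or.inl rfl, Or.inl rfl, ?_, fb κ f - 1, ?_, ?_, ?_, ?_⟩ <;>
        simp only [iv1, if_pos h6] <;> omega
    · have h8 : ¬ el κ f = 0 := by omega
      refine ⟨_, _, Or.inl rfl, Or.inl rfl, ?_, fa κ f, ?_, ?_, ?_, ?_⟩ <;>
        simp only [iv1, if_neg h8] <;> omega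
  | tt f =>
    obtain ⟨-, -, -, -, h5⟩ := el_er κ f
    have l5 := fa_lt_fb κ f
    rcases h5 hx with ⟨h6, h7⟩ | ⟨h6, h7⟩
    · refine ⟨_, _, Or.inl rfl, Or.inl rfl, ?_, fb κ f + 1, ?_, ?_, ?_, ?_⟩ <;>
        simp only [iv1, if_pos h6] <;> omega
    · have h8 : ¬ el κ f = 0 := by omega
      refine ⟨_, _, Or.inl rfl, Or.inl rfl, ?_, fa κ f - 2, ?_, ?_, ?_, ?_⟩ <;>
        simp only [iv1, if_neg h8] <;> omega

end

end Pool.Agent.Helper86.Bend
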