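import Pool.Agent.Helper86.Bend.Geo

/-!
# Hiding segments behind pins

`W` is the set of vertices of a graph `H` with adjacency `adj`. The graph with pins has the vertices
`(0, w, i, j)` (the copies of `w`), `(1, w, j, m)` and `(2, w, i, m)` (the pins of `w`).
-/

open Finset

namespace Pool.Agent.Helper86.Bend

variable {W : Type} [DecidableEq W]

/-- adjacency in the graph with pins, one direction -/
def adjP0 (adj : W → W → Bool) (x y : ℕ × W × ℕ × ℕ) : Bool :=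
  (decide (x.1 = 0) && (decide (y.1 = 0) && (adj x.2.1 y.2.1 && decide (x.2.2 = y.2.2)))) ||
  ((decide (x.1 = 0) && (decide (y.1 = 1) && (decide (x.2.1 = y.2.1) &&
    decide (x.2.2.2 = y.2.2.1)))) ||
  (decide (x.1 = 0) && (decide (y.1 = 2) && (decide (x.2.1 = y.2.1) &&
    decide (x.2.2.1 = y.2.2.1)))))

/-- adjacency in the graph with pins -/
def adjP (adj : W → W → Bool) (x y : ℕ × W × ℕ × ℕ) : Bool := adjP0 adj x y || adjP0 adj y x

/-- the vertices of the graph with pins -/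
def InP (VH : Finset W) (T : W → ℕ) (k N : ℕ) (x : ℕ × W × ℕ × ℕ) : Prop :=
  (x.1 = 0 ∧ x.2.1 ∈ VH ∧ x.2.2.1 < N ∧ x.2.2.2 < N) ∨
  (x.1 = 1 ∧ x.2.1 ∈ VH ∧ x.2.2.1 < N ∧ x.2.2.2 < (k + 1) / 2) ∨
  (x.1 = 2 ∧ x.2.1 ∈ VH ∧ x.2.2.1 < N ∧ T x.2.1 ≤ x.2.2.2 ∧ x.2.2.2 < (k + 2) / 2)

section lemmas

variable {adj : W → W → Bool} (hsymm : ∀ w u, adj w u = adj u w)

include hsymm in
lemma adjP_cp_cp (w u : W) (i j i' j' : ℕ) :
    adjP adj (0, w, i, j) (0, u, i', j') = true ↔ adj w u = true ∧ i = i' ∧ j = j' := by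
  simp only [adjP, adjP0, Bool.or_eq_true, Bool.and_eq_true, decide_eq_true_eq, Prod.mk.injEq]
  constructor
  · rintro ((⟨-, -, h, h1, h2⟩ | ⟨-, h, -⟩ | ⟨-, h, -⟩) | (⟨-, -, h, h1, h2⟩ | ⟨-, h, -⟩ | ⟨-, h, -⟩))
    · exact ⟨h, h1, h2⟩
    · omega
    · omega
    · exact ⟨(hsymm w u).trans h, h1.symm, h2.symm⟩
    · omega
    · omega
  · rintro ⟨h, h1, h2⟩
    exact Or.inl (Or.inl ⟨trivial, trivial, h, h1, h2⟩)

omit hsymm

lemma adjP_cp_pa (w u : W) (i j j' m : ℕ) :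
    adjP adj (0, w, i, j) (1, u, j', m) = true ↔ w = u ∧ j = j' := by
  simp [adjP, adjP0]

lemma adjP_cp_pb (w u : W) (i j i' m : ℕ) :
    adjP adj (0, w, i, j) (2, u, i', m) = true ↔ w = u ∧ i = i' := by
  simp [adjP, adjP0]

lemma adjP_pa_pa (w u : W) (j m j' m' : ℕ) : adjP adj (1, w, j, m) (1, u, j', m') = false := by
  simp [adjP, adjP0]

lemma adjP_pa_pb (w u : W) (j m i' m' : ℕ) : adjP adj (1, w, j, m) (2, u, i', m') = false := by
  simp [adjP, adjP0]

lemma adjP_pb_pb (w u : W) (i m i' m' : ℕ) : adjP adj (2, w, i, m) (2, u, i', m') = false := by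
  simp [adjP, adjP0]

omit [DecidableEq W] in
lemma adjP_comm [DecidableEq W] (x y : ℕ × W × ℕ × ℕ) : adjP adj x y = adjP adj y x := by
  unfold adjP
  rw [Bool.or_comm]

end lemmas

/-- the pins of the copy `(0, w, i, j)` -/
def pins (T : W → ℕ) (k : ℕ) (w : W) (i j : ℕ) : Finset (ℕ × W × ℕ × ℕ) :=
  (range ((k + 1) / 2)).image (fun m => (1, w, j, m)) ∪
    (Ico (T w) ((k + 2) / 2)).image (fun m => (2, w, i, m))

lemma card_pins (T : W → ℕ) (k : ℕ) (w : W) (i j : ℕ) (hT : T w ≤ (k + 2) / 2) :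
    (pins T k w i j).card = k + 1 - T w := by
  unfold pins
  rw [card_union_of_disjoint, card_image_of_injective, card_image_of_injective, card_range,
    Nat.card_Ico]
  · omega
  · intro a b h; simpa using h
  · intro a b h; simpa using h
  · rw [disjoint_left]
    intro x hx hx'
    simp only [mem_image] at hx hx'
    obtain ⟨m, -, rfl⟩ := hx
    obtain ⟨m', -, h⟩ := hx'
    simp at h

/-- all pins -/
def allPins (VH : Finset W) (T : W → ℕ) (k N : ℕ) : Finset (ℕ × W × ℕ × ℕ) :=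
  VH.biUnion fun w => (range N ×ˢ range ((k + 1) / 2)).image (fun p => (1, w, p.1, p.2)) ∪
    (range N ×ˢ Ico (T w) ((k + 2) / 2)).image (fun p => (2, w, p.1, p.2))

lemma card_allPins (VH : Finset W) (T : W → ℕ) (k N : ℕ) :
    (allPins VH T k N).card ≤ VH.card * (N * (k + 1)) := by
  unfold allPins
  refine card_biUnion_le_card_mul _ _ _ fun w _ => ?_
  refine (card_union_le _ _).trans ?_
  have h1 := card_image_le (s := range N ×ˢ range ((k + 1) / 2))
    (f := fun p => ((1, w, p.1, p.2) : ℕ × W × ℕ × ℕ))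
  have h2 := card_image_le (s := range N ×ˢ Ico (T w) ((k + 2) / 2))
    (f := fun p => ((2, w, p.1, p.2) : ℕ × W × ℕ × ℕ))
  rw [card_product, card_range, card_range] at h1
  rw [card_product, card_range, Nat.card_Ico] at h2
  have h3 : N * ((k + 2) / 2 - T w) ≤ N * ((k + 2) / 2) := Nat.mul_le_mul_left _ (Nat.sub_le _ _)
  have h4 : (k + 1) / 2 + (k + 2) / 2 = k + 1 := by omega
  calc _ ≤ N * ((k + 1) / 2) + N * ((k + 2) / 2) := by omega
    _ = N * (k + 1) := by rw [← Nat.mul_add, h4]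

lemma mem_allPins {VH : Finset W} {T : W → ℕ} {k N : ℕ} {w : W} {i j : ℕ} (hw : w ∈ VH)
    (hi : i < N) (hj : j < N) {q : ℕ × W × ℕ × ℕ} (hq : q ∈ pins T k w i j) :
    q ∈ allPins VH T k N := by
  unfold allPins
  rw [mem_biUnion]
  refine ⟨w, hw, ?_⟩
  unfold pins at hq
  rw [mem_union, mem_image, mem_image] at hq
  rw [mem_union, mem_image, mem_image]
  rcases hq with ⟨m, hm, rfl⟩ | ⟨m, hm, rfl⟩
  · exact Or.inl ⟨(j, m), mem_product.2 ⟨mem_range.2 hj, hm⟩, rfl⟩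
  · exact Or.inr ⟨(i, m), mem_product.2 ⟨mem_range.2 hi, hm⟩, rfl⟩

lemma inP_of_allPins {VH : Finset W} {T : W → ℕ} {k N : ℕ} {q : ℕ × W × ℕ × ℕ}
    (hq : q ∈ allPins VH T k N) : InP VH T k N q := by
  unfold allPins at hq
  rw [mem_biUnion] at hq
  obtain ⟨w, hw, hq⟩ := hq
  rw [mem_union, mem_image, mem_image] at hq
  rcases hq with ⟨p, hp, rfl⟩ | ⟨p, hp, rfl⟩
  · rw [mem_product, mem_range, mem_range] at hp
    exact Or.inr (Or.inl ⟨rfl, hw, hp.1, hp.2⟩)
  · rw [mem_product, mem_range, mem_Ico] at hp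
    exact Or.inr (Or.inr ⟨rfl, hw, hp.1, hp.2.1, hp.2.2⟩)

lemma adjP_pins {T : W → ℕ} {k : ℕ} {adj : W → W → Bool} {w : W} {i j : ℕ}
    {q : ℕ × W × ℕ × ℕ} (hq : q ∈ pins T k w i j) : adjP adj (0, w, i, j) q = true := by
  unfold pins at hq
  rw [mem_union, mem_image, mem_image] at hq
  rcases hq with ⟨m, hm, rfl⟩ | ⟨m, hm, rfl⟩
  · rw [adjP_cp_pa]; exact ⟨rfl, rfl⟩
  · rw [adjP_cp_pb]; exact ⟨rfl, rfl⟩

lemma not_adjP_pins {T : W → ℕ} {k : ℕ} {adj : W → W → Bool} {w w' : W} {i j i' j' : ℕ}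
    {q q' : ℕ × W × ℕ × ℕ} (hq : q ∈ pins T k w i j) (hq' : q' ∈ pins T k w' i' j') :
    adjP adj q q' = false := by
  unfold pins at hq hq'
  rw [mem_union, mem_image, mem_image] at hq hq'
  rcases hq with ⟨m, hm, rfl⟩ | ⟨m, hm, rfl⟩ <;> rcases hq' with ⟨m', hm', rfl⟩ | ⟨m', hm', rfl⟩
  · exact adjP_pa_pa _ _ _ _ _ _
  · exact adjP_pa_pb _ _ _ _ _ _
  · rw [adjP_comm]; exact adjP_pa_pb _ _ _ _ _ _
  · exact adjP_pb_pb _ _ _ _ _ _

lemma pins_fst {T : W → ℕ} {k : ℕ} {w : W} {i j : ℕ} {q : ℕ × W × ℕ × ℕ}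
    (hq : q ∈ pins T k w i j) : q.2.1 = w ∧ q.1 ≠ 0 := by
  unfold pins at hq
  rw [mem_union, mem_image, mem_image] at hq
  rcases hq with ⟨m, hm, rfl⟩ | ⟨m, hm, rfl⟩ <;> simp

/-- a copy of another vertex is not adjacent to the pin -/
lemma adjP_other {T : W → ℕ} {k : ℕ} {adj : W → W → Bool} {w u : W} {i j i' j' : ℕ}
    {q : ℕ × W × ℕ × ℕ} (hq : q ∈ pins T k w i j) (h : adjP adj q (0, u, i', j') = true) :
    u = w := by
  unfold pins at hq
  rw [mem_union, mem_image, mem_image] at hq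
  rw [adjP_comm] at h
  rcases hq with ⟨m, hm, rfl⟩ | ⟨m, hm, rfl⟩
  · rw [adjP_cp_pa] at h; exact h.1
  · rw [adjP_cp_pb] at h; exact h.1

variable {VH : Finset W} {T : W → ℕ} {k N : ℕ} {adj : W → W → Bool}
  {R : ℕ × W × ℕ × ℕ → Finset (Pt × Pt)}

/-- some pair of indices is good for all pins -/
lemma exists_good (hN : 2 * (k + 1) ^ 2 * VH.card < N)
    (hcard : ∀ x, InP VH T k N x → (R x).card ≤ k + 1)
    (hok : ∀ x, InP VH T k N x → ∀ s ∈ R x, s.1 ≠ s.2)
    (hadj : ∀ x y, InP VH T k N x → InP VH T k N y → x ≠ y →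
      (adjP adj x y = true ↔ ∃ s ∈ R x, ∃ t ∈ R y, ov s t))
    (hsymm : ∀ w u, adj w u = adj u w) :
    ∃ i < N, ∃ j < N, ∀ w ∈ VH, ∀ q ∈ pins T k w i j,
      ∃ s ∈ R (0, w, i, j), ∃ a ∈ R q, sb s a := by
  classical
  by_contra hcon
  push Not at hcon
  have hN0 : 0 < N := by omega
  have : Nonempty W := by
    obtain ⟨w, -⟩ := hcon 0 hN0 0 hN0
    exact ⟨w⟩
  have h1 : ∀ p ∈ range N ×ˢ range N, ∃ z : (ℕ × W × ℕ × ℕ) × (Pt × Pt) × Bool,
      z.1 ∈ allPins VH T k N ∧ z.2.1 ∈ R z.1 ∧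
        ∃ s ∈ R (0, z.1.2.1, p.1, p.2), gm z.2.1 z.2.2 s := by
    intro p hp
    rw [mem_product, mem_range, mem_range] at hp
    obtain ⟨w, hw, q, hq, h⟩ := hcon p.1 hp.1 p.2 hp.2
    have hqa := mem_allPins hw hp.1 hp.2 hq
    have hne : ((0, w, p.1, p.2) : ℕ × W × ℕ × ℕ) ≠ q := by
      rintro rfl
      exact (pins_fst hq).2 rfl
    obtain ⟨s, hs, t, ht, hov⟩ := (hadj (0, w, p.1, p.2) q (Or.inl ⟨rfl, hw, hp.1, hp.2⟩)
      (inP_of_allPins hqa) hne).1 (adjP_pins hq)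
    rcases ov_cases hov with h2 | ⟨e, he⟩
    · exact absurd h2 (h s hs t ht)
    · refine ⟨(q, t, e), hqa, ht, s, ?_, he⟩
      rw [(pins_fst hq).1]
      exact hs
  choose! F hF1 hF2 hF3 using h1
  have hmaps : ∀ p ∈ range N ×ˢ range N, F p ∈ (allPins VH T k N).biUnion
      (fun q => (R q ×ˢ (univ : Finset Bool)).image (fun z => (q, z))) := by
    intro p hp
    rw [mem_biUnion]
    refine ⟨(F p).1, hF1 p hp, mem_image.2 ⟨(F p).2, ?_, rfl⟩⟩
    exact mem_product.2 ⟨hF2 p hp, mem_univ _⟩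
  have hinj : Set.InjOn F ((range N ×ˢ range N : Finset (ℕ × ℕ)) : Set (ℕ × ℕ)) := by
    intro p hp p' hp' heq
    rw [mem_coe] at hp hp'
    obtain ⟨s, hs, hg⟩ := hF3 p hp
    obtain ⟨s', hs', hg'⟩ := hF3 p' hp'
    rw [← heq] at hs' hg'
    have hq := hF1 p hp
    have hqP := inP_of_allPins hq
    have hov : ov s s' := gm_ov (hok _ hqP _ (hF2 p hp)) hg hg'
    have hw : (F p).1.2.1 ∈ VH := by
      rcases hqP with h | h | h
      · exact h.2.1
      · exact h.2.1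
      · exact h.2.1
    rw [mem_product, mem_range, mem_range] at hp hp'
    by_contra hne
    have hne2 : ((0, (F p).1.2.1, p.1, p.2) : ℕ × W × ℕ × ℕ) ≠ (0, (F p).1.2.1, p'.1, p'.2) := by
      intro h
      simp only [Prod.mk.injEq, true_and] at h
      exact hne (Prod.ext h.1 h.2)
    have h2 := (hadj (0, (F p).1.2.1, p.1, p.2) (0, (F p).1.2.1, p'.1, p'.2)
      (Or.inl ⟨rfl, hw, hp.1, hp.2⟩) (Or.inl ⟨rfl, hw, hp'.1, hp'.2⟩) hne2).2
      ⟨s, hs, s', hs', hov⟩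
    rw [adjP_cp_cp hsymm] at h2
    exact hne (Prod.ext h2.2.1 h2.2.2)
  have hc := card_le_card_of_injOn F hmaps hinj
  rw [card_product, card_range] at hc
  have hc2 : ((allPins VH T k N).biUnion
      (fun q => (R q ×ˢ (univ : Finset Bool)).image (fun z => (q, z)))).card ≤
      (allPins VH T k N).card * ((k + 1) * 2) := by
    refine card_biUnion_le_card_mul _ _ _ fun q hq => ?_
    refine card_image_le.trans ?_
    rw [card_product, card_univ, Fintype.card_bool]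
    exact Nat.mul_le_mul_right _ (hcard q (inP_of_allPins hq))
  have hc3 := card_allPins VH T k N
  have hc4 : N * N ≤ VH.card * (N * (k + 1)) * ((k + 1) * 2) :=
    (hc.trans hc2).trans (Nat.mul_le_mul_right _ hc3)
  have hc5 : VH.card * (N * (k + 1)) * ((k + 1) * 2) = N * (2 * (k + 1) ^ 2 * VH.card) := by ring
  rw [hc5] at hc4
  exact absurd (Nat.le_of_mul_le_mul_left hc4 hN0) (not_le.2 hN)

/-- **Hiding lemma.** In a representation of the graph with pins by sets of at most `k + 1` segments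
all but `T w` segments of some copy of `w` are hidden. -/
theorem exists_vis (hN : 2 * (k + 1) ^ 2 * VH.card < N) (hT : ∀ w ∈ VH, T w ≤ (k + 2) / 2)
    (hcard : ∀ x, InP VH T k N x → (R x).card ≤ k + 1)
    (hok : ∀ x, InP VH T k N x → ∀ s ∈ R x, s.1 ≠ s.2)
    (hadj : ∀ x y, InP VH T k N x → InP VH T k N y → x ≠ y →
      (adjP adj x y = true ↔ ∃ s ∈ R x, ∃ t ∈ R y, ov s t))
    (hsymm : ∀ w u, adj w u = adj u w) :
    ∃ vis : W → Finset (Pt × Pt), (∀ w ∈ VH, (vis w).card ≤ T w ∧ ∀ s ∈ vis w, s.1 ≠ s.2) ∧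
      ∀ w ∈ VH, ∀ u ∈ VH, w ≠ u → (adj w u = true ↔ ∃ s ∈ vis w, ∃ t ∈ vis u, ov s t) := by
  classical
  obtain ⟨i, hi, j, hj, hgood⟩ := exists_good hN hcard hok hadj hsymm
  have hcp : ∀ w ∈ VH, InP VH T k N (0, w, i, j) := fun w hw => Or.inl ⟨rfl, hw, hi, hj⟩
  choose! f hf1 g hg1 hg2 using hgood
  -- `f w q` is the segment hidden by the pin `q`
  refine ⟨fun w => R (0, w, i, j) \ (pins T k w i j).image (f w), ?_, ?_⟩
  · intro w hw
    constructor
    · have hinj : Set.InjOn (f w) (pins T k w i j) := by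
        intro q hq q' hq' heq
        rw [mem_coe] at hq hq'
        by_contra hne
        have hs := hf1 w hw q hq
        have hsok := hok _ (hcp w hw) _ hs
        have h1 : ov (g w q) (f w q) := sb_ov (hg2 w hw q hq) (ov_self hsok)
        have h2 : sb (f w q) (g w q') := by rw [heq]; exact hg2 w hw q' hq'
        have h3 : ov (g w q') (g w q) := sb_ov h2 (ov_symm h1)
        have h4 := (hadj q' q (inP_of_allPins (mem_allPins hw hi hj hq'))
          (inP_of_allPins (mem_allPins hw hi hj hq)) (Ne.symm hne)).2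
          ⟨_, hg1 w hw q' hq', _, hg1 w hw q hq, h3⟩
        rw [not_adjP_pins hq' hq] at h4
        exact absurd h4 (by simp)
      have hsub : (pins T k w i j).image (f w) ⊆ R (0, w, i, j) := by
        intro s hs
        rw [mem_image] at hs
        obtain ⟨q, hq, rfl⟩ := hs
        exact hf1 w hw q hq
      rw [card_sdiff_of_subset hsub, card_image_of_injOn hinj, card_pins _ _ _ _ _ (hT w hw)]
      have := hcard _ (hcp w hw)
      have := hT w hw
      omega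
    · intro s hs
      exact hok _ (hcp w hw) s (mem_sdiff.1 hs).1
  · intro w hw u hu hwu
    have hne : ((0, w, i, j) : ℕ × W × ℕ × ℕ) ≠ (0, u, i, j) := by
      intro h
      simp only [Prod.mk.injEq, true_and, and_true] at h
      exact hwu h
    have h1 := hadj (0, w, i, j) (0, u, i, j) (hcp w hw) (hcp u hu) hne
    rw [adjP_cp_cp hsymm] at h1
    -- hidden segments do not meet other copies
    have hid : ∀ w ∈ VH, ∀ u ∈ VH, w ≠ u → ∀ s ∈ (pins T k w i j).image (f w),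
        ∀ t ∈ R (0, u, i, j), ¬ ov s t := by
      intro w hw u hu hwu s hs t ht hov
      rw [mem_image] at hs
      obtain ⟨q, hq, rfl⟩ := hs
      have h2 : ov (g w q) t := sb_ov (hg2 w hw q hq) hov
      have h3 := (hadj q (0, u, i, j) (inP_of_allPins (mem_allPins hw hi hj hq)) (hcp u hu)
        (fun h => (pins_fst hq).2 (by rw [h]))).2 ⟨_, hg1 w hw q hq, t, ht, h2⟩
      exact hwu (adjP_other hq h3).symm
    constructor
    · intro h
      obtain ⟨s, hs, t, ht, hov⟩ := h1.1 ⟨h, rfl, rfl⟩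
      refine ⟨s, mem_sdiff.2 ⟨hs, fun hs' => hid w hw u hu hwu s hs' t ht hov⟩, t,
        mem_sdiff.2 ⟨ht, fun ht' => hid u hu w hw (Ne.symm hwu) t ht' s hs (ov_symm hov)⟩, hov⟩
    · rintro ⟨s, hs, t, ht, hov⟩
      exact (h1.2 ⟨s, (mem_sdiff.1 hs).1, t, (mem_sdiff.1 ht).1, hov⟩).1

end Pool.Agent.Helper86.Bend
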