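import Pool.Agent.Helper86.Bend.Pins

/-!
# Drawing the graph with pins
-/

open Set

namespace Pool.Agent.Helper86.Bend

/-- A polyline is simple if its segments have no common points, except for the common end points of
consecutive segments. -/
def IsSimple (l : List Pt) : Prop :=
  ∀ (i j : ℕ) (hi : i < (pieces l).length) (hj : j < (pieces l).length), i < j →
    ∀ x : Pt, x ∈ segment ℝ (pieces l)[i].1 (pieces l)[i].2 →
      x ∈ segment ℝ (pieces l)[j].1 (pieces l)[j].2 → j = i + 1 ∧ x = (pieces l)[j].1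

/-- horizontal segment -/
def hs (a b y : ℤ) : Pt × Pt := (((a : ℝ), (y : ℝ)), ((b : ℝ), (y : ℝ)))

/-- vertical segment -/
def vs (x a b : ℤ) : Pt × Pt := (((x : ℝ), (a : ℝ)), ((x : ℝ), (b : ℝ)))

lemma sg_hs (a b y : ℤ) :
    sg (hs a b y) = (fun x : ℝ => (x, (y : ℝ))) '' Icc (min (a : ℝ) b) (max (a : ℝ) b) := by
  unfold sg hs
  simp only
  rw [← Prod.image_mk_segment_left, segment_eq_uIcc, uIcc]

lemma sg_vs (x a b : ℤ) :
    sg (vs x a b) = (fun y : ℝ => ((x : ℝ), y)) '' Icc (min (a : ℝ) b) (max (a : ℝ) b) := by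
  unfold sg vs
  simp only
  rw [← Prod.image_mk_segment_right, segment_eq_uIcc, uIcc]

/-- two intervals given by their end points have a common interval -/
def ovl (a b c d : ℤ) : Prop := max (min a b) (min c d) < min (max a b) (max c d)

lemma icc_inter_infinite (a b c d : ℤ) :
    (Icc (min (a : ℝ) b) (max (a : ℝ) b) ∩ Icc (min (c : ℝ) d) (max (c : ℝ) d)).Infinite ↔
      ovl a b c d := by
  rw [Icc_inter_Icc]
  have h1 : min (a : ℝ) b ⊔ min (c : ℝ) d = ((max (min a b) (min c d) : ℤ) : ℝ) := by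
    push_cast; rfl
  have h2 : max (a : ℝ) b ⊓ max (c : ℝ) d = ((min (max a b) (max c d) : ℤ) : ℝ) := by
    push_cast; rfl
  rw [h1, h2]
  unfold ovl
  constructor
  · intro h
    by_contra hcon
    push Not at hcon
    refine h (Subsingleton.finite (subsingleton_Icc_of_ge ?_))
    exact_mod_cast hcon
  · intro h
    apply Icc_infinite
    exact_mod_cast h

lemma ov_hs (a b y c d y' : ℤ) : ov (hs a b y) (hs c d y') ↔ y = y' ∧ ovl a b c d := by
  unfold ov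
  rw [sg_hs, sg_hs]
  by_cases hy : y = y'
  · subst hy
    rw [← image_inter (fun x x' h => (Prod.ext_iff.1 h).1),
      infinite_image_iff (fun x _ x' _ h => (Prod.ext_iff.1 h).1), icc_inter_infinite]
    simp
  · constructor
    · intro h
      exfalso
      apply h
      have : (fun x : ℝ => (x, (y : ℝ))) '' Icc (min (a : ℝ) b) (max (a : ℝ) b) ∩
          (fun x : ℝ => (x, (y' : ℝ))) '' Icc (min (c : ℝ) d) (max (c : ℝ) d) = ∅ := by
        ext p
        simp only [mem_inter_iff, mem_image, mem_empty_iff_false, iff_false]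
        rintro ⟨⟨x, -, rfl⟩, ⟨x', -, h⟩⟩
        apply hy
        have := (Prod.ext_iff.1 h).2
        simp only at this
        exact_mod_cast this.symm
      rw [this]
      exact finite_empty
    · rintro ⟨h, -⟩
      exact absurd h hy

lemma ov_vs (x a b x' c d : ℤ) : ov (vs x a b) (vs x' c d) ↔ x = x' ∧ ovl a b c d := by
  unfold ov
  rw [sg_vs, sg_vs]
  by_cases hy : x = x'
  · subst hy
    rw [← image_inter (fun x x' h => (Prod.ext_iff.1 h).2),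
      infinite_image_iff (fun x _ x' _ h => (Prod.ext_iff.1 h).2), icc_inter_infinite]
    simp
  · constructor
    · intro h
      exfalso
      apply h
      have : (fun y : ℝ => ((x : ℝ), y)) '' Icc (min (a : ℝ) b) (max (a : ℝ) b) ∩
          (fun y : ℝ => ((x' : ℝ), y)) '' Icc (min (c : ℝ) d) (max (c : ℝ) d) = ∅ := by
        ext p
        simp only [mem_inter_iff, mem_image, mem_empty_iff_false, iff_false]
        rintro ⟨⟨z, -, rfl⟩, ⟨z', -, h⟩⟩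
        apply hy
        have := (Prod.ext_iff.1 h).1
        simp only at this
        exact_mod_cast this.symm
      rw [this]
      exact finite_empty
    · rintro ⟨h, -⟩
      exact absurd h hy

lemma not_ov_hs_vs (a b y x c d : ℤ) : ¬ ov (hs a b y) (vs x c d) := by
  unfold ov
  rw [sg_hs, sg_vs, not_infinite]
  refine Finite.subset (finite_singleton ((x : ℝ), (y : ℝ))) ?_
  rintro p ⟨⟨z, -, rfl⟩, ⟨z', -, h⟩⟩
  rw [mem_singleton_iff, ← h]
  have h1 := (Prod.ext_iff.1 h).2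
  simp only at h1
  rw [h1]

lemma not_ov_vs_hs (a b y x c d : ℤ) : ¬ ov (vs x c d) (hs a b y) :=
  fun h => not_ov_hs_vs a b y x c d (ov_symm h)

lemma ovl_shift (a b c d s : ℤ) : ovl (a + s) (b + s) (c + s) (d + s) ↔ ovl a b c d := by
  unfold ovl
  omega

/-- integer points -/
def ipt (a b : ℤ) : Pt := ((a : ℝ), (b : ℝ))

lemma pieces_range {n : ℕ} (p : ℕ → Pt) :
    pieces ((List.range (n + 1)).map p) = (List.range n).map fun i => (p i, p (i + 1)) := by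
  unfold pieces
  apply List.ext_getElem
  · simp
  · intro i h1 h2
    simp

lemma sep_mul {S x x' : ℤ} {j j' : ℕ} (hx : 0 ≤ x) (hx2 : x < S) (hx' : 0 ≤ x') (hx2' : x' < S)
    (h : x + j * S = x' + j' * S) : j = j' ∧ x = x' := by
  have h1 : (x + j * S) / S = j := by
    rw [Int.add_mul_ediv_right _ _ (by omega), Int.ediv_eq_zero_of_lt hx hx2, zero_add]
  have h2 : (x' + j' * S) / S = j' := by
    rw [Int.add_mul_ediv_right _ _ (by omega), Int.ediv_eq_zero_of_lt hx' hx2', zero_add]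
  rw [h, h2] at h1
  have h3 : j = j' := by exact_mod_cast h1.symm
  subst h3
  exact ⟨rfl, by linarith⟩

lemma le_mul_of_lt {S : ℤ} (hS : 0 ≤ S) {j j' : ℕ} (h : j < j') : (j : ℤ) * S + S ≤ j' * S := by
  have h1 : ((j : ℤ) + 1) ≤ j' := by exact_mod_cast h
  nlinarith

variable {W : Type} [DecidableEq W]

/-- the data of the drawing -/
structure Draw (VH : Finset W) (T : W → ℕ) (k : ℕ) (adj : W → W → Bool) (XX YY : W → ℕ → ℤ)
    (A SY : ℤ) : Prop where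
  hk : 2 ≤ k
  hT : ∀ w ∈ VH, 1 ≤ T w ∧ T w ≤ 2
  symm : ∀ w u, adj w u = adj u w
  irr : ∀ w, adj w w = false
  x1 : ∀ w ∈ VH, ∀ u ∈ VH, ∀ m ≤ k + 2, ∀ m' ≤ k + 2, XX w m = XX u m' → w = u ∧ m = m'
  x2 : ∀ w ∈ VH, ∀ m ≤ k + 2, -A < XX w m ∧ XX w m < A
  y0 : ∀ w ∈ VH, ∀ m ≤ k + 2, 0 ≤ YY w m ∧ YY w m < SY
  y1 : ∀ w ∈ VH, ∀ m ≤ k + 2, YY w m < YY w (m + 1)
  y2 : ∀ w ∈ VH, ∀ u ∈ VH, ∀ m ≤ k + 2, ∀ m' ≤ k + 2, T w ≤ m → YY w m = YY u m' →
    w = u ∧ m = m'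
  xy : ∀ w ∈ VH, ∀ u ∈ VH, w ≠ u → (adj w u = true ↔ ∃ m < T w, ∃ m' < T u,
    YY w m = YY u m' ∧ ovl (XX w m) (XX w (m + 1)) (XX u m') (XX u (m' + 1)))

section

variable (k N : ℕ) (XX YY : W → ℕ → ℤ) (A SY : ℤ)

/-- the points of the polyline of a copy -/
def cpt (w : W) (i j n : ℕ) : Pt :=
  ipt (XX w ((n + 1) / 2) + j * (2 * A)) (YY w (n / 2) + i * SY)

/-- the polylines -/
def PL (x : ℕ × W × ℕ × ℕ) : List Pt :=
  if x.1 = 0 then (List.range (k + 2)).map (cpt XX YY A SY x.2.1 x.2.2.1 x.2.2.2)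
  else if x.1 = 1 then
    [ipt (XX x.2.1 (x.2.2.2 + 1) + x.2.2.1 * (2 * A)) (-1),
      ipt (XX x.2.1 (x.2.2.2 + 1) + x.2.2.1 * (2 * A)) (N * SY)]
  else
    [ipt (-(2 * A)) (YY x.2.1 x.2.2.2 + x.2.2.1 * SY),
      ipt ((N + 1) * (2 * A)) (YY x.2.1 x.2.2.2 + x.2.2.1 * SY)]

/-- horizontal segments -/
def IsH (x : ℕ × W × ℕ × ℕ) (a b y : ℤ) : Prop :=
  (x.1 = 0 ∧ ∃ m < (k + 2) / 2, a = XX x.2.1 m + x.2.2.2 * (2 * A) ∧
    b = XX x.2.1 (m + 1) + x.2.2.2 * (2 * A) ∧ y = YY x.2.1 m + x.2.2.1 * SY) ∨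
  (x.1 = 2 ∧ a = -(2 * A) ∧ b = (N + 1) * (2 * A) ∧ y = YY x.2.1 x.2.2.2 + x.2.2.1 * SY)

/-- vertical segments -/
def IsV (x : ℕ × W × ℕ × ℕ) (c a b : ℤ) : Prop :=
  (x.1 = 0 ∧ ∃ m < (k + 1) / 2, c = XX x.2.1 (m + 1) + x.2.2.2 * (2 * A) ∧
    a = YY x.2.1 m + x.2.2.1 * SY ∧ b = YY x.2.1 (m + 1) + x.2.2.1 * SY) ∨
  (x.1 = 1 ∧ c = XX x.2.1 (x.2.2.2 + 1) + x.2.2.1 * (2 * A) ∧ a = -1 ∧ b = N * SY)

omit [DecidableEq W] in
lemma cpt_even (w : W) (i j m : ℕ) :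
    (cpt XX YY A SY w i j (2 * m), cpt XX YY A SY w i j (2 * m + 1)) =
      hs (XX w m + j * (2 * A)) (XX w (m + 1) + j * (2 * A)) (YY w m + i * SY) := by
  unfold cpt hs ipt
  have h1 : (2 * m + 1) / 2 = m := by omega
  have h2 : 2 * m / 2 = m := by omega
  have h3 : (2 * m + 1 + 1) / 2 = m + 1 := by omega
  rw [h1, h2, h3]

omit [DecidableEq W] in
lemma cpt_odd (w : W) (i j m : ℕ) :
    (cpt XX YY A SY w i j (2 * m + 1), cpt XX YY A SY w i j (2 * m + 1 + 1)) =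
      vs (XX w (m + 1) + j * (2 * A)) (YY w m + i * SY) (YY w (m + 1) + i * SY) := by
  unfold cpt vs ipt
  have h1 : (2 * m + 1) / 2 = m := by omega
  have h2 : (2 * m + 1 + 1) / 2 = m + 1 := by omega
  have h3 : (2 * m + 1 + 1 + 1) / 2 = m + 1 := by omega
  rw [h1, h2, h3]

omit [DecidableEq W] in
lemma mem_pieces_PL {x : ℕ × W × ℕ × ℕ} (hx : x.1 < 3) {s : Pt × Pt} :
    s ∈ pieces (PL k N XX YY A SY x) ↔ (∃ a b y, IsH k N XX YY A SY x a b y ∧ s = hs a b y) ∨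
      ∃ c a b, IsV k N XX YY A SY x c a b ∧ s = vs c a b := by
  obtain ⟨tg, w, i, j⟩ := x
  simp only at hx
  have h : tg = 0 ∨ tg = 1 ∨ tg = 2 := by omega
  rcases h with rfl | rfl | rfl
  · have h1 : PL k N XX YY A SY (0, w, i, j) =
        (List.range (k + 1 + 1)).map (cpt XX YY A SY w i j) := by simp [PL]
    rw [h1, pieces_range, List.mem_map]
    constructor
    · rintro ⟨n, hn, rfl⟩
      rw [List.mem_range] at hn
      rcases Nat.even_or_odd' n with ⟨m, rfl | rfl⟩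
      · left
        rw [cpt_even]
        exact ⟨_, _, _, Or.inl ⟨rfl, m, by omega, rfl, rfl, rfl⟩, rfl⟩
      · right
        rw [cpt_odd]
        exact ⟨_, _, _, Or.inl ⟨rfl, m, by omega, rfl, rfl, rfl⟩, rfl⟩
    · rintro (⟨a, b, y, h2, rfl⟩ | ⟨c, a, b, h2, rfl⟩)
      · rcases h2 with ⟨-, m, hm, rfl, rfl, rfl⟩ | ⟨h2, -⟩
        · exact ⟨2 * m, List.mem_range.2 (by omega), cpt_even _ _ _ _ _ _ _ _⟩
        · exact absurd h2 (by simp)
      · rcases h2 with ⟨-, m, hm, rfl, rfl, rfl⟩ | ⟨h2, -⟩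
        · exact ⟨2 * m + 1, List.mem_range.2 (by omega), cpt_odd _ _ _ _ _ _ _ _⟩
        · exact absurd h2 (by simp)
  · have h1 : pieces (PL k N XX YY A SY (1, w, i, j)) =
        [vs (XX w (j + 1) + i * (2 * A)) (-1) (N * SY)] := by
      simp [PL, pieces, vs, ipt]
    rw [h1, List.mem_singleton]
    constructor
    · rintro rfl
      exact Or.inr ⟨_, _, _, Or.inr ⟨rfl, rfl, rfl, rfl⟩, rfl⟩
    · rintro (⟨a, b, y, h2, rfl⟩ | ⟨c, a, b, h2, rfl⟩)
      · rcases h2 with ⟨h2, -⟩ | ⟨h2, -⟩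
        · exact absurd h2 (by simp)
        · exact absurd h2 (by simp)
      · rcases h2 with ⟨h2, -⟩ | ⟨-, rfl, rfl, rfl⟩
        · exact absurd h2 (by simp)
        · rfl
  · have h1 : pieces (PL k N XX YY A SY (2, w, i, j)) =
        [hs (-(2 * A)) ((N + 1) * (2 * A)) (YY w j + i * SY)] := by
      simp [PL, pieces, hs, ipt]
    rw [h1, List.mem_singleton]
    constructor
    · rintro rfl
      exact Or.inl ⟨_, _, _, Or.inr ⟨rfl, rfl, rfl, rfl⟩, rfl⟩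
    · rintro (⟨a, b, y, h2, rfl⟩ | ⟨c, a, b, h2, rfl⟩)
      · rcases h2 with ⟨h2, -⟩ | ⟨-, rfl, rfl, rfl⟩
        · exact absurd h2 (by simp)
        · rfl
      · rcases h2 with ⟨h2, -⟩ | ⟨h2, -⟩
        · exact absurd h2 (by simp)
        · exact absurd h2 (by simp)

/-- the polylines meet -/
def Meet (x y : ℕ × W × ℕ × ℕ) : Prop :=
  (∃ a b c d z, IsH k N XX YY A SY x a b z ∧ IsH k N XX YY A SY y c d z ∧ ovl a b c d) ∨
  (∃ a b c d z, IsV k N XX YY A SY x z a b ∧ IsV k N XX YY A SY y z c d ∧ ovl a b c d)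

omit [DecidableEq W] in
lemma meet_iff {x y : ℕ × W × ℕ × ℕ} (hx : x.1 < 3) (hy : y.1 < 3) :
    (∃ s ∈ pieces (PL k N XX YY A SY x), ∃ t ∈ pieces (PL k N XX YY A SY y), ov s t) ↔
      Meet k N XX YY A SY x y := by
  constructor
  · rintro ⟨s, hs, t, ht, h⟩
    rw [mem_pieces_PL k N XX YY A SY hx] at hs
    rw [mem_pieces_PL k N XX YY A SY hy] at ht
    rcases hs with ⟨a, b, z, h1, rfl⟩ | ⟨z, a, b, h1, rfl⟩ <;>
      rcases ht with ⟨c, d, z', h2, rfl⟩ | ⟨z', c, d, h2, rfl⟩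
    · rw [ov_hs] at h
      obtain ⟨rfl, h⟩ := h
      exact Or.inl ⟨_, _, _, _, _, h1, h2, h⟩
    · exact absurd h (not_ov_hs_vs _ _ _ _ _ _)
    · exact absurd h (not_ov_vs_hs _ _ _ _ _ _)
    · rw [ov_vs] at h
      obtain ⟨rfl, h⟩ := h
      exact Or.inr ⟨_, _, _, _, _, h1, h2, h⟩
  · rintro (⟨a, b, c, d, z, h1, h2, h⟩ | ⟨a, b, c, d, z, h1, h2, h⟩)
    · exact ⟨hs a b z, (mem_pieces_PL k N XX YY A SY hx).2 (Or.inl ⟨_, _, _, h1, rfl⟩),
        hs c d z, (mem_pieces_PL k N XX YY A SY hy).2 (Or.inl ⟨_, _, _, h2, rfl⟩),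
        (ov_hs _ _ _ _ _ _).2 ⟨rfl, h⟩⟩
    · exact ⟨vs z a b, (mem_pieces_PL k N XX YY A SY hx).2 (Or.inr ⟨_, _, _, h1, rfl⟩),
        vs z c d, (mem_pieces_PL k N XX YY A SY hy).2 (Or.inr ⟨_, _, _, h2, rfl⟩),
        (ov_vs _ _ _ _ _ _).2 ⟨rfl, h⟩⟩

end

end Pool.Agent.Helper86.Bend
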