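import Pool.Agent.Helper86.Bend.Real

/-!
# Drawing the graph with pins: adjacency
-/

open Set

namespace Pool.Agent.Helper86.Bend

variable {W : Type} [DecidableEq W]
  {VH : Finset W} {T : W → ℕ} {k N : ℕ} {adj : W → W → Bool} {XX YY : W → ℕ → ℤ} {A SY : ℤ}

omit [DecidableEq W] in
lemma Draw.A_pos (h : Draw VH T k adj XX YY A SY) {w : W} (hw : w ∈ VH) : 0 < A := by
  have := h.x2 w hw 0 (by omega)
  omega

omit [DecidableEq W] in
lemma Draw.SY_pos (h : Draw VH T k adj XX YY A SY) {w : W} (hw : w ∈ VH) : 0 < SY := by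
  have := h.y0 w hw 0 (by omega)
  omega

omit [DecidableEq W] in
/-- equality of abscissas -/
lemma Draw.eqX (h : Draw VH T k adj XX YY A SY) {w u : W} (hw : w ∈ VH) (hu : u ∈ VH) {m m' : ℕ}
    (hm : m ≤ k + 2) (hm' : m' ≤ k + 2) {j j' : ℕ}
    (heq : XX w m + j * (2 * A) = XX u m' + j' * (2 * A)) : w = u ∧ m = m' ∧ j = j' := by
  have h1 := h.x2 w hw m hm
  have h2 := h.x2 u hu m' hm'
  have h3 := sep_mul (S := 2 * A) (x := XX w m + A) (x' := XX u m' + A) (j := j) (j' := j')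
    (by omega) (by omega) (by omega) (by omega) (by linarith)
  have h4 := h.x1 w hw u hu m hm m' hm' (by linarith [h3.2])
  exact ⟨h4.1, h4.2, h3.1⟩

omit [DecidableEq W] in
/-- equality of ordinates -/
lemma Draw.eqY (h : Draw VH T k adj XX YY A SY) {w u : W} (hw : w ∈ VH) (hu : u ∈ VH) {m m' : ℕ}
    (hm : m ≤ k + 2) (hm' : m' ≤ k + 2) {i i' : ℕ}
    (heq : YY w m + i * SY = YY u m' + i' * SY) : i = i' ∧ YY w m = YY u m' := by
  have h1 := h.y0 w hw m hm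
  have h2 := h.y0 u hu m' hm'
  exact sep_mul h1.1 h1.2 h2.1 h2.2 heq

omit [DecidableEq W] in
/-- overlap of horizontal segments of copies -/
lemma Draw.ovlX (h : Draw VH T k adj XX YY A SY) {w u : W} (hw : w ∈ VH) (hu : u ∈ VH)
    {m m' : ℕ} (hm : m + 1 ≤ k + 2) (hm' : m' + 1 ≤ k + 2) {j j' : ℕ}
    (hov : ovl (XX w m + j * (2 * A)) (XX w (m + 1) + j * (2 * A)) (XX u m' + j' * (2 * A))
      (XX u (m' + 1) + j' * (2 * A))) : j = j' := by
  have h1 := h.x2 w hw m (by omega)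
  have h2 := h.x2 w hw (m + 1) hm
  have h3 := h.x2 u hu m' (by omega)
  have h4 := h.x2 u hu (m' + 1) hm'
  have hA : 0 ≤ 2 * A := by omega
  by_contra hne
  rcases lt_or_gt_of_ne hne with hlt | hlt
  · have h5 := le_mul_of_lt hA hlt
    unfold ovl at hov
    generalize (j : ℤ) * (2 * A) = a at *
    generalize (j' : ℤ) * (2 * A) = b at *
    omega
  · have h5 := le_mul_of_lt hA hlt
    unfold ovl at hov
    generalize (j : ℤ) * (2 * A) = a at *
    generalize (j' : ℤ) * (2 * A) = b at *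
    omega

omit [DecidableEq W] in
/-- overlap of vertical segments of copies -/
lemma Draw.ovlY (h : Draw VH T k adj XX YY A SY) {w u : W} (hw : w ∈ VH) (hu : u ∈ VH)
    {m m' : ℕ} (hm : m + 1 ≤ k + 2) (hm' : m' + 1 ≤ k + 2) {i i' : ℕ}
    (hov : ovl (YY w m + i * SY) (YY w (m + 1) + i * SY) (YY u m' + i' * SY)
      (YY u (m' + 1) + i' * SY)) : i = i' := by
  have h1 := h.y0 w hw m (by omega)
  have h2 := h.y0 w hw (m + 1) hm
  have h3 := h.y0 u hu m' (by omega)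
  have h4 := h.y0 u hu (m' + 1) hm'
  have hA : 0 ≤ SY := by omega
  by_contra hne
  rcases lt_or_gt_of_ne hne with hlt | hlt
  · have h5 := le_mul_of_lt hA hlt
    unfold ovl at hov
    generalize (i : ℤ) * SY = a at *
    generalize (i' : ℤ) * SY = b at *
    omega
  · have h5 := le_mul_of_lt hA hlt
    unfold ovl at hov
    generalize (i : ℤ) * SY = a at *
    generalize (i' : ℤ) * SY = b at *
    omega

omit [DecidableEq W] in
lemma meet_comm {x y : ℕ × W × ℕ × ℕ} (h : Meet k N XX YY A SY x y) :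
    Meet k N XX YY A SY y x := by
  have hc : ∀ a b c d, ovl a b c d → ovl c d a b := by
    intro a b c d h
    unfold ovl at *
    omega
  rcases h with ⟨a, b, c, d, z, h1, h2, h3⟩ | ⟨a, b, c, d, z, h1, h2, h3⟩
  · exact Or.inl ⟨c, d, a, b, z, h2, h1, hc _ _ _ _ h3⟩
  · exact Or.inr ⟨c, d, a, b, z, h2, h1, hc _ _ _ _ h3⟩

lemma meet_cp_cp (h : Draw VH T k adj XX YY A SY) {w u : W} (hw : w ∈ VH) (hu : u ∈ VH)
    {i j i' j' : ℕ} (hne : ((0, w, i, j) : ℕ × W × ℕ × ℕ) ≠ (0, u, i', j')) :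
    adjP adj (0, w, i, j) (0, u, i', j') = true ↔
      Meet k N XX YY A SY (0, w, i, j) (0, u, i', j') := by
  have hk := h.hk
  rw [adjP_cp_cp h.symm]
  constructor
  · rintro ⟨hadj, rfl, rfl⟩
    have hwu : w ≠ u := by
      rintro rfl
      exact hne rfl
    obtain ⟨m, hm, m', hm', hy, hov⟩ := (h.xy w hw u hu hwu).1 hadj
    have hT := h.hT w hw
    have hT' := h.hT u hu
    refine Or.inl ⟨_, _, _, _, _, Or.inl ⟨rfl, m, by omega, rfl, rfl, rfl⟩,
      Or.inl ⟨rfl, m', by omega, rfl, rfl, ?_⟩, ?_⟩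
    · simp only; rw [hy]
    · simp only
      exact (ovl_shift _ _ _ _ _).2 hov
  · rintro (⟨a, b, c, d, z, h1, h2, h3⟩ | ⟨a, b, c, d, z, h1, h2, h3⟩)
    · rcases h1 with ⟨-, m, hm, rfl, rfl, rfl⟩ | ⟨h1, -⟩
      swap
      · exact absurd h1 (by simp)
      rcases h2 with ⟨-, m', hm', rfl, rfl, hz⟩ | ⟨h2, -⟩
      swap
      · exact absurd h2 (by simp)
      simp only at hz h3
      obtain ⟨rfl, hy⟩ := h.eqY hw hu (by omega) (by omega) hz
      have hj := h.ovlX hw hu (by omega) (by omega) h3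
      subst hj
      rw [ovl_shift] at h3
      have hwu : w ≠ u := by
        rintro rfl
        exact hne rfl
      refine ⟨?_, rfl, rfl⟩
      refine (h.xy w hw u hu hwu).2 ⟨m, ?_, m', ?_, hy, h3⟩
      · by_contra hcon
        push Not at hcon
        exact hwu (h.y2 w hw u hu m (by omega) m' (by omega) hcon hy).1
      · by_contra hcon
        push Not at hcon
        exact hwu (h.y2 u hu w hw m' (by omega) m (by omega) hcon hy.symm).1.symm
    · rcases h1 with ⟨-, m, hm, rfl, rfl, rfl⟩ | ⟨h1, -⟩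
      swap
      · exact absurd h1 (by simp)
      rcases h2 with ⟨-, m', hm', hz, rfl, rfl⟩ | ⟨h2, -⟩
      swap
      · exact absurd h2 (by simp)
      simp only at hz h3
      obtain ⟨rfl, hmm, rfl⟩ := h.eqX hw hu (by omega) (by omega) hz
      have hi := h.ovlY hw hw (by omega) (by omega) h3
      subst hi
      exact absurd rfl hne

lemma meet_cp_pa (h : Draw VH T k adj XX YY A SY) {w u : W} (hw : w ∈ VH) (hu : u ∈ VH)
    {i j j' m' : ℕ} (hi : i < N) (hm' : m' < (k + 1) / 2) :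
    adjP adj (0, w, i, j) (1, u, j', m') = true ↔
      Meet k N XX YY A SY (0, w, i, j) (1, u, j', m') := by
  have hk := h.hk
  rw [adjP_cp_pa]
  constructor
  · rintro ⟨rfl, rfl⟩
    refine Or.inr ⟨_, _, _, _, _, Or.inl ⟨rfl, m', hm', rfl, rfl, rfl⟩,
      Or.inr ⟨rfl, rfl, rfl, rfl⟩, ?_⟩
    simp only
    have h1 := h.y0 w hw m' (by omega)
    have h2 := h.y0 w hw (m' + 1) (by omega)
    have h3 := h.y1 w hw m' (by omega)
    have h4 := le_mul_of_lt (S := SY) (by omega) hi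
    have h5 : 0 ≤ (i : ℤ) * SY := mul_nonneg (by omega) (by omega)
    unfold ovl
    generalize (i : ℤ) * SY = a at *
    generalize (N : ℤ) * SY = b at *
    omega
  · rintro (⟨a, b, c, d, z, h1, h2, h3⟩ | ⟨a, b, c, d, z, h1, h2, h3⟩)
    · rcases h2 with ⟨h2, -⟩ | ⟨h2, -⟩ <;> exact absurd h2 (by simp)
    · rcases h1 with ⟨-, m, hm, rfl, rfl, rfl⟩ | ⟨h1, -⟩
      swap
      · exact absurd h1 (by simp)
      rcases h2 with ⟨h2, -⟩ | ⟨-, hz, rfl, rfl⟩
      · exact absurd h2 (by simp)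
      simp only at hz h3
      obtain ⟨h4, hmm, h5⟩ := h.eqX hw hu (by omega) (by omega) hz
      exact ⟨h4, h5⟩

lemma meet_cp_pb (h : Draw VH T k adj XX YY A SY) {w u : W} (hw : w ∈ VH) (hu : u ∈ VH)
    {i j i' m' : ℕ} (hj : j < N) (hm' : m' < (k + 2) / 2) (hT : T u ≤ m') :
    adjP adj (0, w, i, j) (2, u, i', m') = true ↔
      Meet k N XX YY A SY (0, w, i, j) (2, u, i', m') := by
  have hk := h.hk
  rw [adjP_cp_pb]
  constructor
  · rintro ⟨rfl, rfl⟩
    refine Or.inl ⟨_, _, _, _, _, Or.inl ⟨rfl, m', hm', rfl, rfl, rfl⟩,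
      Or.inr ⟨rfl, rfl, rfl, rfl⟩, ?_⟩
    simp only
    have h1 := h.x2 w hw m' (by omega)
    have h2 := h.x2 w hw (m' + 1) (by omega)
    have h3 : XX w m' ≠ XX w (m' + 1) := by
      intro heq
      have := h.x1 w hw w hw m' (by omega) (m' + 1) (by omega) heq
      omega
    have h4 := le_mul_of_lt (S := 2 * A) (by omega) hj
    have h5 : 0 ≤ (j : ℤ) * (2 * A) := mul_nonneg (by omega) (by omega)
    have h6 : ((N : ℤ) + 1) * (2 * A) = N * (2 * A) + 2 * A := by ring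
    rw [h6]
    unfold ovl
    generalize (j : ℤ) * (2 * A) = a at *
    generalize (N : ℤ) * (2 * A) = b at *
    omega
  · rintro (⟨a, b, c, d, z, h1, h2, h3⟩ | ⟨a, b, c, d, z, h1, h2, h3⟩)
    · rcases h1 with ⟨-, m, hm, rfl, rfl, rfl⟩ | ⟨h1, -⟩
      swap
      · exact absurd h1 (by simp)
      rcases h2 with ⟨h2, -⟩ | ⟨-, rfl, rfl, hz⟩
      · exact absurd h2 (by simp)
      simp only at hz h3
      obtain ⟨h4, h5⟩ := h.eqY hw hu (by omega) (by omega) hz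
      have h6 := h.y2 u hu w hw m' (by omega) m (by omega) hT h5.symm
      exact ⟨h6.1.symm, h4⟩
    · rcases h2 with ⟨h2, -⟩ | ⟨h2, -⟩ <;> exact absurd h2 (by simp)

lemma meet_pa_pa (h : Draw VH T k adj XX YY A SY) {w u : W} (hw : w ∈ VH) (hu : u ∈ VH)
    {j m j' m' : ℕ} (hm : m < (k + 1) / 2) (hm' : m' < (k + 1) / 2)
    (hne : ((1, w, j, m) : ℕ × W × ℕ × ℕ) ≠ (1, u, j', m')) :
    ¬ Meet k N XX YY A SY (1, w, j, m) (1, u, j', m') := by
  have hk := h.hk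
  rintro (⟨a, b, c, d, z, h1, h2, h3⟩ | ⟨a, b, c, d, z, h1, h2, h3⟩)
  · rcases h2 with ⟨h2, -⟩ | ⟨h2, -⟩ <;> exact absurd h2 (by simp)
  · rcases h1 with ⟨h1, -⟩ | ⟨-, rfl, rfl, rfl⟩
    · exact absurd h1 (by simp)
    rcases h2 with ⟨h2, -⟩ | ⟨-, hz, rfl, rfl⟩
    · exact absurd h2 (by simp)
    simp only at hz
    obtain ⟨rfl, hmm, rfl⟩ := h.eqX hw hu (by omega) (by omega) hz
    have : m = m' := by omega
    subst this
    exact hne rfl

omit [DecidableEq W] in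
lemma meet_pa_pb {w u : W} {j m j' m' : ℕ} :
    ¬ Meet k N XX YY A SY (1, w, j, m) (2, u, j', m') := by
  rintro (⟨a, b, c, d, z, h1, h2, h3⟩ | ⟨a, b, c, d, z, h1, h2, h3⟩)
  · rcases h1 with ⟨h1, -⟩ | ⟨h1, -⟩ <;> exact absurd h1 (by simp)
  · rcases h2 with ⟨h2, -⟩ | ⟨h2, -⟩ <;> exact absurd h2 (by simp)

lemma meet_pb_pb (h : Draw VH T k adj XX YY A SY) {w u : W} (hw : w ∈ VH) (hu : u ∈ VH)
    {i m i' m' : ℕ} (hm : m < (k + 2) / 2) (hm' : m' < (k + 2) / 2) (hT : T w ≤ m)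
    (hne : ((2, w, i, m) : ℕ × W × ℕ × ℕ) ≠ (2, u, i', m')) :
    ¬ Meet k N XX YY A SY (2, w, i, m) (2, u, i', m') := by
  have hk := h.hk
  rintro (⟨a, b, c, d, z, h1, h2, h3⟩ | ⟨a, b, c, d, z, h1, h2, h3⟩)
  · rcases h1 with ⟨h1, -⟩ | ⟨-, rfl, rfl, rfl⟩
    · exact absurd h1 (by simp)
    rcases h2 with ⟨h2, -⟩ | ⟨-, -, -, hz⟩
    · exact absurd h2 (by simp)
    simp only at hz
    obtain ⟨rfl, h5⟩ := h.eqY hw hu (by omega) (by omega) hz
    obtain ⟨rfl, rfl⟩ := h.y2 w hw u hu m (by omega) m' (by omega) hT h5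
    exact hne rfl
  · rcases h1 with ⟨h1, -⟩ | ⟨h1, -⟩ <;> exact absurd h1 (by simp)

/-- the drawing represents the graph with pins -/
theorem meet_iff_adjP (h : Draw VH T k adj XX YY A SY) {x y : ℕ × W × ℕ × ℕ}
    (hx : InP VH T k N x) (hy : InP VH T k N y) (hne : x ≠ y) :
    adjP adj x y = true ↔ Meet k N XX YY A SY x y := by
  obtain ⟨tx, w, a, b⟩ := x
  obtain ⟨ty, u, c, d⟩ := y
  rcases hx with ⟨h1, h2, h3, h4⟩ | ⟨h1, h2, h3, h4⟩ | ⟨h1, h2, h3, h4, h5⟩ <;>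
    rcases hy with ⟨g1, g2, g3, g4⟩ | ⟨g1, g2, g3, g4⟩ | ⟨g1, g2, g3, g4, g5⟩ <;>
    simp only at h1 h2 h3 h4 g1 g2 g3 g4 <;> subst h1 <;> subst g1
  · exact meet_cp_cp h h2 g2 hne
  · exact meet_cp_pa h h2 g2 h3 g4
  · exact meet_cp_pb h h2 g2 h4 g5 g4
  · rw [adjP_comm, meet_cp_pa h g2 h2 g3 h4]
    exact ⟨meet_comm, meet_comm⟩
  · rw [adjP_pa_pa]
    exact ⟨fun h => absurd h (by simp), fun hm => absurd hm (meet_pa_pa h h2 g2 h4 g4 hne)⟩
  · rw [adjP_pa_pb]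
    exact ⟨fun h => absurd h (by simp), fun hm => absurd hm meet_pa_pb⟩
  · rw [adjP_comm, meet_cp_pb h g2 h2 g4 h5 h4]
    exact ⟨meet_comm, meet_comm⟩
  · rw [adjP_comm, adjP_pa_pb]
    exact ⟨fun h => absurd h (by simp), fun hm => absurd (meet_comm hm) meet_pa_pb⟩
  · rw [adjP_pb_pb]
    exact ⟨fun h => absurd h (by simp), fun hm => absurd hm (meet_pb_pb h h2 g2 h5 g5 h4 hne)⟩

end Pool.Agent.Helper86.Bend
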