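import Pool.Agent.Helper86.Bend.Base
import Pool.Agent.Helper87.NP.Cnf
import Pool.Agent.Helper87.NP.Arith

/-!
# From formulas in conjunctive normal form to instances with three places per clause
-/

open Pool.Agent.Helper91.PolyTime Pool.Agent.Helper87.NP

namespace Pool.Agent.Helper86.Bend

variable {ν : Type}

/-- variables: the old ones, and auxiliary ones -/
abbrev Vr (ν : Type) : Type := ν ⊕ (ℕ × ℕ)

/-- literals -/
abbrev Lit (ν : Type) : Type := Vr ν × Bool

/-- literals of auxiliary variables -/
def yl (ν : Type) (c i : ℕ) (b : Bool) : Lit ν := (Sum.inr (c, i), b)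

/-- the clauses of a chain -/
def tripC (c : ℕ) (C : List (ν × Bool)) : List (Lit ν × Lit ν × Lit ν) :=
  (yl ν c 0 true, yl ν c 0 true, yl ν c 0 true) ::
    ((yl ν c C.length false, yl ν c C.length false, yl ν c C.length false) ::
      (List.range C.length).flatMap fun i => match C[i]? with
        | none => []
        | some l => [(yl ν c i false, (Sum.inl l.1, l.2), yl ν c (i + 1) true)])

/-- the clauses with three places of a formula -/
def trip (φ : Cnf ν) : List (Lit ν × Lit ν × Lit ν) :=
  (List.range φ.length).flatMap fun c => match φ[c]? with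
    | none => []
    | some C => tripC c C

/-- the literal is true -/
def Tr (τ : Vr ν → Bool) (l : Lit ν) : Prop := τ l.1 = l.2

/-- one of the three literals is true -/
def Tr3 (τ : Vr ν → Bool) (t : Lit ν × Lit ν × Lit ν) : Prop :=
  Tr τ t.1 ∨ Tr τ t.2.1 ∨ Tr τ t.2.2

lemma mem_tripC {c : ℕ} {C : List (ν × Bool)} {t : Lit ν × Lit ν × Lit ν} :
    t ∈ tripC c C ↔ t = (yl ν c 0 true, yl ν c 0 true, yl ν c 0 true) ∨
      t = (yl ν c C.length false, yl ν c C.length false, yl ν c C.length false) ∨
      ∃ i, ∃ l, C[i]? = some l ∧ t = (yl ν c i false, (Sum.inl l.1, l.2), yl ν c (i + 1) true) := by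
  unfold tripC
  rw [List.mem_cons, List.mem_cons, List.mem_flatMap]
  constructor
  · rintro (h | h | ⟨i, -, h⟩)
    · exact Or.inl h
    · exact Or.inr (Or.inl h)
    · refine Or.inr (Or.inr ?_)
      cases hl : C[i]? with
      | none => rw [hl] at h; simp at h
      | some l =>
        rw [hl] at h
        exact ⟨i, l, hl, by simpa using h⟩
  · rintro (h | h | ⟨i, l, hl, h⟩)
    · exact Or.inl h
    · exact Or.inr (Or.inl h)
    · refine Or.inr (Or.inr ⟨i, ?_, ?_⟩)
      · rw [List.mem_range]
        exact (List.getElem?_eq_some_iff.1 hl).1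
      · rw [hl]
        simpa using h

lemma mem_trip {φ : Cnf ν} {t : Lit ν × Lit ν × Lit ν} :
    t ∈ trip φ ↔ ∃ c C, φ[c]? = some C ∧ t ∈ tripC c C := by
  unfold trip
  rw [List.mem_flatMap]
  constructor
  · rintro ⟨c, -, h⟩
    cases hl : φ[c]? with
    | none => rw [hl] at h; simp at h
    | some C =>
      rw [hl] at h
      exact ⟨c, C, hl, h⟩
  · rintro ⟨c, C, hl, h⟩
    refine ⟨c, ?_, ?_⟩
    · rw [List.mem_range]
      exact (List.getElem?_eq_some_iff.1 hl).1
    · rw [hl]
      exact h

theorem sat_iff_trip (φ : Cnf ν) : φ.Sat ↔ ∃ τ : Vr ν → Bool, ∀ t ∈ trip φ, Tr3 τ t := by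
  classical
  constructor
  · rintro ⟨τ, hτ⟩
    -- the auxiliary variable `(c, i)` is true if the first `i` literals of the clause `c` are false
    refine ⟨fun v => match v with
      | Sum.inl v => τ v
      | Sum.inr (c, i) => decide (∀ C, φ[c]? = some C → ∀ j < i, ∀ l, C[j]? = some l →
          τ l.1 ≠ l.2), ?_⟩
    intro t ht
    obtain ⟨c, C, hc, ht⟩ := mem_trip.1 ht
    rcases mem_tripC.1 ht with rfl | rfl | ⟨i, l, hl, rfl⟩
    · left
      show decide _ = true
      rw [decide_eq_true_eq]
      intro _ _ j hj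
      omega
    · left
      show decide _ = false
      rw [decide_eq_false_iff_not]
      intro h
      obtain ⟨l, hl, hl'⟩ := hτ C (List.mem_of_getElem? hc)
      obtain ⟨j, hj⟩ := List.getElem?_of_mem hl
      exact h C hc j (List.getElem?_eq_some_iff.1 hj).1 l hj hl'
    · by_cases h1 : ∀ C, φ[c]? = some C → ∀ j < i, ∀ l, C[j]? = some l → τ l.1 ≠ l.2
      · by_cases h2 : τ l.1 = l.2
        · right; left
          exact h2
        · right; right
          show decide _ = true
          rw [decide_eq_true_eq]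
          intro C' hC' j hj l' hl'
          rcases Nat.lt_or_ge j i with h3 | h3
          · exact h1 C' hC' j h3 l' hl'
          · have h4 : j = i := by omega
            subst h4
            rw [hc] at hC'
            cases hC'
            rw [hl] at hl'
            cases hl'
            exact h2
      · left
        show decide _ = false
        rw [decide_eq_false_iff_not]
        exact h1
  · rintro ⟨τ, hτ⟩
    refine ⟨fun v => τ (Sum.inl v), fun C hC => ?_⟩
    by_contra hcon
    push Not at hcon
    obtain ⟨c, hc⟩ := List.getElem?_of_mem hC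
    have h1 : ∀ i ≤ C.length, τ (Sum.inr (c, i)) = true := by
      intro i
      induction i with
      | zero =>
        intro _
        have h2 := hτ _ (mem_trip.2 ⟨c, C, hc, mem_tripC.2 (Or.inl rfl)⟩)
        rcases h2 with h2 | h2 | h2 <;> exact h2
      | succ i ih =>
        intro hi
        have h3 : C[i]? = some C[i] := List.getElem?_eq_getElem (by omega)
        have h2 := hτ _ (mem_trip.2 ⟨c, C, hc, mem_tripC.2 (Or.inr (Or.inr ⟨i, _, h3, rfl⟩))⟩)
        rcases h2 with h2 | h2 | h2
        · have h4 : τ (Sum.inr (c, i)) = false := h2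
          rw [ih (by omega)] at h4
          exact absurd h4 (by simp)
        · exact absurd h2 (hcon _ (List.getElem_mem _))
        · exact h2
    have h2 := hτ _ (mem_trip.2 ⟨c, C, hc, mem_tripC.2 (Or.inr (Or.inl rfl))⟩)
    have h3 : τ (Sum.inr (c, C.length)) = false := by
      rcases h2 with h2 | h2 | h2 <;> exact h2
    rw [h1 _ le_rfl] at h3
    exact absurd h3 (by simp)

/-- the literal at a place -/
def litAt (t : List (Lit ν × Lit ν × Lit ν)) (o : ℕ) : Option (Lit ν) :=
  match t[o / 3]? with
  | none => none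
  | some x => some (if o % 3 = 0 then x.1 else if o % 3 = 1 then x.2.1 else x.2.2)

/-- the conflict relation -/
def cfl [DecidableEq ν] (t : List (Lit ν × Lit ν × Lit ν)) (o o' : ℕ) : Bool :=
  match litAt t o with
  | none => false
  | some a => match litAt t o' with
    | none => false
    | some b => decide (a.1 = b.1) && !(decide (a.2 = b.2))

lemma litAt_eq (t : List (Lit ν × Lit ν × Lit ν)) {c : ℕ} (hc : c < t.length) {j : ℕ}
    (hj : j < 3) : litAt t (3 * c + j) =
      some (if j = 0 then t[c].1 else if j = 1 then t[c].2.1 else t[c].2.2) := by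
  unfold litAt
  have h1 : (3 * c + j) / 3 = c := by omega
  have h2 : (3 * c + j) % 3 = j := by omega
  rw [h1, h2, List.getElem?_eq_getElem hc]

theorem feas_iff [DecidableEq ν] (t : List (Lit ν × Lit ν × Lit ν)) :
    Feas t.length (cfl t) ↔ ∃ τ : Vr ν → Bool, ∀ x ∈ t, Tr3 τ x := by
  classical
  constructor
  · rintro ⟨κ, hκ, hcf⟩
    refine ⟨fun v => decide (∃ c < t.length, litAt t (3 * c + κ c) = some (v, true)), ?_⟩
    intro x hx
    obtain ⟨c, hc, rfl⟩ := List.getElem_of_mem hx
    have h1 := litAt_eq t hc (hκ c)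
    set l : Lit ν := if κ c = 0 then t[c].1 else if κ c = 1 then t[c].2.1 else t[c].2.2 with hl
    have h2 : Tr (fun v => decide (∃ c < t.length, litAt t (3 * c + κ c) = some (v, true))) l := by
      show decide _ = l.2
      cases hb : l.2 with
      | true =>
        rw [decide_eq_true_eq]
        refine ⟨c, hc, ?_⟩
        rw [h1]
        congr 1
        exact Prod.ext rfl hb
      | false =>
        rw [decide_eq_false_iff_not]
        rintro ⟨c', hc', h3⟩
        have hne : 3 * c + κ c ≠ 3 * c' + κ c' := by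
          intro h
          rw [← h, h1, Option.some.injEq] at h3
          rw [h3] at hb
          exact absurd hb (by simp)
        have hcc : cfl t (3 * c + κ c) (3 * c' + κ c') = true ∧
            cfl t (3 * c' + κ c') (3 * c + κ c) = true := by
          unfold cfl
          rw [h1, h3]
          simp [hb]
        rcases lt_or_gt_of_ne hne with hlt | hlt
        · have := hcf c hc c' hc' hlt
          rw [hcc.1] at this
          exact absurd this (by simp)
        · have := hcf c' hc' c hc hlt
          rw [hcc.2] at this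
          exact absurd this (by simp)
    have hj := hκ c
    by_cases h0 : κ c = 0
    · rw [if_pos h0] at hl
      rw [hl] at h2
      exact Or.inl h2
    · by_cases h1 : κ c = 1
      · rw [if_neg h0, if_pos h1] at hl
        rw [hl] at h2
        exact Or.inr (Or.inl h2)
      · rw [if_neg h0, if_neg h1] at hl
        rw [hl] at h2
        exact Or.inr (Or.inr h2)
  · rintro ⟨τ, hτ⟩
    have h1 : ∀ c, ∃ j < 3, ∀ l, litAt t (3 * c + j) = some l → Tr τ l := by
      intro c
      by_cases hc : c < t.length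
      · rcases hτ _ (List.getElem_mem hc) with h | h | h
        · refine ⟨0, by norm_num, fun l hl => ?_⟩
          rw [litAt_eq t hc (by norm_num), Option.some.injEq] at hl
          rw [← hl]
          simpa using h
        · refine ⟨1, by norm_num, fun l hl => ?_⟩
          rw [litAt_eq t hc (by norm_num), Option.some.injEq] at hl
          rw [← hl]
          simpa using h
        · refine ⟨2, by norm_num, fun l hl => ?_⟩
          rw [litAt_eq t hc (by norm_num), Option.some.injEq] at hl
          rw [← hl]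
          simpa using h
      · refine ⟨0, by norm_num, fun l hl => ?_⟩
        exfalso
        unfold litAt at hl
        have h1 : (3 * c + 0) / 3 = c := by omega
        rw [h1, List.getElem?_eq_none (by omega)] at hl
        simp at hl
    choose κ hκ1 hκ2 using h1
    refine ⟨κ, hκ1, ?_⟩
    intro c hc c' hc' _
    by_contra hcf
    rw [Bool.not_eq_false] at hcf
    unfold cfl at hcf
    have h1 := litAt_eq t hc (hκ1 c)
    have h2 := litAt_eq t hc' (hκ1 c')
    have h3 := hκ2 c _ h1
    have h4 := hκ2 c' _ h2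
    rw [h1, h2] at hcf
    simp only [Bool.and_eq_true, decide_eq_true_eq, Bool.not_eq_true', decide_eq_false_iff_not]
      at hcf
    apply hcf.2
    have h5 : τ _ = _ := h3
    have h6 : τ _ = _ := h4
    rw [← h5, ← h6, hcf.1]

section ptf

variable [PEnc ν] {α : Type*} [PEnc α]

lemma ptf_yl {c i : α → ℕ} (hc : PTF c) (hi : PTF i) (b : Bool) :
    PTF (fun a => yl ν (c a) (i a) b) :=
  PTF.pair (PTF.inr (PTF.pair hc hi)) (PTF.const b)

lemma ptf_trip3 {x y z : α → Lit ν} (hx : PTF x) (hy : PTF y) (hz : PTF z) :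
    PTF (fun a => (x a, y a, z a)) := PTF.pair hx (PTF.pair hy hz)

lemma ptf_tripC {c : α → ℕ} {C : α → List (ν × Bool)} (hc : PTF c) (hC : PTF C) :
    PTF (fun a => tripC (c a) (C a)) := by
  have h0 := ptf_yl (ν := ν) hc (PTF.const (α := α) 0) true
  have h1 := ptf_yl (ν := ν) hc (PTF.length hC) false
  have h2 : PTF (fun p : (α × ℕ) × (ν × Bool) => c p.1.1) := hc.comp PTF.id.fst.fst
  have h3 : PTF (fun p : (α × ℕ) × (ν × Bool) => p.1.2) := PTF.id.fst.snd
  have h4 : PTF (fun p : (α × ℕ) × (ν × Bool) =>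
      [(yl ν (c p.1.1) p.1.2 false, ((Sum.inl p.2.1, p.2.2) : Lit ν),
        yl ν (c p.1.1) (p.1.2 + 1) true)]) :=
    PTF.cons (ptf_trip3 (ptf_yl h2 h3 false)
      (PTF.pair (PTF.inl PTF.id.snd.fst) PTF.id.snd.snd) (ptf_yl h2 (PTF.succ h3) true))
      (PTF.const [])
  have h5 : PTF (fun p : α × ℕ => (C p.1)[p.2]?) := PTF.getElem? PTF.id.snd (hC.comp PTF.id.fst)
  have h6 := PTF.optCase (n := fun _ : α × ℕ => ([] : List (Lit ν × Lit ν × Lit ν)))
    (s := fun (p : α × ℕ) (l : ν × Bool) => [(yl ν (c p.1) p.2 false,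
      ((Sum.inl l.1, l.2) : Lit ν), yl ν (c p.1) (p.2 + 1) true)]) h5 (PTF.const []) h4
  unfold tripC
  refine PTF.cons (ptf_trip3 h0 h0 h0) (PTF.cons (ptf_trip3 h1 h1 h1)
    (PTF.flatMap (PTF.range (PTF.length hC)) (h6.of_eq fun p => ?_)))
  cases (C p.1)[p.2]? <;> rfl

lemma ptf_trip {φ : α → Cnf ν} (hφ : PTF φ) : PTF (fun a => trip (φ a)) := by
  have h5 : PTF (fun p : α × ℕ => (φ p.1)[p.2]?) := PTF.getElem? PTF.id.snd (hφ.comp PTF.id.fst)
  have h4 : PTF (fun p : (α × ℕ) × List (ν × Bool) => tripC p.1.2 p.2) :=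
    ptf_tripC PTF.id.fst.snd PTF.id.snd
  have h6 := PTF.optCase (n := fun _ : α × ℕ => ([] : List (Lit ν × Lit ν × Lit ν)))
    (s := fun (p : α × ℕ) (C : List (ν × Bool)) => tripC p.2 C) h5 (PTF.const []) h4
  unfold trip
  refine PTF.flatMap (PTF.range (PTF.length hφ)) (h6.of_eq fun p => ?_)
  cases (φ p.1)[p.2]? <;> rfl

lemma ptf_litAt {t : α → List (Lit ν × Lit ν × Lit ν)} {o : α → ℕ} (ht : PTF t) (ho : PTF o) :
    PTF (fun a => litAt (t a) (o a)) := by
  have h1 : PTF (fun p : α × (Lit ν × Lit ν × Lit ν) => o p.1 % 3) :=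
    ptf_mod (ho.comp PTF.id.fst) 3 (by norm_num)
  have h2 : PTF (fun p : α × (Lit ν × Lit ν × Lit ν) => some (if o p.1 % 3 = 0 then p.2.1
      else if o p.1 % 3 = 1 then p.2.2.1 else p.2.2.2)) :=
    PTF.some (PTF.ite (PTF.eq h1 (PTF.const 0)) PTF.id.snd.fst
      (PTF.ite (PTF.eq h1 (PTF.const 1)) PTF.id.snd.snd.fst PTF.id.snd.snd.snd))
  have h3 : PTF (fun a => (t a)[o a / 3]?) := PTF.getElem? (ptf_div ho 3 (by norm_num)) ht
  have h4 := PTF.optCase (n := fun _ : α => (none : Option (Lit ν)))
    (s := fun (a : α) (x : Lit ν × Lit ν × Lit ν) => some (if o a % 3 = 0 then x.1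
      else if o a % 3 = 1 then x.2.1 else x.2.2)) h3 (PTF.const none) h2
  refine h4.of_eq fun a => ?_
  unfold litAt
  cases (t a)[o a / 3]? <;> rfl

lemma ptf_cfl [DecidableEq ν] {t : α → List (Lit ν × Lit ν × Lit ν)} {o o' : α → ℕ}
    (ht : PTF t) (ho : PTF o) (ho' : PTF o') : PTF (fun a => cfl (t a) (o a) (o' a)) := by
  have h1 : PTF (fun p : (α × Lit ν) × Lit ν => decide (p.1.2.1 = p.2.1) &&
      !(decide (p.1.2.2 = p.2.2))) :=
    PTF.and (PTF.eq PTF.id.fst.snd.fst PTF.id.snd.fst)
      (PTF.not (PTF.eq PTF.id.fst.snd.snd PTF.id.snd.snd))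
  have h2 := PTF.optCase (n := fun _ : α × Lit ν => false)
    (s := fun (p : α × Lit ν) (b : Lit ν) => decide (p.2.1 = b.1) && !(decide (p.2.2 = b.2)))
    (ptf_litAt (ht.comp PTF.id.fst) (ho'.comp PTF.id.fst)) (PTF.const false) h1
  have h2' : PTF (fun p : α × Lit ν => (litAt (t p.1) (o' p.1)).elim false
      fun b => decide (p.2.1 = b.1) && !(decide (p.2.2 = b.2))) := by
    refine h2.of_eq fun p => ?_
    cases litAt (t p.1) (o' p.1) <;> rfl
  have h3 := PTF.optCase (n := fun _ : α => false)
    (s := fun (a : α) (x : Lit ν) => (litAt (t a) (o' a)).elim false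
      fun b => decide (x.1 = b.1) && !(decide (x.2 = b.2)))
    (ptf_litAt ht ho) (PTF.const false) h2'
  refine h3.of_eq fun a => ?_
  unfold cfl
  cases litAt (t a) (o a) with
  | none => rfl
  | some x => cases litAt (t a) (o' a) <;> rfl

end ptf

end Pool.Agent.Helper86.Bend
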